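import Pool.Agent.H314.CS.Smooth

/-!
# Gravitating Abelian Higgs strings: all string numbers `N ≥ 2`

Definitions and the exact statements of the bricks.
-/

set_option autoImplicit false
open MeasureTheory Filter Topology Set Metric

namespace Pool.Agent.K3h35.GS

open Pool.Agent.H314.Dir

/-- the nonlinearity `k(R,v) = e^{a (v - R e^v)} (R e^v - 1)` -/
noncomputable def kk (a R v : ℝ) : ℝ :=
  Real.exp (a * (v - R * Real.exp v)) * (R * Real.exp v - 1)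

/-- its derivative with respect to `v` -/
noncomputable def kd (a R v : ℝ) : ℝ :=
  Real.exp (a * (v - R * Real.exp v)) * (R * Real.exp v - a * (1 - R * Real.exp v) ^ 2)

/-- the radial base solution, as a function of `s = |x|²` -/
structure Base (a Q : ℝ) (w : ℝ → ℝ) : Prop where
  smooth : ContDiff ℝ ((⊤ : ℕ∞) : WithTop ℕ∞) w
  eq : ∀ s, s * deriv (deriv w) s + deriv w s = kk a 1 (w s) / 4
  neg : ∀ s, 0 ≤ s → w s < 0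
  decay : ∃ C : ℝ, 0 < C ∧ ∀ s, 0 ≤ s → Real.exp (w s) ≤ C * (1 + s) ^ (-Q)

/-- Brick A: existence of the radial base solution with arbitrarily fast decay. -/
def St_A : Prop := ∀ a Q : ℝ, 0 < a → 0 < Q → ∃ w : ℝ → ℝ, Base a Q w

/-- Brick K2: a strict supersolution for the linearisation on the mode `3/2`. -/
def St_K2 : Prop := ∀ (a Q : ℝ) (w : ℝ → ℝ), 0 < a → 1 < a * Q → Base a Q w →
  ∃ (P P1 P2 : ℝ → ℝ) (c : ℝ), 0 < c ∧ (∀ t, HasDerivAt P (P1 t) t) ∧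
    (∀ t, HasDerivAt P1 (P2 t) t) ∧ (∀ t, c * Real.exp t ≤ P t) ∧
    ∀ t, P2 t < (9 / 4 + Real.exp (2 * t) * kd a 1 (w (Real.exp (2 * t)))) * P t

/-- Brick K3: solutions on the cylinder which are `N`-fold symmetric (`N ≥ 2`) and `o(e^t)` at both
ends do not depend on the angle. -/
def St_K3 : Prop := ∀ (N : ℕ), 2 ≤ N → ∀ (V P P1 P2 : ℝ → ℝ) (c : ℝ), 0 < c →
  (∀ t, HasDerivAt P (P1 t) t) → (∀ t, HasDerivAt P1 (P2 t) t) →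
  (∀ t, c * Real.exp t ≤ P t) → (∀ t, P2 t < (9 / 4 + V t) * P t) →
  ∀ (u ut utt uh uhh : ℝ → ℝ → ℝ), Continuous (fun p : ℝ × ℝ => u p.1 p.2) →
  (∀ t h, HasDerivAt (fun τ => u τ h) (ut t h) t) →
  (∀ t h, HasDerivAt (fun τ => ut τ h) (utt t h) t) →
  (∀ t h, HasDerivAt (fun ϑ => u t ϑ) (uh t h) h) →
  (∀ t h, HasDerivAt (fun ϑ => uh t ϑ) (uhh t h) h) →
  (∀ t h, utt t h + uhh t h = V t * u t h) →
  (∀ t h, u t (h + 2 * Real.pi / N) = u t h) →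
  (∀ ε : ℝ, 0 < ε → ∃ T : ℝ, ∀ t h, T ≤ |t| → |u t h| ≤ ε * Real.exp t) →
  ∀ t h h', u t h = u t h'

/-- Brick K4: uniqueness for the radial mode. -/
def St_K4 : Prop := ∀ (V f f1 : ℝ → ℝ) (C : ℝ), (∀ t, |V t| ≤ C * Real.exp (2 * t)) →
  (∀ t, HasDerivAt f (f1 t) t) → (∀ t, HasDerivAt f1 (V t * f t) t) →
  Tendsto f atBot (𝓝 0) → ∀ t, f t = 0

/-- polar coordinates `(e^t cos h, e^t sin h)` -/
noncomputable def pol (t h : ℝ) : Eu 2 := !₂[Real.exp t * Real.cos h, Real.exp t * Real.sin h]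

/-- Brick K1: the Laplacian in logarithmic polar coordinates. -/
def St_K1 : Prop := ∀ φ : Eu 2 → ℝ, ContDiff ℝ 2 φ →
  ∃ (ut utt uh uhh : ℝ → ℝ → ℝ),
  (∀ t h, HasDerivAt (fun τ => φ (pol τ h)) (ut t h) t) ∧
  (∀ t h, HasDerivAt (fun τ => ut τ h) (utt t h) t) ∧
  (∀ t h, HasDerivAt (fun ϑ => φ (pol t ϑ)) (uh t h) h) ∧
  (∀ t h, HasDerivAt (fun ϑ => uh t ϑ) (uhh t h) h) ∧
  ∀ t h, utt t h + uhh t h = Real.exp (2 * t) * lap φ (pol t h)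

/-- the normalised logarithmic potential: `Δ (Tp f) = f`, `Tp f 0 = 0` -/
noncomputable def Tp (f : Eu 2 → ℝ) (x : Eu 2) : ℝ :=
  (Npot 0 1 f 0 - Npot 0 1 f x) - ∫ s in Ioi (1 : ℝ), s * (J sig f s x - J sig f s 0)

/-- Brick T1: bounds for the potential. -/
def St_T1 : Prop := ∃ c : ℝ, 0 < c ∧ ∀ (f : Eu 2 → ℝ) (C : ℝ), BM f C → Integrable f →
  (∀ x, |Tp f x| ≤ c * (C + ∫ y, |f y|) * (1 + Real.log (1 + ‖x‖ ^ 2))) ∧
  (∀ x y, |Tp f x - Tp f y| ≤ c * (C + ∫ y, |f y|) * ‖x - y‖)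

/-- Brick T2: linearity of the potential. -/
def St_T2 : Prop := ∀ (f g : Eu 2 → ℝ) (C D : ℝ) (r : ℝ), BM f C → Integrable f → BM g D →
  Integrable g → ∀ x, Tp (fun y => f y + r * g y) x = Tp f x + r * Tp g x

/-- Brick T3: the potential solves the Poisson equation. -/
def St_T3 : Prop := ∀ (f : Eu 2 → ℝ) (C : ℝ), BM f C → Integrable f → (∀ x, LipNear f x) →
  ContDiff ℝ 2 (Tp f) ∧ ∀ x, lap (Tp f) x = f x

/-- Brick N: the pointwise estimates for the nonlinearity (`y = 1 + |x|²`). -/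
def St_N : Prop := ∀ (a Q C0 : ℝ) (N : ℕ), 0 < a → 0 < C0 → (N : ℝ) + 1 ≤ Q → 4 ≤ a * Q →
  ∃ C1 κ0 : ℝ, 0 < C1 ∧ 0 < κ0 ∧ ∀ (κ δ y v R z z' : ℝ), 0 ≤ κ → κ ≤ κ0 → 0 ≤ δ → δ ≤ 1 →
    1 ≤ y → Real.exp v ≤ C0 * y ^ (-Q) → 0 ≤ R → R ≤ 4 * y ^ N → |R - 1| ≤ 3 * δ * y ^ N →
    |z| ≤ κ * (1 + Real.log y) → |z'| ≤ κ * (1 + Real.log y) →
    y ^ 2 * |kk a R (v + z) - kk a R (v + z') - kd a 1 v * (z - z')| ≤
        C1 * (κ + δ) * (y ^ (-(1 / 2) : ℝ) / (1 + Real.log y)) * |z - z'| ∧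
      y ^ 2 * |kk a R v - kk a 1 v| ≤ C1 * δ * y ^ (-(1 / 2) : ℝ)

/-- Brick F: Fredholm alternative and contraction. -/
def St_F : Prop := ∀ (X : Type) [NormedAddCommGroup X] [NormedSpace ℝ X] [CompleteSpace X]
  (A : X →L[ℝ] X), IsCompactOperator A → (∀ h, A h = h → h = 0) →
  ∃ β : ℝ, 0 < β ∧ ∀ (η : ℝ), 0 < η → ∀ Nf : X → X,
    (∀ h h', ‖h‖ ≤ η → ‖h'‖ ≤ η → ‖Nf h - Nf h'‖ ≤ β * ‖h - h'‖) → ‖Nf 0‖ ≤ β * η →
    ∃ h, ‖h‖ ≤ η ∧ h = A h + Nf h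

/-- Brick C: compactness. -/
def St_C : Prop := ∀ (S : BoundedContinuousFunction (OnePoint (Eu 2)) ℝ → Eu 2 → ℝ) (c : ℝ)
  (W : Eu 2 → ℝ),
  (∀ h h' x, S (h + h') x = S h x + S h' x) → (∀ (r : ℝ) h x, S (r • h) x = r * S h x) →
  (∀ h x, |S h x| ≤ c * ‖h‖ * (1 + Real.log (1 + ‖x‖ ^ 2))) →
  (∀ h x y, |S h x - S h y| ≤ c * ‖h‖ * ‖x - y‖) → Continuous W →
  Tendsto (fun x => W x * (1 + Real.log (1 + ‖x‖ ^ 2))) (cocompact (Eu 2)) (𝓝 0) →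
  ∃ A : BoundedContinuousFunction (OnePoint (Eu 2)) ℝ →L[ℝ]
      BoundedContinuousFunction (OnePoint (Eu 2)) ℝ,
    IsCompactOperator A ∧ ∀ h (x : Eu 2), A h (x : OnePoint (Eu 2)) = W x * S h x

/-- Brick S: local regularity (no boundedness assumed). -/
def St_S : Prop := ∀ (b : Eu 2 → ℝ → ℝ),
  ContDiff ℝ ((⊤ : ℕ∞) : WithTop ℕ∞) (fun p : Eu 2 × ℝ => b p.1 p.2) → ∀ v : Eu 2 → ℝ,
  ContDiff ℝ 2 v → (∀ x, lap v x = b x (v x)) → ContDiff ℝ ((⊤ : ℕ∞) : WithTop ℕ∞) v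

/-- Brick G: integrability of the energy density. -/
def St_G : Prop := ∀ (e B : ℝ) (W v F : Eu 2 → ℝ), ContDiff ℝ 2 W → (∀ x, |W x| ≤ B) →
  ContDiff ℝ 2 v → Integrable (lap v) → Continuous F → (∀ x, 0 ≤ F x) →
  (∀ x, F x = 1 / 4 * lap W x - e / 4 * lap v x) → Integrable F

end Pool.Agent.K3h35.GS
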