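import Pool.Agent.K3h35.GS.Sub
import Pool.Agent.H172R3.GS4

set_option autoImplicit false
open MeasureTheory Filter Topology Set Metric

namespace Pool.Agent.K3h35.GS

open Pool.Agent.H314.Dir Pool.Agent.H314.CS Pool.Agent.H172R3.GS

variable {K : ℕ}

theorem lip_bt {th : Eu 2 → ℝ} (hth : LocallyLipschitz th) (p : Fin K → Eu 2) (n : Fin K → ℕ)
    (a κ e g : ℝ) :
    LocallyLipschitz (fun q : Eu 2 × ℝ => bt th p n a κ e g q.1 q.2) := by
  have h1 : ContDiff ℝ 1 (fun q : Eu 2 × ℝ => bb 0 p n a κ e g q.1 q.2 - qq 0 p n q.1) :=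
    (contDiff_bb 0 p n a κ e g).sub ((contDiff_qq 0 p n).comp contDiff_fst)
  have h2 : ContDiff ℝ 1 (fun q : Eu 2 × ℝ => qq 0 p n q.1) := (contDiff_qq 0 p n).comp contDiff_fst
  have h3 : LocallyLipschitz (fun q : Eu 2 × ℝ => th q.1) :=
    hth.comp LipschitzWith.prod_fst.locallyLipschitz
  have h4 : ContDiff ℝ 1 (fun r : ℝ × (ℝ × ℝ) => r.1 + r.2.1 * r.2.2) := by fun_prop
  exact h4.locallyLipschitz.comp (h2.locallyLipschitz.prodMk (h3.prodMk h1.locallyLipschitz))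

theorem smooth_bt {N : WithTop ℕ∞} {th : Eu 2 → ℝ} (hth : ContDiff ℝ N th) (p : Fin K → Eu 2)
    (n : Fin K → ℕ) (a κ e g : ℝ) :
    ContDiff ℝ N (fun q : Eu 2 × ℝ => bt th p n a κ e g q.1 q.2) := by
  have h1 : ContDiff ℝ N (fun q : Eu 2 × ℝ => bb 0 p n a κ e g q.1 q.2 - qq 0 p n q.1) :=
    (contDiff_bb 0 p n a κ e g).sub ((contDiff_qq 0 p n).comp contDiff_fst)
  have h2 : ContDiff ℝ N (fun q : Eu 2 × ℝ => qq 0 p n q.1) := (contDiff_qq 0 p n).comp contDiff_fst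
  have h3 : ContDiff ℝ N (fun q : Eu 2 × ℝ => th q.1) := hth.comp contDiff_fst
  exact h2.add (h3.mul h1)

theorem smooth_x0 {N : WithTop ℕ∞} : ContDiff ℝ N (fun x : Eu 2 => x 0) :=
  (EuclideanSpace.proj (𝕜 := ℝ) (0 : Fin 2)).contDiff

theorem exists_arb (p : Fin K → Eu 2) (n : Fin K → ℕ) (hn : ∀ k, 1 ≤ n k) {a κ e : ℝ}
    (ha : 0 < a) (hκ : 0 < κ) (he : 0 < e) :
    ∃ g : ℝ, 0 < g ∧ ∃ (t : Eu 2 → ℝ) (B : ℝ), ContDiff ℝ ((⊤ : ℕ∞) : WithTop ℕ∞) t ∧
      (∀ x, |t x| ≤ B) ∧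
      ∀ x, lap t x = bt (fun x => Real.exp (x 0)) p n a κ e g x (t x) := by
  set M : ℝ := Real.log (2 * e) with hMdef
  have hM : Real.exp M = 2 * e := Real.exp_log (by positivity)
  obtain ⟨g, hg, hgq⟩ := exists_g p n hn (Real.exp (a * M) * e)
  obtain ⟨L, Y, B0, hL1, hL2, hL3⟩ := exists_lower p n ha hκ he hg
  refine ⟨g, hg, ?_⟩
  set C : ℕ → ℝ := fun m => Real.exp (Y - 1) + m with hC
  have hC0 : ∀ m, 0 < C m := fun m => by simp only [hC]; positivity
  set th : ℕ → Eu 2 → ℝ := fun m x => min (Real.exp (x 0)) (C m) with hth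
  have hth0 : ∀ m x, 0 ≤ th m x := fun m x => le_min (Real.exp_pos _).le (hC0 m).le
  have hthe : ∀ m x, th m x ≤ Real.exp (x 0) := fun m x => min_le_left _ _
  have hthC : ∀ m x, th m x ≤ C m := fun m x => min_le_right _ _
  have hthm : ∀ m x, th m x ≤ th (m + 1) x := by
    intro m x
    refine min_le_min le_rfl ?_
    simp only [hC]
    push_cast
    linarith
  have hthY : ∀ m x, Y - 1 ≤ x 0 → Real.exp (Y - 1) ≤ th m x := by
    intro m x hx
    refine le_min (Real.exp_le_exp.2 hx) ?_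
    simp only [hC]
    have : (0 : ℝ) ≤ m := by positivity
    linarith
  have hexl : LocallyLipschitz (fun x : Eu 2 => Real.exp (x 0)) :=
    ContDiff.locallyLipschitz (𝕂 := ℝ) (smooth_x0 (N := 1)).exp
  have hthl : ∀ m, LocallyLipschitz (th m) := fun m => hexl.min_const (C m)
  -- bounds
  set B : ℝ := |B0| + |M| + 1 with hB
  have hBpos : 0 < B := by positivity
  have hB1 : -B ≤ B0 := by
    have := neg_abs_le B0
    have := abs_nonneg M
    linarith
  have hB2 : M ≤ B := by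
    have := le_abs_self M
    have := abs_nonneg B0
    linarith
  set Q1 : ℝ := 4 * (((0 : ℕ) : ℝ) + 1) * ∑ k, (n k : ℝ) with hQ1
  set Q2 : ℝ := 4 * (((0 : ℕ) : ℝ) + 1) * ∑ k, (n k : ℝ) +
    g * (Real.exp (a * B) * (Real.exp B + e)) with hQ2
  set W : ℝ := g * (Real.exp (a * B) * ((a + κ * Real.exp B) * (Real.exp B + e) + Real.exp B))
    with hW
  have hW0 : 0 < W := by positivity
  have habs : ∀ m x t, |t| ≤ B → |bt (th m) p n a κ e g x t| ≤ Q1 + C m * (Q2 + Q1) := by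
    intro m x t ht
    have h1 := abs_bb_le 0 p n a κ e g ha.le hκ.le he.le hg.le B x t ht
    have h2 : |qq 0 p n x| ≤ Q1 := by
      rw [abs_of_nonneg (qq_nonneg 0 p n x)]
      exact qq_le 0 p n x
    unfold bt
    refine (abs_add_le _ _).trans (add_le_add h2 ?_)
    rw [abs_mul, abs_of_nonneg (hth0 m x)]
    exact mul_le_mul (hthC m x) ((abs_sub _ _).trans (add_le_add h1 h2)) (abs_nonneg _) (hC0 m).le
  have hone : ∀ m x s t, -B ≤ s → s ≤ t → t ≤ B →
      bt (th m) p n a κ e g x t - bt (th m) p n a κ e g x s ≤ C m * W * (t - s) := by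
    intro m x s t h1 h2 h3
    have h4 := bb_mono 0 p n a κ e g ha.le hκ.le he.le hg.le B x s t h1 h2 h3
    have h5 : bt (th m) p n a κ e g x t - bt (th m) p n a κ e g x s =
        th m x * (bb 0 p n a κ e g x t - bb 0 p n a κ e g x s) := by unfold bt; ring
    rw [h5]
    have h6 := mul_le_mul_of_nonneg_left h4 (hth0 m x)
    have h7 : 0 ≤ W * (t - s) := mul_nonneg hW0.le (by linarith)
    have h8 := mul_le_mul_of_nonneg_right (hthC m x) h7
    rw [mul_assoc]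
    exact h6.trans h8
  have hUsup : ∀ m x, LocSup (bt (th m) p n a κ e g) (Ub p n e M) x := fun m x =>
    Ub_sup hn ha hκ he hg hM hgq (hth0 m) (hthe m) x
  have hstep : ∀ (m : ℕ) (Lo : Eu 2 → ℝ), (∀ x, LocSub (bt (th m) p n a κ e g) Lo x) →
      (∀ x, Lo x ≤ Ub p n e M x) → (∀ x, -B ≤ Lo x) →
      ∃ v : Eu 2 → ℝ, ContDiff ℝ 2 v ∧ (∀ x, Lo x ≤ v x ∧ v x ≤ Ub p n e M x) ∧
        ∀ x, lap v x = bt (th m) p n a κ e g x (v x) := by
    intro m Lo h1 h2 h3
    exact barrier_exists (bt (th m) p n a κ e g) (lip_bt (hthl m) p n a κ e g) B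
      (Q1 + C m * (Q2 + Q1)) (C m * W) hBpos (mul_pos (hC0 m) hW0) (habs m) (hone m) Lo
      (Ub p n e M) h1 (hUsup m) h2 h3 (fun x => (Ub_le he x).1.trans hB2)
  -- the sequence
  set P : ℕ → (Eu 2 → ℝ) → Prop := fun m t => ContDiff ℝ 2 t ∧
    (∀ x, -B ≤ t x ∧ t x ≤ Ub p n e M x) ∧ ∀ x, lap t x = bt (th m) p n a κ e g x (t x) with hP
  have h0 : ∃ t, P 0 t := by
    have hlU : ∀ x, L x ≤ Ub p n e M x := fun x => le_Ub he hM
      ((hL1 x).trans (Real.log_le_log (by positivity) (by linarith))) x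
    obtain ⟨v, hv1, hv2, hv3⟩ := hstep 0 L (hL3 (th 0) (hth0 0) (hthY 0)) hlU
      (fun x => hB1.trans (hL2 x))
    exact ⟨v, hv1, fun x => ⟨(hB1.trans (hL2 x)).trans (hv2 x).1, (hv2 x).2⟩, hv3⟩
  have hs : ∀ (m : ℕ) (t : Eu 2 → ℝ), P m t → ∃ t', P (m + 1) t' ∧ ∀ x, t x ≤ t' x := by
    rintro m t ⟨ht1, ht2, ht3⟩
    have hsub : ∀ x, SubPc (bt (th (m + 1)) p n a κ e g) t x := by
      intro x
      refine ⟨ht1.contDiffAt, ?_⟩
      rw [ht3, bt_eq, bt_eq]
      have h1 : EE 0 p n x * Real.exp (t x) ≤ e :=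
        (mul_le_mul_of_nonneg_left (Real.exp_le_exp.2 (ht2 x).2) (EE_nonneg 0 p n x)).trans
          (Ub_le he x).2
      set Z := g * Real.exp (-(a * GG 0 p n x)) *
        (Real.exp (a * t x - κ * (EE 0 p n x * Real.exp (t x))) *
          (EE 0 p n x * Real.exp (t x) - e)) with hZ
      have h2 : Z ≤ 0 := by
        have h3 : EE 0 p n x * Real.exp (t x) - e ≤ 0 := by linarith
        exact mul_nonpos_of_nonneg_of_nonpos (by positivity)
          (mul_nonpos_of_nonneg_of_nonpos (Real.exp_pos _).le h3)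
      have h3 := mul_le_mul_of_nonpos_right (hthm m x) h2
      linarith
    obtain ⟨v, hv1, hv2, hv3⟩ := hstep (m + 1) t
      (fun x => ⟨t, t, t, hsub x, hsub x, hsub x, Eventually.of_forall fun y => by simp⟩)
      (fun x => (ht2 x).2) (fun x => (ht2 x).1)
    exact ⟨v, ⟨hv1, fun x => ⟨(ht2 x).1.trans (hv2 x).1, (hv2 x).2⟩, hv3⟩, fun x => (hv2 x).1⟩
  choose! F hF using hs
  obtain ⟨t0, ht0⟩ := h0
  set T : ℕ → Eu 2 → ℝ := fun m => Nat.rec t0 (fun m t => F m t) m with hT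
  have hTP : ∀ m, P m (T m) := by
    intro m
    induction m with
    | zero => exact ht0
    | succ m ih => exact (hF m (T m) ih).1
  have hTm : ∀ x, Monotone (fun m => T m x) := fun x =>
    monotone_nat_of_le_succ fun m => (hF m (T m) (hTP m)).2 x
  have hTB : ∀ m x, |T m x| ≤ B := fun m x => abs_le.2
    ⟨((hTP m).2.1 x).1, ((hTP m).2.1 x).2.trans ((Ub_le he x).1.trans hB2)⟩
  obtain ⟨t, ht1, ht2, ht3⟩ := lim_exists (fun m => bt (th m) p n a κ e g)
    (bt (fun x => Real.exp (x 0)) p n a κ e g) (lip_bt hexl p n a κ e g) T B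
    (fun m => (hTP m).1) hTB hTm (fun m => (hTP m).2.2) (fun R => by
      obtain ⟨m0, hm0⟩ := exists_nat_ge (Real.exp R)
      refine ⟨m0, fun m hm x hx s => ?_⟩
      have h1 : th m x = Real.exp (x 0) := by
        refine min_eq_left ?_
        have h2 : x 0 ≤ ‖x‖ := (le_abs_self _).trans (by
          have := PiLp.norm_apply_le x 0
          rwa [Real.norm_eq_abs] at this)
        have h3 : Real.exp (x 0) ≤ Real.exp R := Real.exp_le_exp.2 (h2.trans hx)
        have h4 : (m0 : ℝ) ≤ m := by exact_mod_cast hm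
        have h5 := Real.exp_pos (Y - 1)
        simp only [hC]
        linarith
      unfold bt
      rw [h1])
  refine ⟨t, B, ?_, fun x => ?_, ht3⟩
  · exact t_S _ (smooth_bt (smooth_x0 (N := ((⊤ : ℕ∞) : WithTop ℕ∞))).exp p n a κ e g) t ht1 ht3
  · exact le_of_tendsto ((ht2 x).abs) (Eventually.of_forall fun m => hTB m x)

end Pool.Agent.K3h35.GS
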