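import Pool.Agent.Results.MP_e9f444_mp.ManyStrings

/-!
# The first order equations with a harmonic part in the metric

This is the argument of `ManyStrings.lean`; the conformal factor may contain an arbitrary harmonic
function.
-/

set_option autoImplicit false

namespace Pool.Agent.K3h35.GS

open MeasureTheory Filter Topology Set
open Pool.Agent.Results.MP_e9f444_mp.ManyStrings Pool.Agent.H172R3.GS Pool.Agent.H314.Dir

/-- The first order (self-dual) equations. -/
structure BPH (ε G : ℝ) (η v : Plane → ℝ) (φ : Plane → ℂ) (A : Fin 2 → Plane → ℝ) : Prop where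
  hη : Smooth η
  hv : Smooth v
  hφ : Smooth φ
  hA : ∀ j, Smooth (A j)
  b1 : ∀ x, covD A 1 φ x = Complex.I * covD A 0 φ x
  b2 : ∀ x, field A 0 1 x = -(1 / 2) * Real.exp (η x) * (‖φ x‖ ^ 2 - ε ^ 2)
  b3 : ∃ (c : ℝ) (h : Plane → ℝ), Smooth h ∧ (∀ x, ∑ j, pd j (pd j h) x = 0) ∧
    ∀ x, η x = c + 4 * Real.pi * G * (ε ^ 2 * v x - ‖φ x‖ ^ 2) + h x
  b4 : ∀ x, ∑ j, pd j (pd j v) x = Real.exp (η x) * (‖φ x‖ ^ 2 - ε ^ 2)

namespace BPH

variable {ε G : ℝ} {η v : Plane → ℝ} {φ : Plane → ℂ} {A : Fin 2 → Plane → ℝ}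

lemma norm_D1 (h : BPH ε G η v φ A) (x : Plane) : ‖covD A 1 φ x‖ = ‖covD A 0 φ x‖ := by
  rw [h.b1 x, norm_mul, Complex.norm_I, one_mul]

lemma energy_eq (h : BPH ε G η v φ A) (x : Plane) : energyDensity ε η φ A x =
    1 / 4 * (‖φ x‖ ^ 2 - ε ^ 2) ^ 2 + Real.exp (-η x) * ‖covD A 0 φ x‖ ^ 2 := by
  unfold energyDensity
  simp only [Fin.sum_univ_two, gUp, if_true, if_neg (by decide : ¬ (0 : Fin 2) = 1),
    if_neg (by decide : ¬ (1 : Fin 2) = 0), field_self, field_swap, normSq_eq,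
    zero_mul, mul_zero, add_zero, zero_add, Complex.ofReal_zero]
  rw [← Complex.ofReal_mul, ← Complex.ofReal_mul, ← Complex.ofReal_add, Complex.ofReal_re,
    h.norm_D1 x, h.b2 x]
  have e1 : Real.exp (-η x) * Real.exp (η x) = 1 := by rw [← Real.exp_add]; simp
  set a := Real.exp (-η x)
  set b := Real.exp (η x)
  have e2 : a * a * (b * b) = 1 := by
    calc a * a * (b * b) = (a * b) * (a * b) := by ring
      _ = 1 := by rw [e1]; ring
  set s := ‖φ x‖ ^ 2 - ε ^ 2
  set z := ‖covD A 0 φ x‖ ^ 2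
  have e3 : 1 / 4 * (a * a * (-(1 / 2) * b * s) * (-(1 / 2) * b * s) +
      a * a * -(-(1 / 2) * b * s) * -(-(1 / 2) * b * s)) = 1 / 8 * s ^ 2 * (a * a * (b * b)) := by
    ring
  rw [e3, e2]
  ring

/-- the sum of the second covariant derivatives -/
lemma sum_DD (h : BPH ε G η v φ A) (x : Plane) :
    covD A 0 (covD A 0 φ) x + covD A 1 (covD A 1 φ) x = -((field A 0 1 x : ℂ) * φ x) := by
  have hc := covD_comm h.hA h.hφ 0 1 x
  have hz : Smooth (covD A 0 φ) := Smooth.covD h.hA h.hφ 0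
  have e1 : covD A 1 φ = fun y => Complex.I * covD A 0 φ y := funext h.b1
  have e2 : covD A 0 (covD A 1 φ) x = Complex.I * covD A 0 (covD A 0 φ) x := by
    rw [e1, covD_smul hz]
  have e3 : covD A 1 (covD A 1 φ) x = Complex.I * covD A 1 (covD A 0 φ) x := by
    rw [e1, covD_smul hz]
  rw [e2] at hc
  rw [e3]
  have h4 : Complex.I * (Complex.I * covD A 0 (covD A 0 φ) x - covD A 1 (covD A 0 φ) x) =
      Complex.I * -(Complex.I * (field A 0 1 x : ℂ) * φ x) := by rw [hc]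
  have h5 : Complex.I * Complex.I = -1 := Complex.I_mul_I
  linear_combination (-1 : ℂ) * h4 + (covD A 0 (covD A 0 φ) x + (field A 0 1 x : ℂ) * φ x) * h5

lemma lap_normSq (h : BPH ε G η v φ A) (x : Plane) : ∑ j, pd j (pd j fun y => ‖φ y‖ ^ 2) x =
    4 * ‖covD A 0 φ x‖ ^ 2 + Real.exp (η x) * (‖φ x‖ ^ 2 - ε ^ 2) * ‖φ x‖ ^ 2 := by
  have key : ∀ j : Fin 2, pd j (pd j fun y => ‖φ y‖ ^ 2) x = 2 * (‖covD A j φ x‖ ^ 2 +
      ((starRingEnd ℂ) (φ x) * covD A j (covD A j φ) x).re) := by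
    intro j
    have e1 : (pd j fun y => ‖φ y‖ ^ 2) =
        fun y => (fun _ => (2 : ℝ)) y * ((starRingEnd ℂ) (φ y) * covD A j φ y).re :=
      funext fun y => pd_normSq h.hφ j y
    have hD : Smooth (covD A j φ) := Smooth.covD h.hA h.hφ j
    have hs : Smooth (fun y => ((starRingEnd ℂ) (φ y) * covD A j φ y).re) :=
      Complex.reCLM.contDiff.comp (ContDiff.mul h.hφ.conj hD)
    have h0 : pd j (fun _ : Plane => (2 : ℝ)) x = 0 := by unfold pd; simp
    rw [e1, pd_mulR (contDiff_const) hs, h0, zero_mul, zero_add, pd_reConj (A := A) h.hφ hD]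
    rw [Complex.add_re]
    have e2 : (starRingEnd ℂ) (covD A j φ x) * covD A j φ x = ((‖covD A j φ x‖ ^ 2 : ℝ) : ℂ) := by
      rw [mul_comm, normSq_eq]
    rw [e2, Complex.ofReal_re]
  rw [Fin.sum_univ_two, key, key, h.norm_D1]
  have h1 := congrArg (fun w => ((starRingEnd ℂ) (φ x) * w).re) (h.sum_DD x)
  simp only [mul_add, Complex.add_re] at h1
  have h2 : ((starRingEnd ℂ) (φ x) * -((field A 0 1 x : ℂ) * φ x)).re =
      -(field A 0 1 x * ‖φ x‖ ^ 2) := by
    have : (starRingEnd ℂ) (φ x) * -((field A 0 1 x : ℂ) * φ x) =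
        ((-(field A 0 1 x * ‖φ x‖ ^ 2) : ℝ) : ℂ) := by
      have := normSq_eq (φ x)
      push_cast at this ⊢
      linear_combination (-(field A 0 1 x : ℂ)) * this
    rw [this, Complex.ofReal_re]
  rw [h2, h.b2 x] at h1
  linarith

lemma lap_eta (h : BPH ε G η v φ A) (x : Plane) : ∑ j, pd j (pd j η) x =
    -(4 * Real.pi * G) * (Real.exp (η x) * (‖φ x‖ ^ 2 - ε ^ 2) ^ 2 + 4 * ‖covD A 0 φ x‖ ^ 2) := by
  obtain ⟨c, H, hHs, hHl, hc⟩ := h.b3
  have hs : Smooth (fun y => ‖φ y‖ ^ 2) := ContDiff.norm_sq ℝ h.hφ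
  have hcst : ∀ a : ℝ, Smooth (fun _ : Plane => a) := fun a => contDiff_const
  have h0 : ∀ (a : ℝ) (j : Fin 2) (x : Plane), pd j (fun _ : Plane => a) x = 0 := by
    intro a j x; unfold pd; simp
  have e1 : η = fun y => (c + (4 * Real.pi * G) * (ε ^ 2 * v y - ‖φ y‖ ^ 2)) + H y := funext hc
  have hv2 : Smooth (fun y => ε ^ 2 * v y) := ContDiff.mul (hcst _) h.hv
  have hd : Smooth (fun y => ε ^ 2 * v y - ‖φ y‖ ^ 2) := ContDiff.sub hv2 hs
  have hd2 : Smooth (fun y => (4 * Real.pi * G) * (ε ^ 2 * v y - ‖φ y‖ ^ 2)) :=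
    ContDiff.mul (hcst _) hd
  have hd3 : Smooth (fun y => c + (4 * Real.pi * G) * (ε ^ 2 * v y - ‖φ y‖ ^ 2)) :=
    ContDiff.add (hcst c) hd2
  have e2 : ∀ j y, pd j η y =
      (4 * Real.pi * G) * (ε ^ 2 * pd j v y - pd j (fun y => ‖φ y‖ ^ 2) y) + pd j H y := by
    intro j y
    rw [e1, pd_add' hd3 hHs, pd_add' (hcst c) hd2, h0, zero_add, pd_mulR (hcst _) hd, h0,
      zero_mul, zero_add,
      pd_sub' hv2 hs, pd_mulR (hcst _) h.hv, h0, zero_mul, zero_add]
  have e3 : ∀ j, pd j (pd j η) x = (4 * Real.pi * G) *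
      (ε ^ 2 * pd j (pd j v) x - pd j (pd j fun y => ‖φ y‖ ^ 2) x) + pd j (pd j H) x := by
    intro j
    have hvj : Smooth (fun y => ε ^ 2 * pd j v y) := ContDiff.mul (hcst _) (h.hv.pd j)
    have hsj := hs.pd j
    have hdj : Smooth (fun y => ε ^ 2 * pd j v y - pd j (fun y => ‖φ y‖ ^ 2) y) :=
      ContDiff.sub hvj hsj
    have hdj2 : Smooth (fun y =>
      (4 * Real.pi * G) * (ε ^ 2 * pd j v y - pd j (fun y => ‖φ y‖ ^ 2) y)) :=
      ContDiff.mul (hcst _) hdj
    have e4 : pd j η = fun y =>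
      (4 * Real.pi * G) * (ε ^ 2 * pd j v y - pd j (fun y => ‖φ y‖ ^ 2) y) + pd j H y :=
      funext (e2 j)
    rw [e4, pd_add' hdj2 (hHs.pd j), pd_mulR (hcst _) hdj, h0, zero_mul, zero_add,
      pd_sub' hvj hsj, pd_mulR (hcst _) (h.hv.pd j), h0, zero_mul, zero_add]
  have h3 := h.lap_normSq x
  have h4 := h.b4 x
  have h5 := hHl x
  rw [Fin.sum_univ_two] at h3 h4 h5 ⊢
  rw [e3, e3]
  linear_combination (4 * Real.pi * G) * (ε ^ 2 * h4 - h3) + h5

/-- the energy density is a divergence -/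
lemma energy_div (h : BPH ε G η v φ A) (x : Plane) :
    energyDensity ε η φ A x * Real.exp (η x) =
      1 / 4 * (∑ j, pd j (pd j fun y => ‖φ y‖ ^ 2) x) - ε ^ 2 / 4 * ∑ j, pd j (pd j v) x := by
  rw [h.energy_eq, h.lap_normSq, h.b4]
  have e1 : Real.exp (-η x) * Real.exp (η x) = 1 := by rw [← Real.exp_add]; simp
  linear_combination ‖covD A 0 φ x‖ ^ 2 * e1

lemma energy_nonneg (h : BPH ε G η v φ A) (x : Plane) : 0 ≤ energyDensity ε η φ A x := by
  rw [h.energy_eq]
  have := Real.exp_pos (-η x)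
  positivity

theorem isSolution (h : BPH ε G η v φ A) : IsSolution ε G η φ A := by
  have e1 : ∀ x, Real.exp (-η x) * Real.exp (η x) = 1 := fun x => by
    rw [← Real.exp_add]; simp
  refine ⟨h.hη, h.hφ, h.hA, ?_, ?_, ?_, ?_⟩
  · intro x
    unfold gaussCurvature
    rw [h.lap_eta, h.energy_eq]
    linear_combination (2 * Real.pi * G * (‖φ x‖ ^ 2 - ε ^ 2) ^ 2) * e1 x
  · intro j k x
    unfold stress
    rw [h.energy_eq]
    have hre : ∀ w : ℂ, (w * (starRingEnd ℂ) w).re = ‖w‖ ^ 2 := fun w => by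
      rw [normSq_eq, Complex.ofReal_re]
    have hre' : ∀ w : ℂ, ((starRingEnd ℂ) w * w).re = ‖w‖ ^ 2 := fun w => by
      rw [mul_comm, normSq_eq, Complex.ofReal_re]
    have hF := h.b2 x
    have hx := e1 x
    fin_cases j <;> fin_cases k <;>
      simp only [Fin.sum_univ_two, gUp, gLow, if_true, Fin.zero_eta, Fin.mk_one,
        if_neg (by decide : ¬ (0 : Fin 2) = 1),
        if_neg (by decide : ¬ (1 : Fin 2) = 0), field_self, field_swap,
        zero_mul, mul_zero, add_zero, zero_add, Complex.add_re, sub_zero, hre, hre', h.norm_D1]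
    · rw [hF]
      linear_combination (1 / 4 * Real.exp (η x) * (‖φ x‖ ^ 2 - ε ^ 2) ^ 2 -
        ‖covD A 0 φ x‖ ^ 2) * hx
    · rw [h.b1 x]
      simp [Complex.mul_re, Complex.mul_im]
      ring
    · rw [h.b1 x]
      simp [Complex.mul_re, Complex.mul_im]
      ring
    · rw [hF]
      linear_combination (1 / 4 * Real.exp (η x) * (‖φ x‖ ^ 2 - ε ^ 2) ^ 2 -
        ‖covD A 0 φ x‖ ^ 2) * hx
  · intro x
    have hg1 : ∀ j : Fin 2, (fun y => ((gUp η j j y * volDen η y : ℝ) : ℂ) * covD A j φ y) =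
        covD A j φ := by
      intro j
      funext y
      unfold gUp volDen
      rw [if_pos rfl, e1 y]
      simp
    have hg0 : ∀ j k : Fin 2, j ≠ k → (fun y => ((gUp η j k y * volDen η y : ℝ) : ℂ) *
        covD A k φ y) = fun _ => 0 := by
      intro j k hjk
      funext y
      unfold gUp volDen
      rw [if_neg hjk]
      simp
    have hz : ∀ j, covD A j (fun _ => (0 : ℂ)) x = 0 := by
      intro j; unfold covD pd; simp
    simp only [Fin.sum_univ_two, hg1, hg0 0 1 (by decide), hg0 1 0 (by decide), hz, add_zero,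
      zero_add]
    rw [h.sum_DD, h.b2]
    unfold volDen
    have hne : ((Real.exp (η x) : ℝ) : ℂ) ≠ 0 := by
      exact_mod_cast (Real.exp_pos (η x)).ne'
    push_cast at hne ⊢
    field_simp
  · intro j x
    have hg : ∀ j k j' k' : Fin 2, ¬ (j = k ∧ j' = k') →
        (fun y => gUp η j k y * gUp η j' k' y * volDen η y * field A k k' y) = fun _ => 0 := by
      intro j k j' k' hjk
      funext y
      unfold gUp
      by_cases h1 : j = k
      · have h2 : ¬ j' = k' := fun h2 => hjk ⟨h1, h2⟩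
        rw [if_neg h2]; simp
      · rw [if_neg h1]; simp
    have hself : ∀ j k : Fin 2, (fun y => gUp η j k y * gUp η j k y * volDen η y *
        field A k k y) = fun _ => 0 := by
      intro j k
      funext y
      rw [field_self]; ring
    have hz : ∀ j, pd j (fun _ : Plane => (0 : ℝ)) x = 0 := by
      intro j; unfold pd; simp
    have hs : Smooth (fun y => ‖φ y‖ ^ 2) := ContDiff.norm_sq ℝ h.hφ
    have hF01 : (fun y => gUp η 0 0 y * gUp η 1 1 y * volDen η y * field A 0 1 y) =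
        fun y => (fun _ => (-(1 / 2) : ℝ)) y * (‖φ y‖ ^ 2 - (fun _ => ε ^ 2) y) := by
      funext y
      unfold gUp volDen
      rw [if_pos rfl, if_pos rfl, h.b2]
      linear_combination (-(1 / 2) * (‖φ y‖ ^ 2 - ε ^ 2)) *
        (Real.exp (-η y) * Real.exp (η y) + 1) * e1 y
    have hF10 : (fun y => gUp η 1 1 y * gUp η 0 0 y * volDen η y * field A 1 0 y) =
        fun y => (fun _ => ((1 / 2) : ℝ)) y * (‖φ y‖ ^ 2 - (fun _ => ε ^ 2) y) := by
      funext y
      unfold gUp volDen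
      rw [if_pos rfl, if_pos rfl, field_swap, h.b2]
      linear_combination ((1 / 2) * (‖φ y‖ ^ 2 - ε ^ 2)) *
        (Real.exp (-η y) * Real.exp (η y) + 1) * e1 y
    have hcst : ∀ a : ℝ, Smooth (fun _ : Plane => a) := fun a => contDiff_const
    have h0 : ∀ (a : ℝ) (j : Fin 2), pd j (fun _ : Plane => a) x = 0 := by
      intro a j; unfold pd; simp
    have hd : Smooth (fun y => ‖φ y‖ ^ 2 - (fun _ : Plane => ε ^ 2) y) :=
      ContDiff.sub hs (hcst _)
    have hpd : ∀ (a : ℝ) (j : Fin 2), pd j (fun y => (fun _ => a) y *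
        (‖φ y‖ ^ 2 - (fun _ : Plane => ε ^ 2) y)) x =
        a * (2 * ((starRingEnd ℂ) (φ x) * covD A j φ x).re) := by
      intro a j
      rw [pd_mulR (hcst a) hd, h0, zero_mul, zero_add, pd_sub' hs (hcst _), h0, sub_zero,
        pd_normSq (A := A) h.hφ]
    have hD := h.b1 x
    fin_cases j
    · simp only [Fin.sum_univ_two, Fin.zero_eta, hg 0 1 0 0 (by decide), hg 0 1 0 1 (by decide),
        hg 0 0 0 1 (by decide), hg 0 1 1 0 (by decide), hg 0 1 1 1 (by decide),
        hg 0 0 1 0 (by decide), hself, hz, add_zero, zero_add, hF01, hpd]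
      rw [hD]
      unfold gUp volDen
      simp only [if_true, if_neg (by decide : ¬ (0 : Fin 2) = 1), Complex.ofReal_zero, zero_mul,
        add_zero]
      rw [Real.exp_neg]
      exact maxwell_aux0 _ _ _
    · simp only [Fin.sum_univ_two, Fin.mk_one, hg 1 0 0 0 (by decide), hg 1 0 0 1 (by decide),
        hg 1 1 0 1 (by decide), hg 1 0 1 0 (by decide), hg 1 0 1 1 (by decide),
        hg 1 1 1 0 (by decide), hself, hz, add_zero, zero_add, hF10, hpd]
      rw [hD]
      unfold gUp volDen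
      simp only [if_true, if_neg (by decide : ¬ (1 : Fin 2) = 0), Complex.ofReal_zero, zero_mul,
        zero_add]
      rw [Real.exp_neg]
      exact maxwell_aux1 _ _ _

end BPH

end Pool.Agent.K3h35.GS
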