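import Pool.Agent.K3h35.GS.Stm

set_option autoImplicit false
open MeasureTheory Filter Topology Set Metric

namespace Pool.Agent.K3h35.GS

open Pool.Agent.H314.Dir

/-- the one point compactification of the plane -/
abbrev OP : Type := OnePoint (Eu 2)

/-- continuous functions on the sphere -/
abbrev XX : Type := BoundedContinuousFunction OP ℝ

/-- functions vanishing at infinity as elements of `XX` -/
noncomputable def mkX (f : Eu 2 → ℝ) (hf : Continuous f)
    (h0 : Tendsto f (cocompact (Eu 2)) (𝓝 0)) : XX :=
  BoundedContinuousFunction.mkOfCompact (OnePoint.continuousMapMk ⟨f, hf⟩ 0 (by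
    rw [coclosedCompact_eq_cocompact]; exact h0))

@[simp] theorem mkX_coe (f : Eu 2 → ℝ) (hf : Continuous f)
    (h0 : Tendsto f (cocompact (Eu 2)) (𝓝 0)) (x : Eu 2) : mkX f hf h0 (x : OP) = f x := rfl

@[simp] theorem mkX_infty (f : Eu 2 → ℝ) (hf : Continuous f)
    (h0 : Tendsto f (cocompact (Eu 2)) (𝓝 0)) : mkX f hf h0 OnePoint.infty = 0 := rfl

/-- the logarithmic weight -/
noncomputable def Lam (x : Eu 2) : ℝ := 1 + Real.log (1 + ‖x‖ ^ 2)

theorem one_le_Lam (x : Eu 2) : 1 ≤ Lam x := by
  unfold Lam
  have : 0 ≤ Real.log (1 + ‖x‖ ^ 2) := Real.log_nonneg (by nlinarith [sq_nonneg ‖x‖])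
  linarith

theorem continuous_Lam : Continuous Lam := by
  unfold Lam
  refine continuous_const.add (Continuous.log (by fun_prop) fun x => ?_)
  positivity

theorem continuous_of_lip {f : Eu 2 → ℝ} {K : ℝ} (h : ∀ x y, |f x - f y| ≤ K * ‖x - y‖) :
    Continuous f := by
  rw [continuous_iff_continuousAt]
  intro x
  rw [ContinuousAt, tendsto_iff_norm_sub_tendsto_zero]
  have h1 : Tendsto (fun y => K * ‖y - x‖) (𝓝 x) (𝓝 0) := by
    have : Continuous (fun y : Eu 2 => K * ‖y - x‖) := by fun_prop
    have h2 := this.tendsto x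
    simpa using h2
  exact squeeze_zero (fun y => norm_nonneg _) (fun y => h y x) h1

theorem t_C : St_C := by
  intro S c W hadd hsmul hbd hlip hW hW0
  have hWL : Continuous (fun x => W x * Lam x) := hW.mul continuous_Lam
  have hW0' : Tendsto (fun x => W x * Lam x) (cocompact (Eu 2)) (𝓝 0) := hW0
  set m : XX := mkX (fun x => W x * Lam x) hWL hW0' with hm
  set M : ℝ := ‖m‖ with hM
  have hM0 : 0 ≤ M := norm_nonneg _
  have hMb : ∀ x, |W x| * Lam x ≤ M := by
    intro x
    have h1 := m.norm_coe_le_norm (x : OP)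
    rw [hm, mkX_coe, Real.norm_eq_abs, abs_mul,
      abs_of_pos (by linarith [one_le_Lam x] : 0 < Lam x)] at h1
    exact h1
  have hScont : ∀ h, Continuous (S h) := fun h => continuous_of_lip (hlip h)
  have hbd' : ∀ h x, |S h x| ≤ |c| * ‖h‖ * Lam x := by
    intro h x
    refine (hbd h x).trans ?_
    refine mul_le_mul_of_nonneg_right ?_ (by linarith [one_le_Lam x] : 0 ≤ Lam x)
    exact mul_le_mul_of_nonneg_right (le_abs_self c) (norm_nonneg _)
  have hlip' : ∀ h x y, |S h x - S h y| ≤ |c| * ‖h‖ * ‖x - y‖ := by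
    intro h x y
    refine (hlip h x y).trans ?_
    refine mul_le_mul_of_nonneg_right ?_ (norm_nonneg _)
    exact mul_le_mul_of_nonneg_right (le_abs_self c) (norm_nonneg _)
  have hprod : ∀ h x, |W x * S h x| ≤ |c| * ‖h‖ * |W x * Lam x| := by
    intro h x
    rw [abs_mul, abs_mul, abs_of_pos (by linarith [one_le_Lam x] : 0 < Lam x)]
    calc |W x| * |S h x| ≤ |W x| * (|c| * ‖h‖ * Lam x) :=
          mul_le_mul_of_nonneg_left (hbd' h x) (abs_nonneg _)
      _ = _ := by ring
  have htend : ∀ h, Tendsto (fun x => W x * S h x) (cocompact (Eu 2)) (𝓝 0) := by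
    intro h
    have h1 : Tendsto (fun x => |c| * ‖h‖ * |W x * Lam x|) (cocompact (Eu 2)) (𝓝 0) := by
      have := (hW0'.abs).const_mul (|c| * ‖h‖)
      simpa using this
    exact squeeze_zero_norm (fun x => by rw [Real.norm_eq_abs]; exact hprod h x) h1
  set A0 : XX →ₗ[ℝ] XX :=
    { toFun := fun h => mkX (fun x => W x * S h x) (hW.mul (hScont h)) (htend h)
      map_add' := by
        intro h h'
        ext p
        induction p using OnePoint.rec with
        | infty => simp
        | coe x => simp [hadd]; ring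
      map_smul' := by
        intro r h
        ext p
        induction p using OnePoint.rec with
        | infty => simp
        | coe x => simp [hsmul]; ring } with hA0
  have hA0c : ∀ h (x : Eu 2), A0 h (x : OP) = W x * S h x := fun h x => rfl
  have hA0i : ∀ h, A0 h OnePoint.infty = 0 := fun h => rfl
  have hA0n : ∀ h, ‖A0 h‖ ≤ |c| * M * ‖h‖ := by
    intro h
    rw [BoundedContinuousFunction.norm_le (by positivity)]
    intro p
    induction p using OnePoint.rec with
    | infty => rw [hA0i, norm_zero]; positivity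
    | coe x =>
      rw [hA0c, Real.norm_eq_abs]
      refine (hprod h x).trans ?_
      rw [abs_mul, abs_of_pos (by linarith [one_le_Lam x] : 0 < Lam x)]
      calc |c| * ‖h‖ * (|W x| * Lam x) ≤ |c| * ‖h‖ * M :=
            mul_le_mul_of_nonneg_left (hMb x) (by positivity)
        _ = _ := by ring
  refine ⟨A0.mkContinuous (|c| * M) hA0n, ?_, fun h x => rfl⟩
  refine (isCompactOperator_iff_isCompact_closure_image_closedBall
    A0 (zero_lt_one (α := ℝ))).2 ?_
  refine BoundedContinuousFunction.arzela_ascoli (closedBall (0 : ℝ) (|c| * M))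
    (isCompact_closedBall _ _) _ ?_ ?_
  · rintro f p ⟨h, hh, rfl⟩
    rw [mem_closedBall_zero_iff] at hh ⊢
    have h1 := (BoundedContinuousFunction.norm_coe_le_norm (A0 h) p).trans (hA0n h)
    refine h1.trans ?_
    calc |c| * M * ‖h‖ ≤ |c| * M * 1 := mul_le_mul_of_nonneg_left hh (by positivity)
      _ = _ := mul_one _
  · intro p
    rw [Metric.equicontinuousAt_iff_right]
    intro ε hε
    induction p using OnePoint.rec with
    | infty =>
      rw [OnePoint.nhds_infty_eq, coclosedCompact_eq_cocompact, eventually_sup, eventually_map,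
        eventually_pure]
      constructor
      · have h1 : Tendsto (fun x => |c| * |W x * Lam x|) (cocompact (Eu 2)) (𝓝 0) := by
          have := (hW0'.abs).const_mul |c|
          simpa using this
        filter_upwards [h1.eventually_lt_const hε] with x hx
        rintro ⟨f, h, hh, rfl⟩
        rw [mem_closedBall_zero_iff] at hh
        show dist (A0 h OnePoint.infty) (A0 h (x : OP)) < ε
        rw [hA0i, hA0c, Real.dist_eq, zero_sub, abs_neg]
        refine lt_of_le_of_lt ((hprod h x).trans ?_) hx
        refine mul_le_mul_of_nonneg_right ?_ (abs_nonneg _)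
        calc |c| * ‖h‖ ≤ |c| * 1 := mul_le_mul_of_nonneg_left hh (abs_nonneg _)
          _ = _ := mul_one _
      · intro i
        rw [dist_self]
        exact hε
    | coe x =>
      rw [OnePoint.nhds_coe_eq, eventually_map]
      have h1 : Tendsto (fun y => |W x - W y| * (|c| * Lam x) + |W y| * (|c| * ‖x - y‖)) (𝓝 x)
          (𝓝 0) := by
        have : Continuous (fun y => |W x - W y| * (|c| * Lam x) + |W y| * (|c| * ‖x - y‖)) := by
          fun_prop
        have h2 := this.tendsto x
        simpa using h2
      filter_upwards [h1.eventually_lt_const hε] with y hy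
      rintro ⟨f, h, hh, rfl⟩
      rw [mem_closedBall_zero_iff] at hh
      show dist (A0 h (x : OP)) (A0 h (y : OP)) < ε
      rw [hA0c, hA0c, Real.dist_eq]
      refine lt_of_le_of_lt ?_ hy
      have e : W x * S h x - W y * S h y = (W x - W y) * S h x + W y * (S h x - S h y) := by ring
      rw [e]
      refine (abs_add_le _ _).trans (add_le_add ?_ ?_)
      · rw [abs_mul]
        refine mul_le_mul_of_nonneg_left ((hbd' h x).trans ?_) (abs_nonneg _)
        refine mul_le_mul_of_nonneg_right ?_ (by linarith [one_le_Lam x])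
        calc |c| * ‖h‖ ≤ |c| * 1 := mul_le_mul_of_nonneg_left hh (abs_nonneg _)
          _ = _ := mul_one _
      · rw [abs_mul]
        refine mul_le_mul_of_nonneg_left ((hlip' h x y).trans ?_) (abs_nonneg _)
        refine mul_le_mul_of_nonneg_right ?_ (norm_nonneg _)
        calc |c| * ‖h‖ ≤ |c| * 1 := mul_le_mul_of_nonneg_left hh (abs_nonneg _)
          _ = _ := mul_one _

end Pool.Agent.K3h35.GS
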