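import Pool.Agent.K3h35.GS.Stm

set_option autoImplicit false
open MeasureTheory Filter Topology Set Metric

namespace Pool.Agent.K3h35.GS

theorem t_F : St_F := by
  intro X _ _ _ A hA hinj
  have hunit : IsUnit ((1 : X →L[ℝ] X) - A) := by
    rcases hA.hasEigenvalue_or_mem_resolventSet (one_ne_zero (α := ℝ)) with h | h
    · exfalso
      obtain ⟨v, hv⟩ := h.exists_hasEigenvector
      have h1 : A v = v := by
        have := hv.apply_eq_smul
        simpa using this
      exact hv.2 (hinj v h1)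
    · rw [spectrum.mem_resolventSet_iff] at h
      simpa using h
  obtain ⟨u, hu⟩ := hunit
  set B : X →L[ℝ] X := ((u⁻¹ : (X →L[ℝ] X)ˣ) : X →L[ℝ] X) with hB
  have hAB : ∀ x, (B x) - A (B x) = x := by
    intro x
    have h1 : ((1 : X →L[ℝ] X) - A) * B = 1 := by
      rw [← hu, hB]; exact u.mul_inv
    have h2 := congrArg (fun T : X →L[ℝ] X => T x) h1
    simpa using h2
  refine ⟨1 / (2 * (‖B‖ + 1)), by positivity, ?_⟩
  intro η hη Nf hLip h0
  set β : ℝ := 1 / (2 * (‖B‖ + 1)) with hβ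
  have hβ0 : 0 < β := by positivity
  have hBβ : ‖B‖ * β ≤ 1 / 2 := by
    rw [hβ, mul_one_div, div_le_div_iff₀ (by positivity) (by norm_num)]
    linarith
  have hself : ‖(0 : X)‖ ≤ η := by simpa using hη.le
  set f : X → X := fun h => B (Nf h) with hf
  have hmaps : MapsTo f (closedBall (0 : X) η) (closedBall (0 : X) η) := by
    intro h hh
    rw [mem_closedBall_zero_iff] at hh ⊢
    have h1 : ‖Nf h‖ ≤ 2 * β * η := by
      have h2 := hLip h 0 hh hself
      rw [sub_zero] at h2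
      have h3 : ‖Nf h‖ ≤ ‖Nf h - Nf 0‖ + ‖Nf 0‖ := by
        simpa using norm_add_le (Nf h - Nf 0) (Nf 0)
      have h4 : β * ‖h‖ ≤ β * η := mul_le_mul_of_nonneg_left hh hβ0.le
      linarith
    calc ‖f h‖ ≤ ‖B‖ * ‖Nf h‖ := B.le_opNorm _
      _ ≤ ‖B‖ * (2 * β * η) := mul_le_mul_of_nonneg_left h1 (norm_nonneg _)
      _ = 2 * (‖B‖ * β) * η := by ring
      _ ≤ 2 * (1 / 2) * η := by
          refine mul_le_mul_of_nonneg_right ?_ hη.le
          linarith
      _ = η := by ring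
  have hcontr : ContractingWith (1 / 2 : NNReal) (hmaps.restrict f _ _) := by
    refine ⟨by
      rw [← NNReal.coe_lt_coe]; norm_num, ?_⟩
    refine LipschitzWith.of_dist_le_mul fun x y => ?_
    have hx := x.2
    have hy := y.2
    rw [mem_closedBall_zero_iff] at hx hy
    rw [Subtype.dist_eq, Subtype.dist_eq, MapsTo.val_restrict_apply, MapsTo.val_restrict_apply,
      dist_eq_norm, dist_eq_norm]
    have h1 : f x - f y = B (Nf x - Nf y) := by simp [hf]
    rw [h1]
    have h2 := hLip x y hx hy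
    calc ‖B (Nf x - Nf y)‖ ≤ ‖B‖ * ‖Nf x - Nf y‖ := B.le_opNorm _
      _ ≤ ‖B‖ * (β * ‖(x : X) - y‖) := mul_le_mul_of_nonneg_left h2 (norm_nonneg _)
      _ = ‖B‖ * β * ‖(x : X) - y‖ := by ring
      _ ≤ 1 / 2 * ‖(x : X) - y‖ := mul_le_mul_of_nonneg_right hBβ (norm_nonneg _)
      _ = _ := by norm_num
  obtain ⟨h, hh, hfix, -⟩ := hcontr.exists_fixedPoint' isClosed_closedBall.isComplete hmaps
    (mem_closedBall_self hη.le) (edist_ne_top _ _)
  rw [mem_closedBall_zero_iff] at hh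
  refine ⟨h, hh, ?_⟩
  have h1 := hAB (Nf h)
  have h2 : B (Nf h) = h := hfix
  rw [h2] at h1
  rw [← h1]
  abel_nf

end Pool.Agent.K3h35.GS
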