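import Pool.Agent.K3h35.GS.Stm
import Pool.Agent.H172R3.GS4

set_option autoImplicit false
open MeasureTheory Filter Topology Set Metric

namespace Pool.Agent.K3h35.GS

open Pool.Agent.H314.Dir Pool.Agent.H172R3.GS

theorem t_G : St_G := by
  intro e B W v F hWc hWb hv hvi hF hF0 hFe
  obtain ⟨C, hC⟩ := exists_cutoff
  have hB0 : 0 ≤ B := (abs_nonneg _).trans (hWb 0)
  set I : ℝ := 1 / 4 * (B * C) + |e| / 4 * ∫ x, |lap v x| with hI
  have key : ∀ R : ℝ, 0 < R → ∫ x in closedBall 0 R, F x ≤ I := by
    intro R hR
    obtain ⟨χ, hχ, hχc, hχ01, hχ1, hχC⟩ := hC R hR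
    have hint : Integrable (fun x => F x * χ x) :=
      (hF.mul hχ.continuous).integrable_of_hasCompactSupport hχc.mul_left
    have h1 : ∫ x in closedBall 0 R, F x ≤ ∫ x, F x * χ x := by
      rw [← integral_indicator isClosed_closedBall.measurableSet]
      refine integral_mono_of_nonneg (Eventually.of_forall fun x => indicator_nonneg
        (fun x _ => hF0 x) x) hint (Eventually.of_forall fun x => ?_)
      by_cases hx : x ∈ closedBall (0 : Eu 2) R
      · rw [indicator_of_mem hx]
        rw [mem_closedBall_zero_iff] at hx
        simp only [hχ1 x hx, mul_one, le_refl]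
      · rw [indicator_of_notMem hx]
        exact mul_nonneg (hF0 x) (hχ01 x).1
    refine h1.trans ?_
    have hlW : Continuous (lap W) := continuous_lap hWc
    have hlv : Continuous (lap v) := continuous_lap hv
    have hlχ : Continuous (lap χ) := continuous_lap hχ
    have hlχc : HasCompactSupport (lap χ) := hasCompactSupport_lap hχ hχc
    have i1 : Integrable (fun x => lap W x * χ x) :=
      (hlW.mul hχ.continuous).integrable_of_hasCompactSupport hχc.mul_left
    have i2 : Integrable (fun x => lap v x * χ x) :=
      (hlv.mul hχ.continuous).integrable_of_hasCompactSupport hχc.mul_left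
    have i4 : Integrable (fun x => |lap χ x|) :=
      (hlχ.integrable_of_hasCompactSupport hlχc).abs
    have e1 : ∀ x, F x * χ x = 1 / 4 * (lap W x * χ x) - e / 4 * (lap v x * χ x) := by
      intro x
      rw [hFe x]
      ring
    have e2 : ∫ x, F x * χ x = 1 / 4 * (∫ x, lap W x * χ x) - e / 4 * (∫ x, lap v x * χ x) := by
      simp only [e1]
      rw [integral_sub (i1.const_mul _) (i2.const_mul _), integral_const_mul, integral_const_mul]
    have b1 : |∫ x, lap W x * χ x| ≤ B * C := by
      rw [← green' hWc hχ hχc]
      calc |∫ x, W x * lap χ x| ≤ ∫ x, |W x * lap χ x| := abs_integral_le_integral_abs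
        _ ≤ ∫ x, B * |lap χ x| := by
            refine integral_mono_of_nonneg (Eventually.of_forall fun x => abs_nonneg _)
              (i4.const_mul B) (Eventually.of_forall fun x => ?_)
            simp only [abs_mul]
            exact mul_le_mul_of_nonneg_right (hWb x) (abs_nonneg _)
        _ = B * ∫ x, |lap χ x| := integral_const_mul _ _
        _ ≤ B * C := mul_le_mul_of_nonneg_left hχC hB0
    have b2 : |∫ x, lap v x * χ x| ≤ ∫ x, |lap v x| := by
      calc |∫ x, lap v x * χ x| ≤ ∫ x, |lap v x * χ x| := abs_integral_le_integral_abs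
        _ ≤ ∫ x, |lap v x| := by
            refine integral_mono_of_nonneg (Eventually.of_forall fun x => abs_nonneg _)
              hvi.abs (Eventually.of_forall fun x => ?_)
            simp only [abs_mul]
            calc |lap v x| * |χ x| ≤ |lap v x| * 1 := by
                  refine mul_le_mul_of_nonneg_left ?_ (abs_nonneg _)
                  rw [abs_of_nonneg (hχ01 x).1]
                  exact (hχ01 x).2
              _ = _ := mul_one _
    rw [e2, hI]
    have b3 : -(e / 4 * (∫ x, lap v x * χ x)) ≤ |e| / 4 * ∫ x, |lap v x| := by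
      calc -(e / 4 * (∫ x, lap v x * χ x)) ≤ |e / 4 * (∫ x, lap v x * χ x)| := neg_le_abs _
        _ = |e| / 4 * |∫ x, lap v x * χ x| := by
            rw [abs_mul, abs_div]; norm_num
        _ ≤ _ := mul_le_mul_of_nonneg_left b2 (by positivity)
    have := (abs_le.1 b1).2
    linarith
  have hcov := aecover_closedBall (μ := (volume : Measure (Eu 2))) (x := (0 : Eu 2))
    (tendsto_id (α := ℝ) (x := atTop))
  refine hcov.integrable_of_integral_bounded_of_nonneg_ae I (fun R => ?_)
    (Eventually.of_forall hF0) ?_
  · exact (hF.continuousOn.integrableOn_compact (isCompact_closedBall _ _))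
  · filter_upwards [eventually_gt_atTop (0 : ℝ)] with R hR
    exact key R hR

end Pool.Agent.K3h35.GS
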