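import Pool.Agent.K3h35.GS.Stm
import Pool.Agent.H314.Dir.Lap

set_option autoImplicit false
open MeasureTheory Filter Topology Set Metric

namespace Pool.Agent.K3h35.GS

open Pool.Agent.H314.Dir Pool.Agent.H314.CS

theorem reg_step {d : ℕ} {V f : Eu d → ℝ} {C : ℝ} (hBv : BM V C) (hBf : BM f C) (n : ℕ)
    (hvn : ContDiff ℝ ((n : ℕ∞) : WithTop ℕ∞) V) (hfn : ContDiff ℝ ((n : ℕ∞) : WithTop ℕ∞) f) :
    ContDiff ℝ ((n + 1 : ℕ) : WithTop ℕ∞) (fun x => J rho V 1 x + Npot 0 1 f x) := by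
  have hw : Continuous (fun s : ℝ => 1 - 0 * s ^ 2) := by fun_prop
  have hr1 : ContDiff ℝ 1 (rho : Eu d → ℝ) := contDiff_rho.of_le (by norm_num)
  have hs1 : ContDiff ℝ 1 (sig : Eu d → ℝ) := contDiff_sig.of_le (by norm_num)
  have hder : ∀ x, HasFDerivAt (fun x => J rho V 1 x + Npot 0 1 f x)
      (-((1 : ℝ)⁻¹ • J (fderiv ℝ (rho : Eu d → ℝ)) V 1 x) +
      -(Pw (fderiv ℝ (sig : Eu d → ℝ)) (fun s => 1 - 0 * s ^ 2) 1 f x)) x := by
    intro x
    have h1 := hasFDerivAt_J hr1 hasCompactSupport_rho hBv one_pos x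
    have h2 := hasFDerivAt_Pw hs1 hasCompactSupport_sig hBf hw one_pos x
    exact h1.add h2
  obtain ⟨R1, hR1, hκ1⟩ := aux833_radius ((hasCompactSupport_rho (d := d)).fderiv (𝕜 := ℝ))
  obtain ⟨R2, hR2, hκ2⟩ := aux833_radius ((hasCompactSupport_sig (d := d)).fderiv (𝕜 := ℝ))
  have hrc : Continuous (fderiv ℝ (rho : Eu d → ℝ)) := hr1.continuous_fderiv one_ne_zero
  have hsc : Continuous (fderiv ℝ (sig : Eu d → ℝ)) := hs1.continuous_fderiv one_ne_zero
  have e : ((n + 1 : ℕ) : WithTop ℕ∞) = (n : WithTop ℕ∞) + 1 := by push_cast; rfl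
  rw [e, contDiff_succ_iff_fderiv]
  refine ⟨fun x => (hder x).differentiableAt, fun h => absurd h (by simp), ?_⟩
  have h1 : fderiv ℝ (fun x => J rho V 1 x + Npot 0 1 f x) =
      fun x => (-(J (fderiv ℝ (rho : Eu d → ℝ)) V 1 x) +
    -(Pw (fderiv ℝ (sig : Eu d → ℝ)) (fun s => 1 - 0 * s ^ 2) 1 f x)) := by
    funext x
    rw [(hder x).fderiv, inv_one, one_smul]
  rw [h1]
  have hJ := (aux833_J hrc hR1 hκ1 hvn).comp
    ((contDiff_const (c := (1 : ℝ))).prodMk (contDiff_id (𝕜 := ℝ) (E := Eu d)))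
  have hP := aux833_Pw hsc hR2 hκ2 hw one_pos hfn
  exact hJ.neg.add hP.neg

theorem t_S : St_S := by
  intro b hb v hv heq
  rw [contDiff_infty]
  intro n
  induction n with
  | zero => exact hv.of_le (by simp)
  | succ n ih =>
    rw [contDiff_iff_contDiffAt]
    intro x0
    let χ : ContDiffBump x0 := ⟨2, 3, by norm_num, by norm_num⟩
    have hχ1 : ∀ x, x ∈ closedBall x0 2 → χ x = 1 := fun x hx => χ.one_of_mem_closedBall hx
    set V : Eu 2 → ℝ := fun x => χ x * v x with hV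
    set f : Eu 2 → ℝ := fun x => - (χ x * b x (v x)) with hf
    have hχc : HasCompactSupport (χ : Eu 2 → ℝ) := χ.hasCompactSupport
    have hbn : ContDiff ℝ ((n : ℕ∞) : WithTop ℕ∞) (fun p : Eu 2 × ℝ => b p.1 p.2) :=
      contDiff_infty.1 hb n
    have hVn : ContDiff ℝ ((n : ℕ∞) : WithTop ℕ∞) V := χ.contDiff.mul ih
    have hV2 : ContDiff ℝ 2 V := χ.contDiff.mul hv
    have hfn : ContDiff ℝ ((n : ℕ∞) : WithTop ℕ∞) f :=
      (χ.contDiff.mul (hbn.comp (contDiff_id.prodMk ih))).neg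
    have hVc : HasCompactSupport V := hχc.mul_right
    have hfc : HasCompactSupport f := by
      have : HasCompactSupport (fun x => χ x * b x (v x)) := hχc.mul_right
      exact this.neg
    obtain ⟨C1, hC1⟩ := hVc.exists_bound_of_continuous hV2.continuous
    obtain ⟨C2, hC2⟩ := hfc.exists_bound_of_continuous hfn.continuous
    have hBV : BM V (max C1 C2) := ⟨hV2.continuous.measurable, fun x =>
      ((Real.norm_eq_abs _).symm.le.trans (hC1 x)).trans (le_max_left _ _)⟩
    have hBf : BM f (max C1 C2) := ⟨hfn.continuous.measurable, fun x =>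
      ((Real.norm_eq_abs _).symm.le.trans (hC2 x)).trans (le_max_right _ _)⟩
    have hU := reg_step hBV hBf n hVn hfn
    refine (hU.contDiffAt (x := x0)).congr_of_eventuallyEq ?_
    filter_upwards [ball_mem_nhds x0 (one_half_pos (α := ℝ))] with x hx
    have hx' : dist x x0 < 1 / 2 := hx
    have hsub : ∀ y ∈ closedBall x 1, y ∈ ball x0 2 := by
      intro y hy
      rw [mem_closedBall] at hy
      rw [mem_ball]
      calc dist y x0 ≤ dist y x + dist x x0 := dist_triangle _ _ _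
        _ < 2 := by linarith
    have h1 : v x = V x := by
      simp only [hV]
      rw [hχ1 x (ball_subset_closedBall (hsub x (mem_closedBall_self zero_le_one))), one_mul]
    rw [h1, represent hV2 hBV.bd one_pos x]
    congr 1
    refine Pw_congr (fun y hy => sig_eq_zero hy) zero_le_one fun y hy => ?_
    have hy2 := hsub y hy
    have h2 : V =ᶠ[𝓝 y] v := by
      filter_upwards [isOpen_ball.mem_nhds hy2] with z hz
      simp only [hV]
      rw [hχ1 z (ball_subset_closedBall hz), one_mul]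
    rw [lap_congr h2, heq]
    simp only [hf]
    rw [hχ1 y (ball_subset_closedBall hy2), one_mul]

end Pool.Agent.K3h35.GS
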