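import Pool.Agent.K3h35.GS.BrC
import Pool.Agent.H172R3.GS4

set_option autoImplicit false
open MeasureTheory Filter Topology Set Metric

namespace Pool.Agent.K3h35.GS

open Pool.Agent.H314.Dir Pool.Agent.H172R3.GS

/-- the complex coordinate -/
noncomputable def cx (x : Eu 2) : ℂ := ⟨x 0, x 1⟩

theorem cx_eq (x : Eu 2) : cx x = Complex.orthonormalBasisOneI.repr.symm x := by
  apply Complex.orthonormalBasisOneI.repr.injective
  rw [LinearIsometryEquiv.apply_symm_apply]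
  ext i
  rw [Complex.orthonormalBasisOneI_repr_apply]
  fin_cases i <;> simp [cx]

theorem norm_cx (x : Eu 2) : ‖cx x‖ = ‖x‖ := by
  rw [cx_eq, LinearIsometryEquiv.norm_map]

/-- rotation by the angle `α` -/
noncomputable def rt (α : ℝ) : Eu 2 ≃ₗᵢ[ℝ] Eu 2 :=
  (Complex.orthonormalBasisOneI.repr.symm.trans (rotation (Circle.exp α))).trans
    Complex.orthonormalBasisOneI.repr

theorem cx_rt (α : ℝ) (x : Eu 2) : cx (rt α x) = Complex.exp (α * Complex.I) * cx x := by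
  rw [cx_eq, cx_eq, rt]
  simp [rotation_apply]

theorem cx_injective : Function.Injective cx := by
  intro x y h
  rw [cx_eq, cx_eq] at h
  exact Complex.orthonormalBasisOneI.repr.symm.injective h

theorem rt_rt (α β : ℝ) (x : Eu 2) : rt α (rt β x) = rt (α + β) x := by
  apply cx_injective
  rw [cx_rt, cx_rt, cx_rt, ← mul_assoc, ← Complex.exp_add]
  congr 2
  push_cast
  ring

theorem rt_zero (x : Eu 2) : rt 0 x = x := by
  apply cx_injective
  rw [cx_rt]; simp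

theorem rt_two_pi (x : Eu 2) : rt (2 * Real.pi) x = x := by
  apply cx_injective
  rw [cx_rt]
  push_cast
  rw [Complex.exp_two_pi_mul_I, one_mul]

theorem norm_rt (α : ℝ) (x : Eu 2) : ‖rt α x‖ = ‖x‖ := LinearIsometryEquiv.norm_map _ _

theorem lap_rt {u : Eu 2 → ℝ} (hu : ContDiff ℝ 2 u) (α : ℝ) (x : Eu 2) :
    lap (fun y => u (rt α y)) x = lap u (rt α x) := by
  rw [← lap_eq_laplacian, ← lap_eq_laplacian,
    InnerProductSpace.laplacian_eq_iteratedFDeriv_orthonormalBasis _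
      (EuclideanSpace.basisFun (Fin 2) ℝ),
    InnerProductSpace.laplacian_eq_iteratedFDeriv_orthonormalBasis _
      ((EuclideanSpace.basisFun (Fin 2) ℝ).map (rt α))]
  refine Finset.sum_congr rfl fun i _ => ?_
  have h := ((rt α).toContinuousLinearEquiv : Eu 2 →L[ℝ] Eu 2).iteratedFDeriv_comp_right
    (f := u) (n := 2) hu x (i := 2) (by norm_num)
  have e : (fun y => u (rt α y)) = u ∘ ((rt α).toContinuousLinearEquiv : Eu 2 →L[ℝ] Eu 2) := rfl
  rw [e, h, ContinuousMultilinearMap.compContinuousLinearMap_apply]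
  congr 1
  funext k
  fin_cases k <;> simp

/-- `pol` in the complex coordinate -/
theorem cx_pol (t h : ℝ) : cx (pol t h) = Real.exp t * Complex.exp (h * Complex.I) := by
  apply Complex.ext
  · rw [Complex.exp_mul_I]
    simp [cx, pol, ← Complex.ofReal_cos, ← Complex.ofReal_sin, ← Complex.ofReal_exp]
  · rw [Complex.exp_mul_I]
    simp [cx, pol, ← Complex.ofReal_cos, ← Complex.ofReal_sin, ← Complex.ofReal_exp]

theorem norm_pol (t h : ℝ) : ‖pol t h‖ = Real.exp t := by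
  rw [← norm_cx, cx_pol, norm_mul, Complex.norm_exp_ofReal_mul_I, mul_one, Complex.norm_real,
    Real.norm_eq_abs, abs_of_pos (Real.exp_pos _)]

theorem pol_add (t h α : ℝ) : pol t (h + α) = rt α (pol t h) := by
  apply cx_injective
  rw [cx_rt, cx_pol, cx_pol]
  push_cast
  rw [add_mul, Complex.exp_add]
  ring

theorem exists_pol {x : Eu 2} (hx : x ≠ 0) : ∃ t h, x = pol t h := by
  refine ⟨Real.log ‖x‖, (cx x).arg, ?_⟩
  apply cx_injective
  rw [cx_pol, Real.exp_log (norm_pos_iff.2 hx), ← norm_cx, Complex.norm_mul_exp_arg_mul_I]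

/-- the weight `|1 - δ x^N|²` -/
noncomputable def RR (N : ℕ) (δ : ℝ) (x : Eu 2) : ℝ := Complex.normSq (1 - δ * cx x ^ N)

theorem contDiff_cx {n : WithTop ℕ∞} : ContDiff ℝ n cx := by
  have : cx = fun x => Complex.orthonormalBasisOneI.repr.symm x := funext cx_eq
  rw [this]
  exact (Complex.orthonormalBasisOneI.repr.symm.toContinuousLinearEquiv :
    Eu 2 →L[ℝ] ℂ).contDiff

theorem contDiff_RR {n : WithTop ℕ∞} (N : ℕ) (δ : ℝ) : ContDiff ℝ n (RR N δ) := by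
  have h1 : ContDiff ℝ n (fun x : Eu 2 => (1 : ℂ) - δ * cx x ^ N) :=
    contDiff_const.sub (contDiff_const.mul (contDiff_cx.pow N))
  have hre : ContDiff ℝ n (fun x : Eu 2 => ((1 : ℂ) - δ * cx x ^ N).re) :=
    Complex.reCLM.contDiff.comp h1
  have him : ContDiff ℝ n (fun x : Eu 2 => ((1 : ℂ) - δ * cx x ^ N).im) :=
    Complex.imCLM.contDiff.comp h1
  have e : RR N δ = fun x : Eu 2 => ((1 : ℂ) - δ * cx x ^ N).re * ((1 : ℂ) - δ * cx x ^ N).re +
      ((1 : ℂ) - δ * cx x ^ N).im * ((1 : ℂ) - δ * cx x ^ N).im := by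
    funext x
    rw [RR, Complex.normSq_apply]
  rw [e]
  exact (hre.mul hre).add (him.mul him)

theorem RR_nonneg (N : ℕ) (δ : ℝ) (x : Eu 2) : 0 ≤ RR N δ x := Complex.normSq_nonneg _

theorem RR_rt {N : ℕ} (hN : N ≠ 0) (δ : ℝ) (x : Eu 2) :
    RR N δ (rt (2 * Real.pi / N) x) = RR N δ x := by
  unfold RR
  rw [cx_rt, mul_pow, ← Complex.exp_nat_mul]
  have : (N : ℂ) * (((2 * Real.pi / N : ℝ) : ℂ) * Complex.I) = 2 * Real.pi * Complex.I := by
    push_cast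
    have : (N : ℂ) ≠ 0 := by exact_mod_cast hN
    field_simp
  rw [this, Complex.exp_two_pi_mul_I, one_mul]

theorem pow_le_y (N : ℕ) (x : Eu 2) : ‖x‖ ^ N ≤ (1 + ‖x‖ ^ 2) ^ N ∧
    ‖x‖ ^ (2 * N) ≤ (1 + ‖x‖ ^ 2) ^ N := by
  have h0 := norm_nonneg x
  constructor
  · refine pow_le_pow_left₀ h0 ?_ N
    nlinarith [sq_nonneg (‖x‖ - 1)]
  · rw [pow_mul]
    exact pow_le_pow_left₀ (by positivity) (by linarith) N

theorem RR_sub (N : ℕ) {δ : ℝ} (hδ : 0 ≤ δ) (hδ1 : δ ≤ 1) (x : Eu 2) :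
    |RR N δ x - 1| ≤ 3 * δ * (1 + ‖x‖ ^ 2) ^ N := by
  have e : RR N δ x - 1 = -(2 * δ * (cx x ^ N).re) + δ ^ 2 * ‖x‖ ^ (2 * N) := by
    have h2 : Complex.normSq (cx x ^ N) = ‖x‖ ^ (2 * N) := by
      rw [Complex.normSq_eq_norm_sq, norm_pow, norm_cx]; ring
    rw [← h2, RR, Complex.normSq_apply, Complex.normSq_apply]
    simp only [Complex.sub_re, Complex.one_re, Complex.sub_im, Complex.one_im,
      Complex.re_ofReal_mul, Complex.im_ofReal_mul]
    ring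
  rw [e]
  have h1 : |(cx x ^ N).re| ≤ ‖x‖ ^ N := by
    refine (Complex.abs_re_le_norm _).trans ?_
    rw [norm_pow, norm_cx]
  obtain ⟨h3, h4⟩ := pow_le_y N x
  calc |-(2 * δ * (cx x ^ N).re) + δ ^ 2 * ‖x‖ ^ (2 * N)|
      ≤ |-(2 * δ * (cx x ^ N).re)| + |δ ^ 2 * ‖x‖ ^ (2 * N)| := abs_add_le _ _
    _ = 2 * δ * |(cx x ^ N).re| + δ ^ 2 * ‖x‖ ^ (2 * N) := by
        rw [abs_neg, abs_mul, abs_of_nonneg (by positivity : 0 ≤ 2 * δ),
          abs_of_nonneg (by positivity : 0 ≤ δ ^ 2 * ‖x‖ ^ (2 * N))]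
    _ ≤ 2 * δ * (1 + ‖x‖ ^ 2) ^ N + δ * (1 + ‖x‖ ^ 2) ^ N := by
        refine add_le_add (mul_le_mul_of_nonneg_left (h1.trans h3) (by positivity)) ?_
        refine mul_le_mul ?_ h4 (by positivity) hδ
        nlinarith
    _ = _ := by ring

theorem RR_le (N : ℕ) {δ : ℝ} (hδ : 0 ≤ δ) (hδ1 : δ ≤ 1) (x : Eu 2) :
    RR N δ x ≤ 4 * (1 + ‖x‖ ^ 2) ^ N := by
  have h1 := (abs_le.1 (RR_sub N hδ hδ1 x)).2
  have h2 : (1 : ℝ) ≤ (1 + ‖x‖ ^ 2) ^ N := one_le_pow₀ (by nlinarith [sq_nonneg ‖x‖])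
  nlinarith

end Pool.Agent.K3h35.GS
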