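import Pool.Agent.K3h35.GS.Lin

set_option autoImplicit false
open MeasureTheory Filter Topology Set Metric

namespace Pool.Agent.K3h35.GS

open Pool.Agent.H314.Dir Pool.Agent.H172R3.GS

theorem abs_kd_le {a v : ℝ} (ha : 0 < a) (hv : v ≤ 0) : |kd a 1 v| ≤ (1 + a) * Real.exp (a * v) := by
  unfold kd
  have he0 := Real.exp_pos v
  have he1 : Real.exp v ≤ 1 := Real.exp_le_one_iff.2 hv
  rw [abs_mul, abs_of_pos (Real.exp_pos _), mul_comm]
  refine mul_le_mul ?_ (Real.exp_le_exp.2 ?_) (Real.exp_pos _).le (by linarith)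
  · rw [abs_le]
    have h1 : (1 - 1 * Real.exp v) ^ 2 ≤ 1 := by nlinarith
    constructor <;> nlinarith [sq_nonneg (1 - 1 * Real.exp v)]
  · nlinarith

theorem abs_kk_le {a v : ℝ} (ha : 0 < a) (hv : v ≤ 0) : |kk a 1 v| ≤ Real.exp (a * v) := by
  unfold kk
  have he0 := Real.exp_pos v
  have he1 : Real.exp v ≤ 1 := Real.exp_le_one_iff.2 hv
  rw [abs_mul, abs_of_pos (Real.exp_pos _)]
  calc Real.exp (a * (v - 1 * Real.exp v)) * |1 * Real.exp v - 1|
      ≤ Real.exp (a * v) * 1 := by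
        refine mul_le_mul (Real.exp_le_exp.2 (by nlinarith)) ?_ (abs_nonneg _) (Real.exp_pos _).le
        rw [abs_le]; constructor <;> linarith
    _ = _ := mul_one _

/-- an invariant function has zero derivative at the origin -/
theorem fderiv_zero_of_rt {N : ℕ} (hN : 2 ≤ N) {φ : Eu 2 → ℝ} (hφ : ContDiff ℝ 2 φ)
    (hrot : ∀ x, φ (rt (2 * Real.pi / N) x) = φ x) : fderiv ℝ φ 0 = 0 := by
  set α : ℝ := 2 * Real.pi / N with hα
  have hd : Differentiable ℝ φ := hφ.differentiable (by norm_num)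
  have hc : ∀ v, fderiv ℝ φ 0 (rt α v) = fderiv ℝ φ 0 v := by
    intro v
    have h1 : HasFDerivAt (fun x => φ (rt α x))
        ((fderiv ℝ φ (rt α 0)).comp ((rt α).toContinuousLinearEquiv : Eu 2 →L[ℝ] Eu 2)) 0 :=
      (hd (rt α 0)).hasFDerivAt.comp (0 : Eu 2)
        ((rt α).toContinuousLinearEquiv : Eu 2 →L[ℝ] Eu 2).hasFDerivAt
    have h2 : (fun x => φ (rt α x)) = φ := funext hrot
    rw [h2] at h1
    have h3 := h1.fderiv
    have h4 : rt α 0 = 0 := map_zero _
    rw [h4] at h3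
    have h5 := congrArg (fun L : Eu 2 →L[ℝ] ℝ => L v) h3
    simpa using h5.symm
  have hne : (1 : ℂ) - Complex.exp (α * Complex.I) ≠ 0 := by
    intro h
    have h1 : Complex.exp (α * Complex.I) = 1 := (sub_eq_zero.1 h).symm
    rw [Complex.exp_eq_one_iff] at h1
    obtain ⟨n, hn⟩ := h1
    have h2 := congrArg Complex.im hn
    simp at h2
    have hpi := Real.pi_pos
    have hNp : (2 : ℝ) ≤ N := by exact_mod_cast hN
    have h3 : 0 < α := by rw [hα]; positivity
    have h4 : α < 2 * Real.pi := by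
      rw [hα, div_lt_iff₀ (by linarith)]; nlinarith
    rw [h2] at h3 h4
    have h5 : (0 : ℝ) < n := by
      by_contra h6
      push Not at h6
      nlinarith
    have h6 : (n : ℝ) < 1 := by
      by_contra h7
      push Not at h7
      nlinarith
    have h8 : (0 : ℤ) < n := by exact_mod_cast h5
    have h9 : n < (1 : ℤ) := by exact_mod_cast h6
    omega
  ext v
  rw [_root_.zero_apply]
  set u : Eu 2 := Complex.orthonormalBasisOneI.repr (cx v / (1 - Complex.exp (α * Complex.I)))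
    with hu
  have hcu : cx u = cx v / (1 - Complex.exp (α * Complex.I)) := by
    rw [cx_eq, hu, LinearIsometryEquiv.symm_apply_apply]
  have hv : v = u - rt α u := by
    apply cx_injective
    have h1 : cx (u - rt α u) = cx u - cx (rt α u) := by
      rw [cx_eq, cx_eq, cx_eq, map_sub]
    rw [h1, cx_rt, hcu]
    field_simp
  rw [hv, map_sub, hc, sub_self]

theorem continuous_pol : Continuous (fun p : ℝ × ℝ => pol p.1 p.2) := by
  have h : (fun p : ℝ × ℝ => pol p.1 p.2) = fun p : ℝ × ℝ =>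
      Complex.orthonormalBasisOneI.repr (Real.exp p.1 * Complex.exp (p.2 * Complex.I)) := by
    funext p
    apply cx_injective
    rw [cx_pol, cx_eq, LinearIsometryEquiv.symm_apply_apply]
  rw [h]
  refine Complex.orthonormalBasisOneI.repr.continuous.comp ?_
  fun_prop

/-- growth of an invariant function with logarithmic growth along the cylinder -/
theorem growth {N : ℕ} (hN : 2 ≤ N) {φ : Eu 2 → ℝ} (hφ : ContDiff ℝ 2 φ)
    (hrot : ∀ x, φ (rt (2 * Real.pi / N) x) = φ x) (h0 : φ 0 = 0) {C : ℝ}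
    (hbd : ∀ x, |φ x| ≤ C * (1 + Real.log (1 + ‖x‖ ^ 2))) :
    ∀ ε : ℝ, 0 < ε → ∃ T : ℝ, ∀ t h, T ≤ |t| → |φ (pol t h)| ≤ ε * Real.exp t := by
  intro ε hε
  have hC : 0 ≤ C := by
    have := (abs_nonneg _).trans (hbd 0)
    simpa using this
  -- near the origin
  have hd : HasFDerivAt φ (0 : Eu 2 →L[ℝ] ℝ) 0 := by
    have h1 := (hφ.differentiable (by norm_num) (0 : Eu 2)).hasFDerivAt
    rwa [fderiv_zero_of_rt hN hφ hrot] at h1
  rw [hasFDerivAt_iff_isLittleO_nhds_zero] at hd
  have h1 := hd.def hε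
  rw [Metric.eventually_nhds_iff] at h1
  obtain ⟨r, hr, hr1⟩ := h1
  -- at infinity
  have h2 : Tendsto (fun t : ℝ => C * (2 * (Real.exp (-t)) + 2 * (t ^ 1 * Real.exp (-t)))) atTop
      (𝓝 0) := by
    have e1 : Tendsto (fun t : ℝ => Real.exp (-t)) atTop (𝓝 0) :=
      Real.tendsto_exp_neg_atTop_nhds_zero
    have e2 := Real.tendsto_pow_mul_exp_neg_atTop_nhds_zero 1
    have := ((e1.const_mul 2).add (e2.const_mul 2)).const_mul C
    simpa using this
  obtain ⟨T1, hT1⟩ := eventually_atTop.1 (h2.eventually_lt_const hε)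
  refine ⟨max (max T1 0) (1 - Real.log r), fun t h ht => ?_⟩
  rcases le_total 0 t with htpos | htneg
  · rw [abs_of_nonneg htpos] at ht
    have ht1 : T1 ≤ t := (le_max_left _ _).trans ((le_max_left _ _).trans ht)
    have h3 := hT1 t ht1
    have h4 : Real.log (1 + ‖pol t h‖ ^ 2) ≤ 1 + 2 * t := by
      rw [norm_pol]
      have : 1 + Real.exp t ^ 2 ≤ Real.exp (1 + 2 * t) := by
        rw [Real.exp_add, two_mul, Real.exp_add]
        have e1 : (2 : ℝ) ≤ Real.exp 1 := by
          have := Real.add_one_le_exp (1 : ℝ); linarith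
        have e2 : 1 ≤ Real.exp t := Real.one_le_exp htpos
        nlinarith
      calc Real.log (1 + Real.exp t ^ 2) ≤ Real.log (Real.exp (1 + 2 * t)) :=
            Real.log_le_log (by positivity) this
        _ = _ := Real.log_exp _
    have h5 : |φ (pol t h)| ≤ C * (2 + 2 * t) :=
      (hbd _).trans (mul_le_mul_of_nonneg_left (by linarith) hC)
    refine h5.trans ?_
    have h6 : Real.exp (-t) * Real.exp t = 1 := by rw [← Real.exp_add]; simp
    have h7 : C * (2 + 2 * t) = C * (2 * (Real.exp (-t)) + 2 * (t ^ 1 * Real.exp (-t))) *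
        Real.exp t := by
      calc C * (2 + 2 * t) = C * (2 + 2 * t) * (Real.exp (-t) * Real.exp t) := by rw [h6, mul_one]
        _ = _ := by ring
    rw [h7]
    exact mul_le_mul_of_nonneg_right h3.le (Real.exp_pos _).le
  · rw [abs_of_nonpos htneg] at ht
    have ht1 : 1 - Real.log r ≤ -t := (le_max_right _ _).trans ht
    have h3 : ‖pol t h‖ < r := by
      rw [norm_pol, ← Real.exp_log hr]
      exact Real.exp_lt_exp.2 (by linarith)
    have h4 := hr1 (y := pol t h) (by rw [dist_zero_right]; exact h3)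
    simp only [zero_add, h0, sub_zero, _root_.zero_apply, norm_pol] at h4
    rw [Real.norm_eq_abs] at h4
    exact h4

theorem kernel_zero (hK1 : St_K1) (hK2 : St_K2) (hK3 : St_K3) (hK4 : St_K4) {a Q : ℝ} {w : ℝ → ℝ}
    (ha : 0 < a) (haQ : 1 < a * Q) (hw : Base a Q w) {N : ℕ} (hN : 2 ≤ N) {φ : Eu 2 → ℝ}
    (hφ : ContDiff ℝ 2 φ) (heq : ∀ x, lap φ x = kd a 1 (w (‖x‖ ^ 2)) * φ x)
    (hrot : ∀ x, φ (rt (2 * Real.pi / N) x) = φ x) (h0 : φ 0 = 0) {C : ℝ}
    (hbd : ∀ x, |φ x| ≤ C * (1 + Real.log (1 + ‖x‖ ^ 2))) : ∀ x, φ x = 0 := by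
  obtain ⟨P, P1, P2, c, hc, hP, hP1, hPc, hPs⟩ := hK2 a Q w ha haQ hw
  obtain ⟨ut, utt, uh, uhh, h1, h2, h3, h4, h5⟩ := hK1 φ hφ
  set V : ℝ → ℝ := fun t => Real.exp (2 * t) * kd a 1 (w (Real.exp (2 * t))) with hV
  have hn2 : ∀ t h, ‖pol t h‖ ^ 2 = Real.exp (2 * t) := by
    intro t h
    rw [norm_pol, ← Real.exp_nat_mul]
    norm_num
  have hcyl : ∀ t h, utt t h + uhh t h = V t * φ (pol t h) := by
    intro t h
    rw [h5, heq, hn2]
    simp only [hV]
    ring
  have hgr := growth hN hφ hrot h0 hbd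
  have hconst := hK3 N hN V P P1 P2 c hc hP hP1 hPc hPs (fun t h => φ (pol t h)) ut utt uh uhh
    (hφ.continuous.comp continuous_pol) h1 h2 h3 h4 hcyl
    (fun t h => by rw [pol_add, hrot]) hgr
  have huh : ∀ t h, uh t h = 0 := by
    intro t h
    have e : (fun ϑ => φ (pol t ϑ)) = fun _ => φ (pol t 0) := by
      funext ϑ; exact hconst t ϑ 0
    have := h3 t h
    rw [e] at this
    exact this.unique (hasDerivAt_const _ _)
  have huhh : ∀ t h, uhh t h = 0 := by
    intro t h
    have e : (fun ϑ => uh t ϑ) = fun _ => 0 := by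
      funext ϑ; exact huh t ϑ
    have := h4 t h
    rw [e] at this
    exact this.unique (hasDerivAt_const _ _)
  have hVb : ∀ t, |V t| ≤ (1 + a) * Real.exp (2 * t) := by
    intro t
    have hwn := hw.neg (Real.exp (2 * t)) (Real.exp_pos _).le
    simp only [hV]
    rw [abs_mul, abs_of_pos (Real.exp_pos _), mul_comm]
    refine mul_le_mul_of_nonneg_right ((abs_kd_le ha hwn.le).trans ?_) (Real.exp_pos _).le
    have : Real.exp (a * w (Real.exp (2 * t))) ≤ 1 := by
      rw [Real.exp_le_one_iff]; nlinarith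
    calc _ ≤ (1 + a) * 1 := mul_le_mul_of_nonneg_left this (by linarith)
      _ = _ := mul_one _
  have hlim : Tendsto (fun t => φ (pol t 0)) atBot (𝓝 0) := by
    have e1 : Tendsto (fun t => pol t 0) atBot (𝓝 0) := by
      rw [tendsto_zero_iff_norm_tendsto_zero]
      simp only [norm_pol]
      exact Real.tendsto_exp_atBot
    have e2 := hφ.continuous.tendsto 0
    rw [h0] at e2
    exact e2.comp e1
  have hf := hK4 V (fun t => φ (pol t 0)) (fun t => ut t 0) (1 + a) hVb (fun t => h1 t 0)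
    (fun t => by
      have := h2 t 0
      have e := hcyl t 0
      rw [huhh, add_zero] at e
      rw [← e]
      exact this) hlim
  intro x
  by_cases hx : x = 0
  · rw [hx, h0]
  · obtain ⟨t, h, rfl⟩ := exists_pol hx
    rw [hconst t h 0]
    exact hf t

end Pool.Agent.K3h35.GS
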