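import Pool.Agent.K3h35.GS.Kern
import Pool.Agent.K3h35.GS.BrF
import Pool.Agent.K3h35.GS.BrS

set_option autoImplicit false
open MeasureTheory Filter Topology Set Metric

namespace Pool.Agent.K3h35.GS

open Pool.Agent.H314.Dir Pool.Agent.H172R3.GS

theorem lipNear_comp {b : Eu 2 → ℝ → ℝ} (hb : ContDiff ℝ 1 (fun p : Eu 2 × ℝ => b p.1 p.2))
    {φ : Eu 2 → ℝ} {K : ℝ} (hφ : ∀ x y, |φ x - φ y| ≤ K * ‖x - y‖) {C : ℝ}
    (hC : ∀ x, |b x (φ x)| ≤ C) (x0 : Eu 2) : LipNear (fun x => b x (φ x)) x0 := by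
  have h1 : LipschitzWith (Real.toNNReal K) φ := by
    refine LipschitzWith.of_dist_le_mul fun x y => ?_
    rw [Real.dist_eq, dist_eq_norm]
    refine (hφ x y).trans (mul_le_mul_of_nonneg_right ?_ (norm_nonneg _))
    exact Real.le_coe_toNNReal K
  have h2 : LocallyLipschitz (fun x : Eu 2 => (x, φ x)) :=
    LocallyLipschitz.prodMk LocallyLipschitz.id h1.locallyLipschitz
  have h3 := hb.locallyLipschitz.comp h2
  exact lipNear_of_locallyLipschitz hC h3 x0

/-- smoothness of the nonlinearity -/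
theorem contDiff_kk {n : WithTop ℕ∞} {E : Type*} [NormedAddCommGroup E] [NormedSpace ℝ E] (a : ℝ)
    {R v : E → ℝ} (hR : ContDiff ℝ n R) (hv : ContDiff ℝ n v) :
    ContDiff ℝ n (fun x => kk a (R x) (v x)) := by
  unfold kk
  exact ((contDiff_const.mul (hv.sub (hR.mul hv.exp))).exp).mul ((hR.mul hv.exp).sub contDiff_const)

theorem contDiff_kd {n : WithTop ℕ∞} {E : Type*} [NormedAddCommGroup E] [NormedSpace ℝ E] (a : ℝ)
    {R v : E → ℝ} (hR : ContDiff ℝ n R) (hv : ContDiff ℝ n v) :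
    ContDiff ℝ n (fun x => kd a (R x) (v x)) := by
  unfold kd
  exact ((contDiff_const.mul (hv.sub (hR.mul hv.exp))).exp).mul
    ((hR.mul hv.exp).sub (contDiff_const.mul ((contDiff_const.sub (hR.mul hv.exp)).pow 2)))

/-- the radial base solution on the plane -/
noncomputable def v0 (w : ℝ → ℝ) (x : Eu 2) : ℝ := w (‖x‖ ^ 2)

section base

variable {a Q : ℝ} {w : ℝ → ℝ}

theorem contDiff_v0 (hw : Base a Q w) : ContDiff ℝ ((⊤ : ℕ∞) : WithTop ℕ∞) (v0 w) :=
  hw.smooth.comp (contDiff_norm_sq ℝ)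

theorem v0_neg (hw : Base a Q w) (x : Eu 2) : v0 w x < 0 := hw.neg _ (sq_nonneg _)

theorem v0_rt (w : ℝ → ℝ) (α : ℝ) (x : Eu 2) : v0 w (rt α x) = v0 w x := by
  unfold v0; rw [norm_rt]

theorem lap_v0 (hw : Base a Q w) (x : Eu 2) : lap (v0 w) x = kk a 1 (v0 w x) := by
  have h1 : ∀ r, HasDerivAt w (deriv w r) r := fun r =>
    (hw.smooth.differentiable (by norm_num) r).hasDerivAt
  have h2 : ContDiff ℝ ((⊤ : ℕ∞) : WithTop ℕ∞) (deriv w) := by
    have := hw.smooth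
    exact (contDiff_infty_iff_deriv.1 this).2
  have h3 : ∀ r, HasDerivAt (deriv w) (deriv (deriv w) r) r := fun r =>
    (h2.differentiable (by norm_num) r).hasDerivAt
  have hC : ContDiffAt ℝ 2 (fun y : Eu 2 => w (‖y - 0‖ ^ 2)) x := by
    have : ContDiff ℝ 2 (v0 w) := by exact_mod_cast contDiff_infty.1 (contDiff_v0 hw) 2
    have h := this.contDiffAt (x := x)
    have e : v0 w = fun y : Eu 2 => w (‖y - 0‖ ^ 2) := by
      funext y; rw [sub_zero]; rfl
    rwa [e] at h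
  have h4 := lap_radial (0 : Eu 2) x (Eventually.of_forall h1) (h3 (‖x - 0‖ ^ 2)) hC
  have e : v0 w = fun y : Eu 2 => w (‖y - 0‖ ^ 2) := by
    funext y; rw [sub_zero]; rfl
  rw [e, h4]
  simp only [sub_zero]
  have h5 := hw.eq (‖x‖ ^ 2)
  push_cast
  linarith

end base

theorem exp_av_le {a Q C0 y v : ℝ} (ha : 0 < a) (hC0 : 0 < C0) (haQ : 4 ≤ a * Q) (hy : 1 ≤ y)
    (hv : Real.exp v ≤ C0 * y ^ (-Q)) : Real.exp (a * v) ≤ C0 ^ a * (y ^ 4)⁻¹ := by
  have hy0 : 0 < y := by linarith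
  have h1 : Real.exp (a * v) = (Real.exp v) ^ a := by rw [mul_comm, Real.exp_mul]
  rw [h1]
  calc (Real.exp v) ^ a ≤ (C0 * y ^ (-Q)) ^ a :=
        Real.rpow_le_rpow (Real.exp_pos _).le hv ha.le
    _ = C0 ^ a * y ^ (-Q * a) := by
        rw [Real.mul_rpow hC0.le (by positivity), ← Real.rpow_mul hy0.le]
    _ ≤ C0 ^ a * (y ^ 4)⁻¹ := by
        refine mul_le_mul_of_nonneg_left ?_ (by positivity)
        have e : (y ^ 4)⁻¹ = y ^ (-4 : ℝ) := by
          rw [Real.rpow_neg hy0.le]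
          congr 1
          exact_mod_cast (Real.rpow_natCast y 4).symm
        rw [e]
        exact Real.rpow_le_rpow_of_exponent_le hy (by linarith)

theorem tendsto_y : Tendsto (fun x : Eu 2 => 1 + ‖x‖ ^ 2) (cocompact (Eu 2)) atTop := by
  have h1 : Tendsto (fun x : Eu 2 => ‖x‖) (cocompact (Eu 2)) atTop := tendsto_norm_cocompact_atTop
  exact tendsto_atTop_add_const_left _ _ ((tendsto_pow_atTop (by norm_num)).comp h1)

theorem tendsto_yhalf (c : ℝ) :
    Tendsto (fun x : Eu 2 => c * (1 + ‖x‖ ^ 2) ^ (-(1 / 2) : ℝ)) (cocompact (Eu 2)) (𝓝 0) := by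
  have h1 := (tendsto_rpow_neg_atTop (show (0 : ℝ) < 1 / 2 by norm_num)).comp tendsto_y
  have h2 := h1.const_mul c
  rw [mul_zero] at h2
  exact h2

theorem one_add_log_le {y : ℝ} (hy : 1 ≤ y) : 1 + Real.log y ≤ y := by
  have := Real.log_le_sub_one_of_pos (by linarith : 0 < y)
  linarith

end Pool.Agent.K3h35.GS
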