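import Pool.Agent.K3h35.GS.Lem

set_option autoImplicit false
open MeasureTheory Filter Topology Set Metric

namespace Pool.Agent.K3h35.GS

open Pool.Agent.H314.Dir Pool.Agent.H172R3.GS

/-- monotone limits of bounded solutions, the nonlinearity being only locally bounded -/
theorem lim_exists {d : ℕ} (b : ℕ → Eu d → ℝ → ℝ) (b' : Eu d → ℝ → ℝ)
    (hb' : LocallyLipschitz (fun q : Eu d × ℝ => b' q.1 q.2)) (t : ℕ → Eu d → ℝ) (B : ℝ)
    (ht : ∀ m, ContDiff ℝ 2 (t m)) (hB : ∀ m x, |t m x| ≤ B)
    (hmono : ∀ x, Monotone (fun m => t m x)) (heq : ∀ m x, lap (t m) x = b m x (t m x))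
    (hev : ∀ R : ℝ, ∃ m0, ∀ m, m0 ≤ m → ∀ x, ‖x‖ ≤ R → ∀ s, b m x s = b' x s) :
    ∃ T : Eu d → ℝ, ContDiff ℝ 2 T ∧ (∀ x, Tendsto (fun m => t m x) atTop (𝓝 (T x))) ∧
      ∀ x, lap T x = b' x (T x) := by
  have hbdd : ∀ x, BddAbove (range fun m => t m x) := fun x =>
    ⟨B, by rintro _ ⟨m, rfl⟩; exact (le_abs_self _).trans (hB m x)⟩
  set T : Eu d → ℝ := fun x => ⨆ m, t m x with hT
  have hlim : ∀ x, Tendsto (fun m => t m x) atTop (𝓝 (T x)) := fun x =>
    tendsto_atTop_ciSup (hmono x) (hbdd x)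
  have hBM : ∀ m, BM (t m) B := fun m => ⟨(ht m).continuous.measurable, hB m⟩
  have hBT : BM T B := BM.of_tendsto hBM hlim
  have hb'c : Continuous (fun q : Eu d × ℝ => b' q.1 q.2) := hb'.continuous
  have hrc : Continuous (rho : Eu d → ℝ) := contDiff_rho.continuous
  have hsc : Continuous (sig : Eu d → ℝ) := contDiff_sig.continuous
  have hlr : Integrable (lap (rho : Eu d → ℝ)) := by
    have h2 : ContDiff ℝ 1 (fderiv ℝ (rho : Eu d → ℝ)) := contDiff_rho.fderiv_right (by norm_num)
    have hc2 := ((hasCompactSupport_rho (d := d)).fderiv (𝕜 := ℝ)).fderiv (𝕜 := ℝ)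
    have hi := (h2.continuous_fderiv one_ne_zero).integrable_of_hasCompactSupport
      (μ := (volume : Measure (Eu d))) hc2
    have e : lap (rho : Eu d → ℝ) = fun y => lapT d (fderiv ℝ (fderiv ℝ (rho : Eu d → ℝ)) y) :=
      funext fun y => lap_eq_lapT _ y
    rw [e]
    exact (lapT d).integrable_comp hi
  -- the local representation
  have loc : ∀ x0 : Eu d, ∃ f : Eu d → ℝ, ∃ C, BM f C ∧
      (∀ y ∈ closedBall x0 3, f y = - b' y (T y)) ∧
      (∀ x ∈ ball x0 1, T x = J rho T 1 x + Npot 0 1 f x) ∧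
      J (lap (rho : Eu d → ℝ)) T 1 x0 = - J rho f 1 x0 := by
    intro x0
    obtain ⟨m0, hm0⟩ := hev (‖x0‖ + 3)
    have hball : ∀ y ∈ closedBall x0 3, ‖y‖ ≤ ‖x0‖ + 3 := by
      intro y hy
      rw [mem_closedBall, dist_eq_norm] at hy
      calc ‖y‖ = ‖x0 + (y - x0)‖ := by congr 1; abel
        _ ≤ ‖x0‖ + ‖y - x0‖ := norm_add_le _ _
        _ ≤ _ := by linarith
    obtain ⟨C, hC⟩ := ((isCompact_closedBall x0 3).prod (isCompact_Icc (a := -B) (b := B))).exists_bound_of_continuousOn
      hb'c.continuousOn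
    have hC0 : 0 ≤ C := by
      have h1 := hC (x0, T x0) ⟨mem_closedBall_self (by norm_num), abs_le.1 (hBT.bd x0)⟩
      exact (norm_nonneg _).trans h1
    set F : (Eu d → ℝ) → Eu d → ℝ := fun u =>
      (closedBall x0 3).indicator (fun y => - b' y (u y)) with hF
    have hFin : ∀ u y, y ∈ closedBall x0 3 → F u y = - b' y (u y) := fun u y hy =>
      indicator_of_mem hy _
    have hFbm : ∀ u, BM u B → BM (F u) C := by
      intro u hu
      refine ⟨(Measurable.neg ?_).indicator isClosed_closedBall.measurableSet, fun y => ?_⟩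
      · exact hb'c.measurable.comp (measurable_id.prodMk hu.meas)
      · by_cases hy : y ∈ closedBall x0 3
        · rw [hFin u y hy, abs_neg]
          exact hC (y, u y) ⟨hy, abs_le.1 (hu.bd y)⟩
        · simp only [hF]
          rw [indicator_of_notMem hy, abs_zero]
          exact hC0
    have hFlim : ∀ y, Tendsto (fun m => F (t m) y) atTop (𝓝 (F T y)) := by
      intro y
      by_cases hy : y ∈ closedBall x0 3
      · simp only [hFin _ y hy]
        have h1 : Tendsto (fun m => (y, t m y)) atTop (𝓝 (y, T y)) :=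
          tendsto_const_nhds.prodMk_nhds (hlim y)
        exact ((hb'c.tendsto (y, T y)).comp h1).neg
      · have e : ∀ u, F u y = 0 := fun u => indicator_of_notMem hy _
        simp only [e]
        exact tendsto_const_nhds
    have hsub : ∀ x ∈ ball x0 1, ∀ y ∈ closedBall x 1, y ∈ closedBall x0 3 := by
      intro x hx y hy
      rw [mem_ball] at hx
      rw [mem_closedBall] at hy ⊢
      linarith [dist_triangle y x x0]
    have hlapF : ∀ m, m0 ≤ m → ∀ y ∈ closedBall x0 3, - lap (t m) y = F (t m) y := by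
      intro m hm y hy
      rw [hFin _ y hy, heq, hm0 m hm y (hball y hy)]
    refine ⟨F T, C, hFbm T hBT, hFin T, ?_, ?_⟩
    · intro x hx
      have h1 : ∀ᶠ m in atTop, t m x = J rho (t m) 1 x + Npot 0 1 (F (t m)) x := by
        filter_upwards [eventually_ge_atTop m0] with m hm
        rw [represent (ht m) (hB m) one_pos x]
        congr 1
        exact Pw_congr (fun y hy => sig_eq_zero hy) zero_le_one fun y hy =>
          hlapF m hm y (hsub x hx y hy)
      have h2 : Tendsto (fun m => J rho (t m) 1 x + Npot 0 1 (F (t m)) x) atTop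
          (𝓝 (J rho T 1 x + Npot 0 1 (F T) x)) :=
        (J_tendsto integrable_rho hBM hlim 1 x).add
          (Pw_tendsto hsc hasCompactSupport_sig (fun m => hFbm _ (hBM m)) hFlim (by fun_prop) 1 x)
      exact tendsto_nhds_unique ((hlim x).congr' h1) h2
    · have hx0 : x0 ∈ ball x0 1 := mem_ball_self one_pos
      have h1 : ∀ᶠ m in atTop, J (lap (rho : Eu d → ℝ)) (t m) 1 x0 = - J rho (F (t m)) 1 x0 := by
        filter_upwards [eventually_ge_atTop m0] with m hm
        have e1 := lap_J_rho (hBM m) one_pos x0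
        have e2 := lap_J_rho_comm (ht m) (hB m) one_pos x0
        rw [e1] at e2
        have e3 : J rho (F (t m)) 1 x0 = J rho (fun y => - lap (t m) y) 1 x0 :=
          J_congr (fun y hy => rho_eq_zero hy) zero_le_one le_rfl fun y hy =>
            (hlapF m hm y (hsub x0 hx0 y hy)).symm
        have e4 : J (rho : Eu d → ℝ) (fun y => - lap (t m) y) 1 x0 = - J rho (lap (t m)) 1 x0 := by
          rw [J, J, ← integral_neg]
          congr 1; funext y; rw [neg_smul]
        rw [e3, e4, neg_neg, ← e2]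
        norm_num
      have h2 := J_tendsto hlr hBM hlim 1 x0
      have h3 := (J_tendsto (integrable_rho (d := d)) (fun m => hFbm _ (hBM m)) hFlim 1 x0).neg
      exact tendsto_nhds_unique (h2.congr' h1) h3
  -- `T` is `C¹`
  have hT1 : ContDiff ℝ 1 T := by
    rw [contDiff_iff_contDiffAt]
    intro x0
    obtain ⟨f, C, hf, -, hrep, -⟩ := loc x0
    have h1 : ContDiffAt ℝ 1 (fun x => J rho T 1 x + Npot 0 1 f x) x0 :=
      (((contDiff_J_rho hBT one_pos).of_le (by norm_num)).add
        (contDiff_Npot one_pos hf)).contDiffAt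
    refine h1.congr_of_eventuallyEq ?_
    filter_upwards [ball_mem_nhds x0 one_pos] with x hx
    exact hrep x hx
  have hTl : LocallyLipschitz T := hT1.locallyLipschitz
  have hcomp : LocallyLipschitz (fun x => b' x (T x)) :=
    hb'.comp (LocallyLipschitz.prodMk LocallyLipschitz.id hTl)
  have key : ∀ x0, ContDiffAt ℝ 2 T x0 ∧ lap T x0 = b' x0 (T x0) := by
    intro x0
    obtain ⟨f, C, hf, hfe, hrep, hlap⟩ := loc x0
    have hev2 : T =ᶠ[𝓝 x0] fun x => J rho T 1 x + Npot 0 1 f x := by
      filter_upwards [ball_mem_nhds x0 one_pos] with x hx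
      exact hrep x hx
    have hLip : LipNear f x0 := by
      obtain ⟨K, U, hU, hK⟩ := hcomp x0
      have hUb : U ∩ ball x0 3 ∈ 𝓝 x0 := inter_mem hU (ball_mem_nhds x0 (by norm_num))
      refine lipNear_of_lipschitzOn (K := K) hf.bd hUb ?_
      have h1 : LipschitzOnWith K (fun x => - b' x (T x)) (U ∩ ball x0 3) := by
        intro x hx y hy
        have := hK hx.1 hy.1
        simpa [edist_neg_neg] using this
      intro x hx y hy
      rw [hfe x (ball_subset_closedBall hx.2), hfe y (ball_subset_closedBall hy.2)]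
      exact h1 hx hy
    obtain ⟨h1, h2⟩ := contDiffAt_Npot (c := 0) one_pos hf hLip
    have hJ : ContDiffAt ℝ 2 (J rho T 1) x0 := (contDiff_J_rho hBT one_pos).contDiffAt
    refine ⟨(hJ.add h1).congr_of_eventuallyEq hev2, ?_⟩
    rw [lap_congr hev2, lap_add hJ h1, h2, lap_J_rho hBT one_pos, hlap,
      hfe x0 (mem_closedBall_self (by norm_num))]
    ring
  refine ⟨T, contDiff_iff_contDiffAt.2 fun x => (key x).1, hlim, fun x => (key x).2⟩

end Pool.Agent.K3h35.GS
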