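import Pool.Agent.K3h35.GS.Geo

set_option autoImplicit false
open MeasureTheory Filter Topology Set Metric

namespace Pool.Agent.K3h35.GS

open Pool.Agent.H314.Dir Pool.Agent.H172R3.GS

/-- the weight `(1+|x|²)^{-2}` -/
noncomputable def om (x : Eu 2) : ℝ := ((1 + ‖x‖ ^ 2) ^ 2)⁻¹

theorem yy_pos (x : Eu 2) : (0 : ℝ) < 1 + ‖x‖ ^ 2 := by positivity

theorem one_le_yy (x : Eu 2) : (1 : ℝ) ≤ 1 + ‖x‖ ^ 2 := by nlinarith [sq_nonneg ‖x‖]

theorem om_pos (x : Eu 2) : 0 < om x := by unfold om; positivity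

theorem om_le_one (x : Eu 2) : om x ≤ 1 := by
  unfold om
  exact inv_le_one_of_one_le₀ (one_le_pow₀ (one_le_yy x))

theorem continuous_om : Continuous om := by
  unfold om
  refine Continuous.inv₀ (by fun_prop) fun x => ?_
  positivity

theorem integrable_om : Integrable om := by
  have h1 : Integrable (fun x : Eu 2 => (1 + ‖x‖ ^ 2) ^ (-(4 : ℝ) / 2)) :=
    integrable_rpow_neg_one_add_norm_sq (by rw [finrank_euclideanSpace_fin]; norm_num)
  refine h1.congr (Eventually.of_forall fun x => ?_)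
  show (1 + ‖x‖ ^ 2) ^ (-(4 : ℝ) / 2) = om x
  unfold om
  rw [show (-(4 : ℝ) / 2) = -((2 : ℕ) : ℝ) by norm_num, Real.rpow_neg (by positivity),
    Real.rpow_natCast]

/-- the source function attached to `h` -/
noncomputable def src (h : XX) (x : Eu 2) : ℝ := om x * h (x : OP)

theorem continuous_src (h : XX) : Continuous (src h) :=
  continuous_om.mul (h.continuous.comp OnePoint.continuous_coe)

theorem abs_src_le (h : XX) (x : Eu 2) : |src h x| ≤ ‖h‖ * om x := by
  unfold src
  rw [abs_mul, abs_of_pos (om_pos x), mul_comm]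
  exact mul_le_mul_of_nonneg_right (h.norm_coe_le_norm _) (om_pos x).le

theorem BM_src (h : XX) : BM (src h) ‖h‖ :=
  ⟨(continuous_src h).measurable, fun x => (abs_src_le h x).trans (by
    calc ‖h‖ * om x ≤ ‖h‖ * 1 := mul_le_mul_of_nonneg_left (om_le_one x) (norm_nonneg _)
      _ = _ := mul_one _)⟩

theorem integrable_src (h : XX) : Integrable (src h) :=
  (integrable_om.const_mul ‖h‖).mono' (continuous_src h).aestronglyMeasurable
    (Eventually.of_forall fun x => abs_src_le h x)

theorem integral_src_le (h : XX) : ∫ y, |src h y| ≤ ‖h‖ * ∫ y, om y := by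
  rw [← integral_const_mul]
  exact integral_mono_of_nonneg (Eventually.of_forall fun x => abs_nonneg _)
    (integrable_om.const_mul ‖h‖) (Eventually.of_forall fun x => abs_src_le h x)

theorem src_add (h h' : XX) (x : Eu 2) : src (h + h') x = src h x + 1 * src h' x := by
  unfold src
  rw [BoundedContinuousFunction.add_apply]; ring

theorem src_smul (r : ℝ) (h : XX) (x : Eu 2) : src (r • h) x = 0 + r * src h x := by
  unfold src
  rw [BoundedContinuousFunction.smul_apply, smul_eq_mul]; ring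

/-- the symmetrised potential -/
noncomputable def SS (N : ℕ) (h : XX) (x : Eu 2) : ℝ :=
  (N : ℝ)⁻¹ * ∑ j ∈ Finset.range N, Tp (src h) (rt (j * (2 * Real.pi / N)) x)

theorem Tp_at_zero (f : Eu 2 → ℝ) : Tp f 0 = 0 := by
  unfold Tp; simp

theorem SS_at_zero (N : ℕ) (h : XX) : SS N h 0 = 0 := by
  unfold SS
  simp [Tp_at_zero]

theorem Tp_zero (hT2 : St_T2) (x : Eu 2) : Tp (fun _ => 0) x = 0 := by
  have hB : BM (fun _ : Eu 2 => (0 : ℝ)) 0 := ⟨measurable_const, fun _ => by simp⟩
  have := hT2 (fun _ => 0) (fun _ => 0) 0 0 1 hB (integrable_zero _ _ _) hB (integrable_zero _ _ _) x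
  simp only [mul_zero, add_zero] at this
  linarith

theorem SS_add (hT2 : St_T2) (N : ℕ) (h h' : XX) (x : Eu 2) :
    SS N (h + h') x = SS N h x + SS N h' x := by
  unfold SS
  rw [← mul_add, ← Finset.sum_add_distrib]
  congr 1
  refine Finset.sum_congr rfl fun j _ => ?_
  have h1 := hT2 (src h) (src h') _ _ 1 (BM_src h) (integrable_src h) (BM_src h')
    (integrable_src h') (rt (j * (2 * Real.pi / N)) x)
  rw [one_mul] at h1
  rw [← h1]
  congr 1
  funext y
  exact src_add h h' y

theorem SS_smul (hT2 : St_T2) (N : ℕ) (r : ℝ) (h : XX) (x : Eu 2) :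
    SS N (r • h) x = r * SS N h x := by
  unfold SS
  rw [mul_left_comm]
  congr 1
  rw [Finset.mul_sum]
  refine Finset.sum_congr rfl fun j _ => ?_
  have hB : BM (fun _ : Eu 2 => (0 : ℝ)) 0 := ⟨measurable_const, fun _ => by simp⟩
  have h1 := hT2 (fun _ => 0) (src h) _ _ r hB (integrable_zero _ _ _) (BM_src h)
    (integrable_src h) (rt (j * (2 * Real.pi / N)) x)
  rw [Tp_zero hT2, zero_add] at h1
  rw [← h1]
  congr 1
  funext y
  exact src_smul r h y

/-- the constant of the potential -/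
theorem SS_bounds (hT1 : St_T1) : ∃ c : ℝ, 0 < c ∧ ∀ (N : ℕ), 1 ≤ N → ∀ (h : XX),
    (∀ x, |SS N h x| ≤ c * ‖h‖ * (1 + Real.log (1 + ‖x‖ ^ 2))) ∧
    (∀ x y, |SS N h x - SS N h y| ≤ c * ‖h‖ * ‖x - y‖) := by
  obtain ⟨c, hc, hT⟩ := hT1
  have hI : 0 ≤ ∫ y, om y := integral_nonneg fun y => (om_pos y).le
  refine ⟨c * (1 + ∫ y, om y), by positivity, fun N hN h => ?_⟩
  obtain ⟨h1, h2⟩ := hT (src h) ‖h‖ (BM_src h) (integrable_src h)
  have hNpos : (0 : ℝ) < N := by exact_mod_cast hN
  have hcc : c * (‖h‖ + ∫ y, |src h y|) ≤ c * (1 + ∫ y, om y) * ‖h‖ := by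
    have := mul_le_mul_of_nonneg_left (integral_src_le h) hc.le
    nlinarith
  constructor
  · intro x
    unfold SS
    rw [abs_mul, abs_of_pos (inv_pos.2 hNpos), inv_mul_le_iff₀ hNpos]
    refine (Finset.abs_sum_le_sum_abs _ _).trans ?_
    calc ∑ j ∈ Finset.range N, |Tp (src h) (rt (j * (2 * Real.pi / N)) x)|
        ≤ ∑ j ∈ Finset.range N, c * (1 + ∫ y, om y) * ‖h‖ * (1 + Real.log (1 + ‖x‖ ^ 2)) := by
          refine Finset.sum_le_sum fun j _ => ?_
          refine (h1 _).trans ?_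
          rw [norm_rt]
          refine mul_le_mul_of_nonneg_right hcc ?_
          have := one_le_Lam x
          unfold Lam at this
          linarith
      _ = _ := by rw [Finset.sum_const, Finset.card_range, nsmul_eq_mul]
  · intro x y
    unfold SS
    rw [← mul_sub, ← Finset.sum_sub_distrib, abs_mul, abs_of_pos (inv_pos.2 hNpos),
      inv_mul_le_iff₀ hNpos]
    refine (Finset.abs_sum_le_sum_abs _ _).trans ?_
    calc ∑ j ∈ Finset.range N, |Tp (src h) (rt (j * (2 * Real.pi / N)) x) -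
          Tp (src h) (rt (j * (2 * Real.pi / N)) y)|
        ≤ ∑ j ∈ Finset.range N, c * (1 + ∫ y, om y) * ‖h‖ * ‖x - y‖ := by
          refine Finset.sum_le_sum fun j _ => ?_
          refine (h2 _ _).trans ?_
          rw [← map_sub, norm_rt]
          exact mul_le_mul_of_nonneg_right hcc (norm_nonneg _)
      _ = _ := by rw [Finset.sum_const, Finset.card_range, nsmul_eq_mul]

theorem SS_rt (N : ℕ) (hN : 1 ≤ N) (h : XX) (x : Eu 2) :
    SS N h (rt (2 * Real.pi / N) x) = SS N h x := by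
  unfold SS
  congr 1
  have hN0 : (N : ℝ) ≠ 0 := by positivity
  have e : ∀ j : ℕ, Tp (src h) (rt (j * (2 * Real.pi / N)) (rt (2 * Real.pi / N) x)) =
      (fun j : ℕ => Tp (src h) (rt (j * (2 * Real.pi / N)) x)) (j + 1) := by
    intro j
    simp only
    rw [rt_rt]
    congr 3
    push_cast; ring
  simp only [e]
  have h1 := Finset.sum_range_succ (fun j : ℕ => Tp (src h) (rt (j * (2 * Real.pi / N)) x)) N
  rw [Finset.sum_range_succ'] at h1
  have h2 : (fun j : ℕ => Tp (src h) (rt (j * (2 * Real.pi / N)) x)) N =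
      (fun j : ℕ => Tp (src h) (rt (j * (2 * Real.pi / N)) x)) 0 := by
    simp only
    rw [mul_div_cancel₀ _ hN0, rt_two_pi, Nat.cast_zero, zero_mul, rt_zero]
  simp only at h2
  rw [← h2] at h1
  exact add_right_cancel h1

/-- if the source is invariant and locally Lipschitz, the symmetrised potential is `C²` and solves
the Poisson equation -/
theorem SS_poisson (hT3 : St_T3) (N : ℕ) (hN : 1 ≤ N) (h : XX)
    (hinv : ∀ x, src h (rt (2 * Real.pi / N) x) = src h x) (hL : ∀ x, LipNear (src h) x) :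
    ContDiff ℝ 2 (SS N h) ∧ ∀ x, lap (SS N h) x = src h x := by
  obtain ⟨h1, h2⟩ := hT3 (src h) ‖h‖ (BM_src h) (integrable_src h) hL
  have hinv' : ∀ (j : ℕ) x, src h (rt (j * (2 * Real.pi / N)) x) = src h x := by
    intro j
    induction j with
    | zero => intro x; rw [Nat.cast_zero, zero_mul, rt_zero]
    | succ j ih =>
      intro x
      have e : rt ((j + 1 : ℕ) * (2 * Real.pi / N)) x =
          rt (2 * Real.pi / N) (rt (j * (2 * Real.pi / N)) x) := by
        rw [rt_rt]; congr 2; push_cast; ring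
      rw [e, hinv, ih]
  have hcd : ∀ j : ℕ, ContDiff ℝ 2 (fun x => Tp (src h) (rt (j * (2 * Real.pi / N)) x)) := by
    intro j
    exact h1.comp ((rt (j * (2 * Real.pi / N))).toContinuousLinearEquiv : Eu 2 →L[ℝ] Eu 2).contDiff
  have hsum : ContDiff ℝ 2 (fun x => ∑ j ∈ Finset.range N,
      Tp (src h) (rt (j * (2 * Real.pi / N)) x)) := ContDiff.sum fun j _ => hcd j
  have hN0 : (N : ℝ) ≠ 0 := by positivity
  refine ⟨contDiff_const.mul hsum, fun x => ?_⟩
  have e : SS N h = fun x => (N : ℝ)⁻¹ * (fun x => ∑ j ∈ Finset.range N,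
      Tp (src h) (rt (j * (2 * Real.pi / N)) x)) x := rfl
  rw [e, lap_const_mul _ hsum.contDiffAt, lap_sum _ _ _ (fun j => hcd j)]
  have e2 : ∀ j ∈ Finset.range N, lap (fun x => Tp (src h) (rt (j * (2 * Real.pi / N)) x)) x =
      src h x := by
    intro j _
    rw [lap_rt h1, h2, hinv']
  rw [Finset.sum_congr rfl e2, Finset.sum_const, Finset.card_range, nsmul_eq_mul]
  field_simp

end Pool.Agent.K3h35.GS
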