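import Pool.Agent.K3h35.GS.Lem

set_option autoImplicit false
open MeasureTheory Filter Topology Set Metric

namespace Pool.Agent.K3h35.GS

open Pool.Agent.H314.Dir Pool.Agent.H172R3.GS

theorem om_mul (x : Eu 2) (r : ℝ) : om x * ((1 + ‖x‖ ^ 2) ^ 2 * r) = r := by
  unfold om
  have := yy_pos x
  field_simp

theorem SS_sub (hT2 : St_T2) (N : ℕ) (h h' : XX) (x : Eu 2) :
    SS N (h - h') x = SS N h x - SS N h' x := by
  have e : h - h' = h + (-1 : ℝ) • h' := by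
    ext p
    simp [sub_eq_add_neg]
  rw [e, SS_add hT2, SS_smul hT2]
  ring

theorem SS_zero (hT2 : St_T2) (N : ℕ) (x : Eu 2) : SS N 0 x = 0 := by
  have := SS_smul hT2 N 0 0 x
  simpa using this

theorem eq_zero_of_coe (h : XX) (hh : ∀ x : Eu 2, h (x : OP) = 0) : h = 0 := by
  have h1 := (OnePoint.denseRange_coe (X := Eu 2)).equalizer h.continuous
    (continuous_const (y := (0 : ℝ))) (funext hh)
  ext p
  exact congrFun h1 p

theorem main_u (hA : St_A) (hK1 : St_K1) (hK2 : St_K2) (hK3 : St_K3) (hK4 : St_K4) (hT1 : St_T1)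
    (hT2 : St_T2) (hT3 : St_T3) (hNl : St_N) {a : ℝ} (ha : 0 < a) {N : ℕ} (hN : 2 ≤ N) :
    ∃ (δ : ℝ) (u : Eu 2 → ℝ) (B : ℝ), 0 < δ ∧ ContDiff ℝ ((⊤ : ℕ∞) : WithTop ℕ∞) u ∧
      (∀ x, lap u x = kk a (RR N δ x) (u x)) ∧ (∀ x, RR N δ x * Real.exp (u x) ≤ B) ∧
      Integrable (lap u) := by
  set Q : ℝ := max ((N : ℝ) + 1) (4 / a) with hQ
  have hNQ : (N : ℝ) + 1 ≤ Q := le_max_left _ _
  have haQ : 4 ≤ a * Q := by
    have h1 := le_max_right ((N : ℝ) + 1) (4 / a)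
    calc (4 : ℝ) = a * (4 / a) := by field_simp
      _ ≤ a * Q := mul_le_mul_of_nonneg_left h1 ha.le
  have hQ0 : 0 < Q := by
    have : (0 : ℝ) ≤ N := Nat.cast_nonneg N
    linarith
  obtain ⟨w, hw⟩ := hA a Q ha hQ0
  obtain ⟨C0, hC0, hdec⟩ := hw.decay
  obtain ⟨c, hc, hSb⟩ := SS_bounds hT1
  have hN1 : 1 ≤ N := by omega
  obtain ⟨C1, κ0, hC1, hκ0, hNl'⟩ := hNl a Q C0 N ha hC0 hNQ haQ
  have hy1 : ∀ x : Eu 2, (1 : ℝ) ≤ 1 + ‖x‖ ^ 2 := one_le_yy
  have hdec' : ∀ x, Real.exp (v0 w x) ≤ C0 * (1 + ‖x‖ ^ 2) ^ (-Q) := fun x => hdec _ (sq_nonneg _)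
  have hlog : ∀ x : Eu 2, 1 ≤ 1 + Real.log (1 + ‖x‖ ^ 2) := one_le_Lam
  have hv0c : Continuous (v0 w) := (contDiff_v0 hw).continuous
  have hScont : ∀ h, Continuous (SS N h) := fun h => continuous_of_lip (hSb N hN1 h).2
  -- the linear operator
  set W : Eu 2 → ℝ := fun x => (1 + ‖x‖ ^ 2) ^ 2 * kd a 1 (v0 w x) with hW
  have hkdc : Continuous (fun x => kd a 1 (v0 w x)) :=
    (contDiff_kd (n := 0) a contDiff_const ((contDiff_v0 hw).of_le (by simp))).continuous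
  have hkkc : Continuous (fun x => kk a 1 (v0 w x)) :=
    (contDiff_kk (n := 0) a contDiff_const ((contDiff_v0 hw).of_le (by simp))).continuous
  have hWc : Continuous W := by
    refine Continuous.mul (by fun_prop) hkdc
  have hW0 : Tendsto (fun x => W x * (1 + Real.log (1 + ‖x‖ ^ 2))) (cocompact (Eu 2)) (𝓝 0) := by
    have h1 : Tendsto (fun x : Eu 2 => ((1 + a) * C0 ^ a) * (1 + ‖x‖ ^ 2)⁻¹) (cocompact (Eu 2))
        (𝓝 0) := by
      have := (tendsto_inv_atTop_zero.comp tendsto_y).const_mul ((1 + a) * C0 ^ a)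
      rw [mul_zero] at this
      exact this
    refine squeeze_zero_norm (fun x => ?_) h1
    rw [Real.norm_eq_abs, abs_mul,
      abs_of_pos (by linarith [hlog x] : 0 < 1 + Real.log (1 + ‖x‖ ^ 2))]
    simp only [hW]
    rw [abs_mul, abs_of_pos (by positivity : (0 : ℝ) < (1 + ‖x‖ ^ 2) ^ 2)]
    have h2 := abs_kd_le ha (v0_neg hw x).le
    have h3 := exp_av_le ha hC0 haQ (hy1 x) (hdec' x)
    have h4 := one_add_log_le (hy1 x)
    have hy0 := yy_pos x
    have h5 : |kd a 1 (v0 w x)| ≤ (1 + a) * (C0 ^ a * ((1 + ‖x‖ ^ 2) ^ 4)⁻¹) :=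
      h2.trans (mul_le_mul_of_nonneg_left h3 (by linarith))
    calc (1 + ‖x‖ ^ 2) ^ 2 * |kd a 1 (v0 w x)| * (1 + Real.log (1 + ‖x‖ ^ 2))
        ≤ (1 + ‖x‖ ^ 2) ^ 2 * ((1 + a) * (C0 ^ a * ((1 + ‖x‖ ^ 2) ^ 4)⁻¹)) * (1 + ‖x‖ ^ 2) := by
          refine mul_le_mul (mul_le_mul_of_nonneg_left h5 (by positivity)) h4
            (by linarith [hlog x]) (by positivity)
      _ = _ := by field_simp
  obtain ⟨A, hAc, hAv⟩ := t_C (SS N) c W (SS_add hT2 N) (SS_smul hT2 N)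
    (fun h => (hSb N hN1 h).1) (fun h => (hSb N hN1 h).2) hWc hW0
  -- injectivity
  have hinj : ∀ h, A h = h → h = 0 := by
    intro h hh
    have hx : ∀ x : Eu 2, h (x : OP) = W x * SS N h x := by
      intro x; rw [← hAv, hh]
    have hsrc : ∀ x, src h x = kd a 1 (v0 w x) * SS N h x := by
      intro x
      unfold src
      rw [hx]
      simp only [hW]
      rw [mul_assoc, om_mul]
    have hinv : ∀ x, src h (rt (2 * Real.pi / N) x) = src h x := by
      intro x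
      rw [hsrc, hsrc, v0_rt, SS_rt N hN1]
    have hL : ∀ x, LipNear (src h) x := by
      have e : src h = fun x => (fun (x : Eu 2) (s : ℝ) => kd a 1 (v0 w x) * s) x (SS N h x) :=
        funext hsrc
      rw [e]
      refine lipNear_comp (b := fun (x : Eu 2) (s : ℝ) => kd a 1 (v0 w x) * s) ?_
        (hSb N hN1 h).2 (C := ‖h‖) ?_
      · refine ContDiff.mul ?_ contDiff_snd
        refine contDiff_kd a contDiff_const ?_
        have : ContDiff ℝ 1 (v0 w) := by exact_mod_cast contDiff_infty.1 (contDiff_v0 hw) 1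
        exact this.comp contDiff_fst
      · intro x
        rw [← hsrc]
        exact (BM_src h).bd x
    obtain ⟨h1, h2⟩ := SS_poisson hT3 N hN1 h hinv hL
    have h3 := kernel_zero hK1 hK2 hK3 hK4 ha (by linarith) hw hN h1
      (fun x => by rw [h2, hsrc]; rfl) (SS_rt N hN1 h) (SS_at_zero N h) (hSb N hN1 h).1
    refine eq_zero_of_coe h fun x => ?_
    rw [hx, h3, mul_zero]
  obtain ⟨β, hβ, hF⟩ := t_F XX A hAc hinj
  -- the constants
  obtain ⟨η, hη, hη1, hη2, hη3⟩ : ∃ η : ℝ, 0 < η ∧ c * η ≤ κ0 ∧ c * η ≤ 1 ∧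
      C1 * (c * η) * c ≤ β / 2 := by
    refine ⟨min (min (κ0 / c) (1 / c)) (β / 2 / (C1 * c * c)), by positivity, ?_, ?_, ?_⟩
    · rw [← le_div_iff₀' hc]
      exact (min_le_left _ _).trans (min_le_left _ _)
    · rw [← le_div_iff₀' hc]
      exact (min_le_left _ _).trans (min_le_right _ _)
    · have h1 : min (min (κ0 / c) (1 / c)) (β / 2 / (C1 * c * c)) ≤ β / 2 / (C1 * c * c) :=
        min_le_right _ _
      rw [le_div_iff₀ (by positivity)] at h1
      linarith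
  obtain ⟨δ, hδ, hδ1, hδ2, hδ3⟩ : ∃ δ : ℝ, 0 < δ ∧ δ ≤ 1 ∧ C1 * δ * c ≤ β / 2 ∧
      C1 * δ ≤ β * η := by
    refine ⟨min 1 (min (β / 2 / (C1 * c)) (β * η / C1)), by positivity, min_le_left _ _, ?_, ?_⟩
    · have h1 : min 1 (min (β / 2 / (C1 * c)) (β * η / C1)) ≤ β / 2 / (C1 * c) :=
        (min_le_right _ _).trans (min_le_left _ _)
      rw [le_div_iff₀ (by positivity)] at h1
      linarith
    · have h1 : min 1 (min (β / 2 / (C1 * c)) (β * η / C1)) ≤ β * η / C1 :=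
        (min_le_right _ _).trans (min_le_right _ _)
      rw [le_div_iff₀ (by positivity)] at h1
      linarith
  set κ : ℝ := c * η with hκ
  have hκ0' : 0 < κ := by positivity
  set R : Eu 2 → ℝ := RR N δ with hR
  have hRc : Continuous R := (contDiff_RR (n := 0) N δ).continuous
  have hzb : ∀ h, ‖h‖ ≤ η → ∀ x, |SS N h x| ≤ κ * (1 + Real.log (1 + ‖x‖ ^ 2)) := by
    intro h hh x
    refine ((hSb N hN1 h).1 x).trans (mul_le_mul_of_nonneg_right ?_ (by linarith [hlog x]))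
    exact mul_le_mul_of_nonneg_left hh hc.le
  have hest : ∀ x z z', |z| ≤ κ * (1 + Real.log (1 + ‖x‖ ^ 2)) →
      |z'| ≤ κ * (1 + Real.log (1 + ‖x‖ ^ 2)) →
      (1 + ‖x‖ ^ 2) ^ 2 * |kk a (R x) (v0 w x + z) - kk a (R x) (v0 w x + z') -
        kd a 1 (v0 w x) * (z - z')| ≤
        C1 * (κ + δ) * ((1 + ‖x‖ ^ 2) ^ (-(1 / 2) : ℝ) / (1 + Real.log (1 + ‖x‖ ^ 2))) * |z - z'| ∧
      (1 + ‖x‖ ^ 2) ^ 2 * |kk a (R x) (v0 w x) - kk a 1 (v0 w x)| ≤
        C1 * δ * (1 + ‖x‖ ^ 2) ^ (-(1 / 2) : ℝ) := by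
    intro x z z' hz hz'
    exact hNl' κ δ (1 + ‖x‖ ^ 2) (v0 w x) (R x) z z' hκ0'.le hη1 hδ.le hδ1 (hy1 x) (hdec' x)
      (RR_nonneg N δ x) (RR_le N hδ.le hδ1 x) (RR_sub N hδ.le hδ1 x) hz hz'
  -- the nonlinear remainder
  set n : XX → Eu 2 → ℝ := fun h x => (1 + ‖x‖ ^ 2) ^ 2 * (kk a (R x) (v0 w x + SS N h x) -
    kk a 1 (v0 w x) - kd a 1 (v0 w x) * SS N h x) with hn
  have hnc : ∀ h, Continuous (n h) := by
    intro h
    have h1 : Continuous (fun x => kk a (R x) (v0 w x + SS N h x)) := by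
      have h2 : Continuous (fun p : ℝ × ℝ => kk a p.1 p.2) :=
        (contDiff_kk (n := 0) a contDiff_fst contDiff_snd).continuous
      exact h2.comp (hRc.prodMk (hv0c.add (hScont h)))
    refine Continuous.mul (by fun_prop) ?_
    exact (h1.sub hkkc).sub (hkdc.mul (hScont h))
  have hn0 : ∀ x, n 0 x = (1 + ‖x‖ ^ 2) ^ 2 * (kk a (R x) (v0 w x) - kk a 1 (v0 w x)) := by
    intro x
    simp only [hn]
    rw [SS_zero hT2, add_zero, mul_zero, sub_zero]
  have hyh : ∀ x : Eu 2, (1 + ‖x‖ ^ 2) ^ (-(1 / 2) : ℝ) ≤ 1 := fun x =>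
    Real.rpow_le_one_of_one_le_of_nonpos (hy1 x) (by norm_num)
  have hyh0 : ∀ x : Eu 2, 0 < (1 + ‖x‖ ^ 2) ^ (-(1 / 2) : ℝ) := fun x =>
    Real.rpow_pos_of_pos (yy_pos x) _
  have hnb : ∀ h, ‖h‖ ≤ η → ∀ x, |n h x| ≤ (C1 * (κ + δ) * κ + C1 * δ) *
      (1 + ‖x‖ ^ 2) ^ (-(1 / 2) : ℝ) := by
    intro h hh x
    have hz := hzb h hh x
    obtain ⟨e1, e2⟩ := hest x (SS N h x) 0 hz (by rw [abs_zero]; exact (abs_nonneg _).trans hz)
    rw [add_zero, sub_zero] at e1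
    have e3 : n h x = (1 + ‖x‖ ^ 2) ^ 2 * (kk a (R x) (v0 w x + SS N h x) - kk a (R x) (v0 w x) -
        kd a 1 (v0 w x) * SS N h x) + (1 + ‖x‖ ^ 2) ^ 2 *
        (kk a (R x) (v0 w x) - kk a 1 (v0 w x)) := by
      simp only [hn]; ring
    have hy2 : (0 : ℝ) ≤ (1 + ‖x‖ ^ 2) ^ 2 := by positivity
    rw [e3, add_mul]
    refine (abs_add_le _ _).trans (add_le_add ?_ ?_)
    · rw [abs_mul, abs_of_nonneg hy2]
      refine e1.trans ?_
      have hl := hlog x
      have hl0 : 0 < 1 + Real.log (1 + ‖x‖ ^ 2) := by linarith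
      calc C1 * (κ + δ) * ((1 + ‖x‖ ^ 2) ^ (-(1 / 2) : ℝ) / (1 + Real.log (1 + ‖x‖ ^ 2))) *
            |SS N h x|
          ≤ C1 * (κ + δ) * ((1 + ‖x‖ ^ 2) ^ (-(1 / 2) : ℝ) / (1 + Real.log (1 + ‖x‖ ^ 2))) *
            (κ * (1 + Real.log (1 + ‖x‖ ^ 2))) := by
            refine mul_le_mul_of_nonneg_left hz ?_
            have := hyh0 x
            positivity
        _ = _ := by field_simp
    · rw [abs_mul, abs_of_nonneg hy2]
      exact e2
  have hnt : ∀ h, ‖h‖ ≤ η → Tendsto (n h) (cocompact (Eu 2)) (𝓝 0) := by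
    intro h hh
    exact squeeze_zero_norm (fun x => by rw [Real.norm_eq_abs]; exact hnb h hh x)
      (tendsto_yhalf _)
  classical
  set Nf : XX → XX := fun h => if hh : ‖h‖ ≤ η then mkX (n h) (hnc h) (hnt h hh) else 0 with hNf
  have hNfc : ∀ h, ‖h‖ ≤ η → ∀ x : Eu 2, Nf h (x : OP) = n h x := by
    intro h hh x
    simp only [hNf]
    rw [dif_pos hh]
    rfl
  have hNfi : ∀ h, ‖h‖ ≤ η → Nf h OnePoint.infty = 0 := by
    intro h hh
    simp only [hNf]
    rw [dif_pos hh]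
    rfl
  have hLip : ∀ h h', ‖h‖ ≤ η → ‖h'‖ ≤ η → ‖Nf h - Nf h'‖ ≤ β * ‖h - h'‖ := by
    intro h h' hh hh'
    rw [BoundedContinuousFunction.norm_le (by positivity)]
    intro p
    induction p using OnePoint.rec with
    | infty =>
      rw [BoundedContinuousFunction.sub_apply, hNfi h hh, hNfi h' hh', sub_zero, norm_zero]
      positivity
    | coe x =>
      rw [BoundedContinuousFunction.sub_apply, hNfc h hh, hNfc h' hh', Real.norm_eq_abs]
      obtain ⟨e1, -⟩ := hest x (SS N h x) (SS N h' x) (hzb h hh x) (hzb h' hh' x)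
      have e3 : n h x - n h' x = (1 + ‖x‖ ^ 2) ^ 2 * (kk a (R x) (v0 w x + SS N h x) -
          kk a (R x) (v0 w x + SS N h' x) - kd a 1 (v0 w x) * (SS N h x - SS N h' x)) := by
        simp only [hn]; ring
      have hy2 : (0 : ℝ) ≤ (1 + ‖x‖ ^ 2) ^ 2 := by positivity
      rw [e3, abs_mul, abs_of_nonneg hy2]
      refine e1.trans ?_
      have hl := hlog x
      have hl0 : 0 < 1 + Real.log (1 + ‖x‖ ^ 2) := by linarith
      have e4 : |SS N h x - SS N h' x| ≤ c * ‖h - h'‖ * (1 + Real.log (1 + ‖x‖ ^ 2)) := by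
        rw [← SS_sub hT2]
        exact (hSb N hN1 _).1 x
      calc C1 * (κ + δ) * ((1 + ‖x‖ ^ 2) ^ (-(1 / 2) : ℝ) / (1 + Real.log (1 + ‖x‖ ^ 2))) *
            |SS N h x - SS N h' x|
          ≤ C1 * (κ + δ) * ((1 + ‖x‖ ^ 2) ^ (-(1 / 2) : ℝ) / (1 + Real.log (1 + ‖x‖ ^ 2))) *
            (c * ‖h - h'‖ * (1 + Real.log (1 + ‖x‖ ^ 2))) := by
            refine mul_le_mul_of_nonneg_left e4 ?_
            have := hyh0 x
            positivity
        _ = (C1 * κ * c + C1 * δ * c) * (1 + ‖x‖ ^ 2) ^ (-(1 / 2) : ℝ) * ‖h - h'‖ := by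
            field_simp
        _ ≤ (β / 2 + β / 2) * 1 * ‖h - h'‖ := by
            refine mul_le_mul_of_nonneg_right ?_ (norm_nonneg _)
            refine mul_le_mul (add_le_add hη3 hδ2) (hyh x) (hyh0 x).le (by positivity)
        _ = _ := by ring
  have h0n : ‖(0 : XX)‖ ≤ η := by rw [norm_zero]; exact hη.le
  have hN0 : ‖Nf 0‖ ≤ β * η := by
    rw [BoundedContinuousFunction.norm_le (by positivity)]
    intro p
    induction p using OnePoint.rec with
    | infty => rw [hNfi 0 h0n, norm_zero]; positivity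
    | coe x =>
      rw [hNfc 0 h0n, hn0, Real.norm_eq_abs, abs_mul,
        abs_of_nonneg (by positivity : (0 : ℝ) ≤ (1 + ‖x‖ ^ 2) ^ 2)]
      have hl0 : 0 ≤ κ * (1 + Real.log (1 + ‖x‖ ^ 2)) := by
        have := hlog x
        positivity
      obtain ⟨-, e2⟩ := hest x 0 0 (by rw [abs_zero]; exact hl0) (by rw [abs_zero]; exact hl0)
      refine e2.trans ?_
      calc C1 * δ * (1 + ‖x‖ ^ 2) ^ (-(1 / 2) : ℝ) ≤ C1 * δ * 1 :=
            mul_le_mul_of_nonneg_left (hyh x) (by positivity)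
        _ ≤ _ := by rw [mul_one]; exact hδ3
  obtain ⟨h, hh, hfix⟩ := hF η hη Nf hLip hN0
  -- the solution
  have hx : ∀ x : Eu 2, h (x : OP) = (1 + ‖x‖ ^ 2) ^ 2 * (kk a (R x) (v0 w x + SS N h x) -
      kk a 1 (v0 w x)) := by
    intro x
    have e1 : h (x : OP) = (A h + Nf h) (x : OP) := by rw [← hfix]
    rw [e1, BoundedContinuousFunction.add_apply, hAv, hNfc h hh]
    simp only [hW, hn]
    ring
  have hsrc : ∀ x, src h x = kk a (R x) (v0 w x + SS N h x) - kk a 1 (v0 w x) := by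
    intro x
    unfold src
    rw [hx, om_mul]
  have hinv : ∀ x, src h (rt (2 * Real.pi / N) x) = src h x := by
    intro x
    rw [hsrc, hsrc, v0_rt, SS_rt N hN1]
    simp only [hR]
    rw [RR_rt (by omega)]
  have hv1 : ContDiff ℝ 1 (v0 w) := by exact_mod_cast contDiff_infty.1 (contDiff_v0 hw) 1
  have hv2 : ContDiff ℝ 2 (v0 w) := by exact_mod_cast contDiff_infty.1 (contDiff_v0 hw) 2
  have hL : ∀ x, LipNear (src h) x := by
    have e : src h = fun x => (fun (x : Eu 2) (s : ℝ) => kk a (R x) (v0 w x + s) -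
      kk a 1 (v0 w x)) x (SS N h x) := funext hsrc
    rw [e]
    refine lipNear_comp (b := fun (x : Eu 2) (s : ℝ) => kk a (R x) (v0 w x + s) -
      kk a 1 (v0 w x)) ?_ (hSb N hN1 h).2 (C := ‖h‖) ?_
    · refine ContDiff.sub ?_ ?_
      · exact contDiff_kk a ((contDiff_RR N δ).comp contDiff_fst)
          ((hv1.comp contDiff_fst).add contDiff_snd)
      · exact contDiff_kk a contDiff_const (hv1.comp contDiff_fst)
    · intro x
      rw [← hsrc]
      exact (BM_src h).bd x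
  obtain ⟨h1, h2⟩ := SS_poisson hT3 N hN1 h hinv hL
  set u : Eu 2 → ℝ := fun x => v0 w x + SS N h x with hu
  have hu2 : ContDiff ℝ 2 u := hv2.add h1
  have hlap0 : ∀ x, lap u x = kk a 1 (v0 w x) + src h x := by
    intro x
    simp only [hu]
    rw [lap_add hv2.contDiffAt h1.contDiffAt, lap_v0 hw, h2]
  have hlap : ∀ x, lap u x = kk a (R x) (u x) := by
    intro x
    rw [hlap0, hsrc]
    simp only [hu]
    ring
  have husm : ContDiff ℝ ((⊤ : ℕ∞) : WithTop ℕ∞) u :=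
    t_S (fun x s => kk a (R x) s) (contDiff_kk a ((contDiff_RR N δ).comp contDiff_fst)
      contDiff_snd) u hu2 hlap
  refine ⟨δ, u, 4 * C0 * Real.exp 1, hδ, husm, hlap, fun x => ?_, ?_⟩
  · have hy0 := yy_pos x
    have e1 := RR_le N hδ.le hδ1 x
    have e2 := hdec' x
    have hl := hlog x
    have e3 : Real.exp (SS N h x) ≤ Real.exp 1 * (1 + ‖x‖ ^ 2) := by
      have e4 := (le_abs_self _).trans (hzb h hh x)
      have e5 : κ * (1 + Real.log (1 + ‖x‖ ^ 2)) ≤ 1 + Real.log (1 + ‖x‖ ^ 2) := by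
        calc _ ≤ 1 * (1 + Real.log (1 + ‖x‖ ^ 2)) :=
              mul_le_mul_of_nonneg_right hη2 (by linarith)
          _ = _ := one_mul _
      calc Real.exp (SS N h x) ≤ Real.exp (1 + Real.log (1 + ‖x‖ ^ 2)) :=
            Real.exp_le_exp.2 (e4.trans e5)
        _ = _ := by rw [Real.exp_add, Real.exp_log hy0]
    simp only [hu]
    rw [Real.exp_add]
    calc RR N δ x * (Real.exp (v0 w x) * Real.exp (SS N h x))
        ≤ 4 * (1 + ‖x‖ ^ 2) ^ N * ((C0 * (1 + ‖x‖ ^ 2) ^ (-Q)) *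
          (Real.exp 1 * (1 + ‖x‖ ^ 2))) := by
          refine mul_le_mul e1 (mul_le_mul e2 e3 (Real.exp_pos _).le (by positivity))
            (by positivity) (by positivity)
      _ = 4 * C0 * Real.exp 1 * ((1 + ‖x‖ ^ 2) ^ (N + 1) * (1 + ‖x‖ ^ 2) ^ (-Q)) := by ring
      _ ≤ 4 * C0 * Real.exp 1 * 1 := by
          refine mul_le_mul_of_nonneg_left ?_ (by positivity)
          rw [← Real.rpow_natCast, ← Real.rpow_add hy0]
          refine Real.rpow_le_one_of_one_le_of_nonpos (hy1 x) ?_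
          push_cast
          linarith
      _ = _ := mul_one _
  · have e : lap u = fun x => kk a 1 (v0 w x) + src h x := funext hlap0
    rw [e]
    refine Integrable.add ?_ (integrable_src h)
    refine (integrable_om.const_mul (C0 ^ a)).mono' hkkc.aestronglyMeasurable
      (Eventually.of_forall fun x => ?_)
    rw [Real.norm_eq_abs]
    refine (abs_kk_le ha (v0_neg hw x).le).trans ((exp_av_le ha hC0 haQ (hy1 x) (hdec' x)).trans ?_)
    refine mul_le_mul_of_nonneg_left ?_ (by positivity)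
    unfold om
    exact inv_anti₀ (by positivity) (pow_le_pow_right₀ (hy1 x) (by norm_num))

end Pool.Agent.K3h35.GS
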