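import Pool.Agent.K3h35.GS.NonL
import Pool.Agent.K3h35.GS.BrG
import Pool.Agent.Results.MP_e9f444_mp.ManyStrings

set_option autoImplicit false
open MeasureTheory Filter Topology Set Metric

namespace Pool.Agent.K3h35.GS

open Pool.Agent.H314.Dir Pool.Agent.H172R3.GS Pool.Agent.Results.MP_e9f444_mp.ManyStrings

/-- the vertices of the regular `N`-gon of circumradius `r` -/
noncomputable def vert (N : ℕ) (r : ℝ) (k : Fin N) : Eu 2 :=
  !₂[r * Real.cos (2 * Real.pi * k / N), r * Real.sin (2 * Real.pi * k / N)]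

theorem cx_vert (N : ℕ) (r : ℝ) (k : Fin N) :
    cx (vert N r k) = r * Complex.exp (2 * Real.pi * Complex.I / N) ^ (k : ℕ) := by
  rw [← Complex.exp_nat_mul]
  have e : ((k : ℕ) : ℂ) * (2 * Real.pi * Complex.I / N) =
      ((2 * Real.pi * (k : ℕ) / N : ℝ) : ℂ) * Complex.I := by
    push_cast; ring
  rw [e]
  apply Complex.ext
  · rw [Complex.exp_mul_I]
    simp [cx, vert, ← Complex.ofReal_cos, ← Complex.ofReal_sin, -Complex.ofReal_mul,
      -Complex.ofReal_div]
  · rw [Complex.exp_mul_I]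
    simp [cx, vert, ← Complex.ofReal_cos, ← Complex.ofReal_sin, -Complex.ofReal_mul,
      -Complex.ofReal_div]

theorem vert_injective {N : ℕ} (hN : 2 ≤ N) {r : ℝ} (hr : 0 < r) :
    Function.Injective (vert N r) := by
  intro j k h
  have hN0 : N ≠ 0 := by omega
  have hprim := Complex.isPrimitiveRoot_exp N hN0
  have h1 := congrArg cx h
  rw [cx_vert, cx_vert] at h1
  have hr0 : (r : ℂ) ≠ 0 := by exact_mod_cast hr.ne'
  have h2 := mul_left_cancel₀ hr0 h1
  exact Fin.ext (hprim.pow_inj j.2 k.2 h2)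

theorem prod_vert {N : ℕ} (hN : 2 ≤ N) {r δ : ℝ} (hrd : δ * r ^ N = 1) (x : Eu 2) :
    RR N δ x = δ ^ 2 * PP (vert N r) (fun _ => 1) x := by
  have hN0 : N ≠ 0 := by omega
  have hprim := Complex.isPrimitiveRoot_exp N hN0
  have h1 : cx x ^ N - (r : ℂ) ^ N = ∏ k : Fin N, (cx x - cx (vert N r k)) := by
    have h := congrArg (Polynomial.eval (cx x)) (X_pow_sub_C_eq_prod hprim
      (Nat.pos_of_ne_zero hN0) (rfl : (r : ℂ) ^ N = (r : ℂ) ^ N))
    rw [Polynomial.eval_prod, Finset.prod_range] at h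
    simp only [Polynomial.eval_sub, Polynomial.eval_pow, Polynomial.eval_X,
      Polynomial.eval_C] at h
    rw [h]
    refine Finset.prod_congr rfl fun k _ => ?_
    rw [cx_vert, mul_comm]
  have h2 : (1 : ℂ) - δ * cx x ^ N = -(δ : ℂ) * (cx x ^ N - (r : ℂ) ^ N) := by
    have : (δ : ℂ) * (r : ℂ) ^ N = 1 := by exact_mod_cast hrd
    linear_combination -this
  unfold RR
  rw [h2, h1, map_mul, map_prod]
  congr 1
  · simp [Complex.normSq_apply]; ring
  · unfold PP
    refine Finset.prod_congr rfl fun k _ => ?_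
    rw [pow_one, ← norm_cx, Complex.normSq_eq_norm_sq, cx_eq, cx_eq, cx_eq, map_sub]

/-- from the scalar function to the fields -/
theorem strings_of_u {ε G : ℝ} (hε : 0 < ε) (hG : 0 < G) {N : ℕ} (hN : 2 ≤ N) {δ B lam r : ℝ}
    {u : Eu 2 → ℝ} (hlam : 0 < lam) (hδ : 0 < δ) (hr : 0 < r) (hrd : δ * r ^ N = 1)
    (hu : ContDiff ℝ ((⊤ : ℕ∞) : WithTop ℕ∞) u)
    (hlap : ∀ x, lap u x = lam * kk (4 * Real.pi * ε ^ 2 * G) (RR N δ x) (u x))
    (hB : ∀ x, RR N δ x * Real.exp (u x) ≤ B) (hint : Integrable (lap u)) :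
    ∃ (η : Plane → ℝ) (φ : Plane → ℂ) (A : Fin 2 → Plane → ℝ),
      IsSolution ε G η φ A ∧ FiniteEnergy ε η φ A ∧ (∀ x, φ x = 0 ↔ ∃ k, x = vert N r k) ∧
        ∀ k, HasZero φ (vert N r k) 1 := by
  set p : Fin N → Plane := vert N r with hp
  have hpinj : Function.Injective p := vert_injective hN hr
  set n : Fin N → ℕ := fun _ => 1 with hn
  have hRR : ∀ x, RR N δ x = δ ^ 2 * PP p n x := prod_vert hN hrd
  set κ : ℝ := 4 * Real.pi * G with hκ
  set e : ℝ := ε ^ 2 with he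
  set a : ℝ := 4 * Real.pi * e * G with ha
  have hpi := Real.pi_pos
  have hκ0 : 0 < κ := by positivity
  have he0 : 0 < e := by positivity
  have ha0 : 0 < a := by positivity
  have hae : a = κ * e := by rw [ha, hκ]; ring
  set c0 : ℝ := Real.log (e * δ ^ 2) with hc0
  have hec0 : Real.exp c0 = e * δ ^ 2 := Real.exp_log (by positivity)
  set v : Plane → ℝ := fun x => u x + c0 with hv
  have hvs : Smooth v := ContDiff.add hu contDiff_const
  set φ : Plane → ℂ := higgsField p n v with hφ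
  have hφn : ∀ x, ‖φ x‖ ^ 2 = e * (RR N δ x * Real.exp (u x)) := by
    intro x
    rw [hφ, norm_higgs p n v, hRR]
    simp only [hv]
    rw [Real.exp_add, hec0]
    ring
  set g : ℝ := lam * (Real.exp (-(a * c0)) / e) with hg
  have hg0 : 0 < g := by positivity
  set η : Plane → ℝ := fun x => Real.log g + κ * (e * v x - ‖φ x‖ ^ 2) with hη
  have hφs : Smooth φ := smooth_higgs p n hvs
  have hηs : Smooth η := ContDiff.add contDiff_const (ContDiff.mul contDiff_const
    (ContDiff.sub (ContDiff.mul contDiff_const hvs) (ContDiff.norm_sq ℝ hφs)))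
  have hlapv : ∀ x, lap v x = lap u x := by
    intro x
    have hu2 : ContDiff ℝ 2 u := by exact_mod_cast contDiff_infty.1 hu 2
    simp only [hv]
    rw [lap_add hu2.contDiffAt contDiffAt_const, lap_const, add_zero]
  have hexp : ∀ x, Real.exp (η x) * (‖φ x‖ ^ 2 - e) = lam * kk a (RR N δ x) (u x) := by
    intro x
    simp only [hη]
    rw [Real.exp_add, Real.exp_log hg0, hφn]
    simp only [hv, hg]
    unfold kk
    have h1 : κ * (e * (u x + c0) - e * (RR N δ x * Real.exp (u x))) =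
        a * c0 + a * (u x - RR N δ x * Real.exp (u x)) := by rw [hae]; ring
    rw [h1, Real.exp_add, Real.exp_neg]
    have := Real.exp_pos (a * c0)
    field_simp
  have hb4 : ∀ x, ∑ j, pd j (pd j v) x = Real.exp (η x) * (‖φ x‖ ^ 2 - ε ^ 2) := by
    intro x
    rw [← lap_eq_pd hvs, hlapv, hexp]
    exact hlap x
  have hbps : BPS ε G η v φ (gaugeField v) := by
    refine ⟨hηs, hvs, hφs, smooth_gauge hvs, fun x => higgs_bps p n hvs x, fun x => ?_,
      ⟨Real.log g, fun x => rfl⟩, hb4⟩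
    rw [gauge_field hvs, hb4]
    ring
  have hint2 : Integrable (fun x => energyDensity ε η φ (gaugeField v) x * Real.exp (η x)) := by
    have hW : Smooth (fun y => ‖φ y‖ ^ 2) := ContDiff.norm_sq ℝ hφs
    have hdiv : ∀ x, energyDensity ε η φ (gaugeField v) x * Real.exp (η x) =
        1 / 4 * lap (fun y => ‖φ y‖ ^ 2) x - e / 4 * lap v x := by
      intro x
      rw [hbps.energy_div x, lap_eq_pd hW, lap_eq_pd hvs]
    have hW2 : ContDiff ℝ 2 (fun y => ‖φ y‖ ^ 2) := by exact_mod_cast contDiff_infty.1 hW 2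
    have hv2 : ContDiff ℝ 2 v := by exact_mod_cast contDiff_infty.1 hvs 2
    refine t_G e (e * B) (fun y => ‖φ y‖ ^ 2) v _ hW2 (fun x => ?_) hv2 ?_ ?_ ?_ hdiv
    · rw [abs_of_nonneg (by positivity), hφn]
      exact mul_le_mul_of_nonneg_left (hB x) he0.le
    · have : lap v = lap u := funext hlapv
      rw [this]; exact hint
    · simp only [hdiv]
      exact (continuous_const.mul (continuous_lap hW2)).sub
        (continuous_const.mul (continuous_lap hv2))
    · intro x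
      exact mul_nonneg (hbps.energy_nonneg x) (Real.exp_pos _).le
  refine ⟨η, φ, gaugeField v, hbps.isSolution, ⟨hint2, ?_⟩,
    higgs_eq_zero p n (fun _ => le_refl 1) v, fun k => higgs_zero p hpinj n hvs k⟩
  have e1 : (fun x => gaussCurvature η x * Real.exp (η x)) = fun x => (8 * Real.pi * G) *
      (energyDensity ε η φ (gaugeField v) x * Real.exp (η x)) := by
    funext x
    rw [hbps.isSolution.einstein x]
    ring
  rw [e1]
  exact hint2.const_mul _

theorem RR_smul (N : ℕ) (δ μ : ℝ) (x : Eu 2) : RR N δ (μ • x) = RR N (δ * μ ^ N) x := by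
  have h : cx (μ • x) = μ * cx x := by
    apply Complex.ext <;> simp [cx]
  unfold RR
  rw [h]
  push_cast
  ring_nf

/-- scaling -/
theorem scale_u {a : ℝ} {N : ℕ} (hN : 2 ≤ N) {δ B r : ℝ} {u : Eu 2 → ℝ} (hδ : 0 < δ) (hr : 0 < r)
    (hu : ContDiff ℝ ((⊤ : ℕ∞) : WithTop ℕ∞) u)
    (hlap : ∀ x, lap u x = kk a (RR N δ x) (u x))
    (hB : ∀ x, RR N δ x * Real.exp (u x) ≤ B) (hint : Integrable (lap u)) :
    ∃ (δ' lam : ℝ) (u' : Eu 2 → ℝ), 0 < δ' ∧ 0 < lam ∧ δ' * r ^ N = 1 ∧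
      ContDiff ℝ ((⊤ : ℕ∞) : WithTop ℕ∞) u' ∧
      (∀ x, lap u' x = lam * kk a (RR N δ' x) (u' x)) ∧
      (∀ x, RR N δ' x * Real.exp (u' x) ≤ B) ∧ Integrable (lap u') := by
  have hN0 : N ≠ 0 := by omega
  obtain ⟨s, hs, hsd⟩ : ∃ s : ℝ, 0 < s ∧ δ * s ^ N = 1 := by
    refine ⟨(1 / δ) ^ ((N : ℝ)⁻¹), by positivity, ?_⟩
    rw [Real.rpow_inv_natCast_pow (by positivity) hN0]
    field_simp
  set μ : ℝ := s / r with hμ
  have hμ0 : 0 < μ := by positivity
  have hu2 : ContDiff ℝ 2 u := by exact_mod_cast contDiff_infty.1 hu 2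
  have hl : ∀ x, lap (fun y => u (μ • y)) x = μ ^ 2 * lap u (μ • x) := fun x =>
    lap_comp_smul hu2 μ x
  refine ⟨δ * μ ^ N, μ ^ 2, fun y => u (μ • y), by positivity, by positivity, ?_, ?_, ?_, ?_, ?_⟩
  · rw [mul_assoc, ← mul_pow, hμ, div_mul_cancel₀ _ hr.ne', hsd]
  · exact hu.comp (contDiff_const_smul _)
  · intro x
    rw [hl, hlap, RR_smul]
  · intro x
    have := hB (μ • x)
    rwa [RR_smul] at this
  · have e : lap (fun y => u (μ • y)) = fun x => μ ^ 2 * lap u (μ • x) := funext hl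
    rw [e]
    exact ((integrable_comp_smul_iff volume (lap u) hμ0.ne').2 hint).const_mul _

end Pool.Agent.K3h35.GS
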