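import Pool.Agent.K3h35.GS.Phys

set_option autoImplicit false
open MeasureTheory Filter Topology Set Metric

namespace Pool.Agent.K3h35.GS

open Pool.Agent.H314.Dir Pool.Agent.H172R3.GS Pool.Agent.Results.MP_e9f444_mp.ManyStrings

/-- from the scalar function to the fields -/
theorem strings_of_u' {ε G : ℝ} (hε : 0 < ε) (hG : 0 < G) {N : ℕ} (hN : 2 ≤ N) {δ B lam r : ℝ}
    {u : Eu 2 → ℝ} (hlam : 0 < lam) (hδ : 0 < δ) (hr : 0 < r) (hrd : δ * r ^ N = 1)
    (hu : ContDiff ℝ ((⊤ : ℕ∞) : WithTop ℕ∞) u)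
    (hlap : ∀ x, lap u x = lam * kk (4 * Real.pi * ε ^ 2 * G) (RR N δ x) (u x))
    (hB : ∀ x, RR N δ x * Real.exp (u x) ≤ B) (hint : Integrable (lap u)) :
    ∃ (η : Plane → ℝ) (φ : Plane → ℂ) (A : Fin 2 → Plane → ℝ),
      IsSolution ε G η φ A ∧ FiniteEnergy ε η φ A ∧ (∀ x, φ x = 0 ↔ ∃ k, x = vert N r k) ∧
        (∀ k, HasZero φ (vert N r k) 1) ∧
        ∃ (c : ℝ) (v : Plane → ℝ), Smooth v ∧
          (∀ x, ‖φ x‖ ^ 2 = (∏ k, ‖x - vert N r k‖ ^ 2) * Real.exp (v x)) ∧
          ∀ x, η x = c + 4 * Real.pi * G * (ε ^ 2 * v x - ‖φ x‖ ^ 2) := by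
  set p : Fin N → Plane := vert N r with hp
  have hpinj : Function.Injective p := vert_injective hN hr
  set n : Fin N → ℕ := fun _ => 1 with hn
  have hRR : ∀ x, RR N δ x = δ ^ 2 * PP p n x := prod_vert hN hrd
  set κ : ℝ := 4 * Real.pi * G with hκ
  set e : ℝ := ε ^ 2 with he
  set a : ℝ := 4 * Real.pi * e * G with ha
  have hpi := Real.pi_pos
  have hκ0 : 0 < κ := by positivity
  have he0 : 0 < e := by positivity
  have ha0 : 0 < a := by positivity
  have hae : a = κ * e := by rw [ha, hκ]; ring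
  set c0 : ℝ := Real.log (e * δ ^ 2) with hc0
  have hec0 : Real.exp c0 = e * δ ^ 2 := Real.exp_log (by positivity)
  set v : Plane → ℝ := fun x => u x + c0 with hv
  have hvs : Smooth v := ContDiff.add hu contDiff_const
  set φ : Plane → ℂ := higgsField p n v with hφ
  have hφn : ∀ x, ‖φ x‖ ^ 2 = e * (RR N δ x * Real.exp (u x)) := by
    intro x
    rw [hφ, norm_higgs p n v, hRR]
    simp only [hv]
    rw [Real.exp_add, hec0]
    ring
  set g : ℝ := lam * (Real.exp (-(a * c0)) / e) with hg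
  have hg0 : 0 < g := by positivity
  set η : Plane → ℝ := fun x => Real.log g + κ * (e * v x - ‖φ x‖ ^ 2) with hη
  have hφs : Smooth φ := smooth_higgs p n hvs
  have hηs : Smooth η := ContDiff.add contDiff_const (ContDiff.mul contDiff_const
    (ContDiff.sub (ContDiff.mul contDiff_const hvs) (ContDiff.norm_sq ℝ hφs)))
  have hlapv : ∀ x, lap v x = lap u x := by
    intro x
    have hu2 : ContDiff ℝ 2 u := by exact_mod_cast contDiff_infty.1 hu 2
    simp only [hv]
    rw [lap_add hu2.contDiffAt contDiffAt_const, lap_const, add_zero]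
  have hexp : ∀ x, Real.exp (η x) * (‖φ x‖ ^ 2 - e) = lam * kk a (RR N δ x) (u x) := by
    intro x
    simp only [hη]
    rw [Real.exp_add, Real.exp_log hg0, hφn]
    simp only [hv, hg]
    unfold kk
    have h1 : κ * (e * (u x + c0) - e * (RR N δ x * Real.exp (u x))) =
        a * c0 + a * (u x - RR N δ x * Real.exp (u x)) := by rw [hae]; ring
    rw [h1, Real.exp_add, Real.exp_neg]
    have := Real.exp_pos (a * c0)
    field_simp
  have hb4 : ∀ x, ∑ j, pd j (pd j v) x = Real.exp (η x) * (‖φ x‖ ^ 2 - ε ^ 2) := by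
    intro x
    rw [← lap_eq_pd hvs, hlapv, hexp]
    exact hlap x
  have hbps : BPS ε G η v φ (gaugeField v) := by
    refine ⟨hηs, hvs, hφs, smooth_gauge hvs, fun x => higgs_bps p n hvs x, fun x => ?_,
      ⟨Real.log g, fun x => rfl⟩, hb4⟩
    rw [gauge_field hvs, hb4]
    ring
  have hint2 : Integrable (fun x => energyDensity ε η φ (gaugeField v) x * Real.exp (η x)) := by
    have hW : Smooth (fun y => ‖φ y‖ ^ 2) := ContDiff.norm_sq ℝ hφs
    have hdiv : ∀ x, energyDensity ε η φ (gaugeField v) x * Real.exp (η x) =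
        1 / 4 * lap (fun y => ‖φ y‖ ^ 2) x - e / 4 * lap v x := by
      intro x
      rw [hbps.energy_div x, lap_eq_pd hW, lap_eq_pd hvs]
    have hW2 : ContDiff ℝ 2 (fun y => ‖φ y‖ ^ 2) := by exact_mod_cast contDiff_infty.1 hW 2
    have hv2 : ContDiff ℝ 2 v := by exact_mod_cast contDiff_infty.1 hvs 2
    refine t_G e (e * B) (fun y => ‖φ y‖ ^ 2) v _ hW2 (fun x => ?_) hv2 ?_ ?_ ?_ hdiv
    · rw [abs_of_nonneg (by positivity), hφn]
      exact mul_le_mul_of_nonneg_left (hB x) he0.le
    · have : lap v = lap u := funext hlapv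
      rw [this]; exact hint
    · simp only [hdiv]
      exact (continuous_const.mul (continuous_lap hW2)).sub
        (continuous_const.mul (continuous_lap hv2))
    · intro x
      exact mul_nonneg (hbps.energy_nonneg x) (Real.exp_pos _).le
  refine ⟨η, φ, gaugeField v, hbps.isSolution, ⟨hint2, ?_⟩,
    higgs_eq_zero p n (fun _ => le_refl 1) v, fun k => higgs_zero p hpinj n hvs k,
    Real.log g, v, hvs, fun x => ?_, fun x => rfl⟩
  · have e1 : (fun x => gaussCurvature η x * Real.exp (η x)) = fun x => (8 * Real.pi * G) *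
        (energyDensity ε η φ (gaugeField v) x * Real.exp (η x)) := by
      funext x
      rw [hbps.isSolution.einstein x]
      ring
    rw [e1]
    exact hint2.const_mul _
  · rw [hφ, norm_higgs p n v]
    unfold PP
    simp only [hn, pow_one]

end Pool.Agent.K3h35.GS
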