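import Pool.Agent.K3h35.GS.Sup

set_option autoImplicit false
open MeasureTheory Filter Topology Set Metric

namespace Pool.Agent.K3h35.GS

open Pool.Agent.H314.Dir Pool.Agent.H314.CS Pool.Agent.H172R3.GS

variable {K : ℕ}

/-- the constant in the lower barrier -/
noncomputable def T0 (e N P Y : ℝ) : ℝ :=
  Real.log (e / 2) - N * Real.log (3 + 2 * (2 * Y ^ 2 + 2 * P)) - 2 * N

theorem exists_Y {a κ e g N P : ℝ} (ha : 0 < a) (he : 0 < e) (hg : 0 < g) (hN : 0 ≤ N)
    (hP : 0 ≤ P) :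
    ∃ Y : ℝ, 8 * N ≤
      Real.exp (Y - 1) * (g * (Real.exp (a * T0 e N P Y - κ * (e / 2)) * (e / 2))) := by
  have h1 : ∀ᶠ Y in atTop, ‖Real.log Y‖ ≤ (4 * (a * N + 1))⁻¹ * ‖Y‖ := by
    have := Real.isLittleO_log_id_atTop.bound (c := (4 * (a * N + 1))⁻¹) (by positivity)
    exact this
  set C1 : ℝ := 1 + |Real.log (e / 2)| * a + a * N * Real.log (7 + 4 * P) + 2 * N * a +
    |κ * (e / 2)| + 8 * N / (g * (e / 2)) with hC1
  obtain ⟨Y, hY1, hY2, hY3⟩ := (h1.and ((eventually_ge_atTop (1 : ℝ)).and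
    (eventually_ge_atTop (2 * C1)))).exists
  refine ⟨Y, ?_⟩
  rw [Real.norm_eq_abs, Real.norm_eq_abs, abs_of_nonneg (Real.log_nonneg hY2),
    abs_of_nonneg (by linarith : (0 : ℝ) ≤ Y)] at hY1
  have hlog : Real.log (3 + 2 * (2 * Y ^ 2 + 2 * P)) ≤ Real.log (7 + 4 * P) + 2 * Real.log Y := by
    have e1 : Real.log (7 + 4 * P) + 2 * Real.log Y = Real.log ((7 + 4 * P) * Y ^ 2) := by
      rw [Real.log_mul (by positivity) (by positivity), Real.log_pow]
      norm_num
    rw [e1]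
    refine Real.log_le_log (by positivity) ?_
    have : 1 ≤ Y ^ 2 := one_le_pow₀ hY2
    nlinarith
  have h2 : a * N * (2 * Real.log Y) ≤ Y / 2 := by
    have h3 : a * N * (2 * Real.log Y) ≤ (a * N + 1) * (2 * ((4 * (a * N + 1))⁻¹ * Y)) := by
      refine mul_le_mul (by linarith) (by linarith) ?_ (by positivity)
      have := Real.log_nonneg hY2
      linarith
    have h4 : (a * N + 1) * (2 * ((4 * (a * N + 1))⁻¹ * Y)) = Y / 2 := by
      have : a * N + 1 ≠ 0 := by positivity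
      field_simp
      ring
    linarith
  set u : ℝ := (Y - 1) + (a * T0 e N P Y - κ * (e / 2)) with hu
  have h3 : 8 * N / (g * (e / 2)) ≤ u := by
    have h4 : a * N * Real.log (3 + 2 * (2 * Y ^ 2 + 2 * P)) ≤
        a * N * Real.log (7 + 4 * P) + Y / 2 := by
      have := mul_le_mul_of_nonneg_left hlog (by positivity : 0 ≤ a * N)
      linarith
    have h5 : - (|Real.log (e / 2)| * a) ≤ a * Real.log (e / 2) := by
      have := mul_le_mul_of_nonneg_left (neg_abs_le (Real.log (e / 2))) ha.le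
      linarith
    have h6 := le_abs_self (κ * (e / 2))
    rw [hu]
    unfold T0
    have e2 : a * (Real.log (e / 2) - N * Real.log (3 + 2 * (2 * Y ^ 2 + 2 * P)) - 2 * N) =
      a * Real.log (e / 2) - a * N * Real.log (3 + 2 * (2 * Y ^ 2 + 2 * P)) - 2 * N * a := by ring
    rw [e2]
    linarith
  have h4 : u ≤ Real.exp u := by linarith [Real.add_one_le_exp u]
  have h5 : 8 * N / (g * (e / 2)) ≤ Real.exp u := h3.trans h4
  rw [div_le_iff₀ (by positivity)] at h5
  refine h5.trans (le_of_eq ?_)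
  rw [hu, Real.exp_add]
  ring

theorem contDiff_sqd (c : Eu 2) : ContDiff ℝ 2 (fun x : Eu 2 => ‖x - c‖ ^ 2) :=
  (contDiff_id.sub contDiff_const).norm_sq ℝ

theorem lap_sqd (c x : Eu 2) : lap (fun y : Eu 2 => ‖y - c‖ ^ 2) x = 4 := by
  have hg : ∀ᶠ r in 𝓝 (‖x - c‖ ^ 2), HasDerivAt (fun r : ℝ => r) ((fun _ : ℝ => (1 : ℝ)) r) r :=
    Eventually.of_forall fun r => hasDerivAt_id' r
  have hg' : HasDerivAt (fun _ : ℝ => (1 : ℝ)) ((fun _ : ℝ => (0 : ℝ)) (‖x - c‖ ^ 2)) (‖x - c‖ ^ 2) :=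
    hasDerivAt_const _ _
  have h1 := lap_radial (g := fun r : ℝ => r) (g' := fun _ => 1) (g'' := fun _ => 0) c x hg hg'
    (contDiff_sqd c).contDiffAt
  have h2 : lap (fun y : Eu 2 => ‖y - c‖ ^ 2) x = 4 * ‖x - c‖ ^ 2 * 0 + 2 * ((2 : ℕ) : ℝ) * 1 := h1
  rw [h2]
  norm_num

theorem GG0 (p : Fin K → Eu 2) (n : Fin K → ℕ) (x : Eu 2) :
    GG 0 p n x = ∑ k, (n k : ℝ) * Real.log (1 + ‖x - p k‖ ^ 2) := by
  unfold GG gm
  refine Finset.sum_congr rfl fun k _ => ?_
  simp

theorem exists_lower (p : Fin K → Eu 2) (n : Fin K → ℕ) {a κ e g : ℝ} (ha : 0 < a) (hκ : 0 < κ)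
    (he : 0 < e) (hg : 0 < g) :
    ∃ (L : Eu 2 → ℝ) (Y B : ℝ), (∀ x, L x ≤ Real.log (e / 2)) ∧ (∀ x, B ≤ L x) ∧
      ∀ th : Eu 2 → ℝ, (∀ x, 0 ≤ th x) → (∀ x, Y - 1 ≤ x 0 → Real.exp (Y - 1) ≤ th x) →
        ∀ x, LocSub (bt th p n a κ e g) L x := by
  set N : ℝ := ∑ k, (n k : ℝ) with hN
  have hN0 : 0 ≤ N := Finset.sum_nonneg fun k _ => by positivity
  set P : ℝ := ∑ k, ‖p k‖ ^ 2 with hP
  have hP0 : 0 ≤ P := Finset.sum_nonneg fun k _ => by positivity
  obtain ⟨Y, hY⟩ := exists_Y (κ := κ) ha he hg hN0 hP0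
  set d2 : ℝ := 2 * Y ^ 2 + 2 * P with hd2
  have hd0 : 0 ≤ d2 := by positivity
  obtain ⟨y0, hy0, hy0n⟩ : ∃ y0 : Eu 2, y0 0 = Y ∧ ‖y0‖ ^ 2 = Y ^ 2 := by
    refine ⟨!₂[Y, 0], by simp, ?_⟩
    rw [EuclideanSpace.norm_sq_eq]
    simp
  have hd : ∀ k, ‖y0 - p k‖ ^ 2 ≤ d2 := by
    intro k
    have h1 : ‖p k‖ ^ 2 ≤ P := Finset.single_le_sum (f := fun k => ‖p k‖ ^ 2)
      (fun k _ => by positivity) (Finset.mem_univ k)
    have h2 : ‖y0 - p k‖ ≤ ‖y0‖ + ‖p k‖ := norm_sub_le _ _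
    have h3 : ‖y0 - p k‖ ^ 2 ≤ (‖y0‖ + ‖p k‖) ^ 2 := pow_le_pow_left₀ (norm_nonneg _) h2 2
    nlinarith [sq_nonneg (‖y0‖ - ‖p k‖)]
  have tri : ∀ (u v : Eu 2), ‖u + v‖ ^ 2 ≤ 2 * ‖u‖ ^ 2 + 2 * ‖v‖ ^ 2 := by
    intro u v
    have h3 : ‖u + v‖ ^ 2 ≤ (‖u‖ + ‖v‖) ^ 2 := pow_le_pow_left₀ (norm_nonneg _) (norm_add_le _ _) 2
    nlinarith [sq_nonneg (‖u‖ - ‖v‖)]
  have hr1 : ∀ x k, ‖x - p k‖ ^ 2 ≤ 2 * ‖x - y0‖ ^ 2 + 2 * d2 := by
    intro x k
    have h1 := tri (x - y0) (y0 - p k)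
    rw [sub_add_sub_cancel] at h1
    linarith [hd k]
  have hr2 : ∀ x k, ‖x - y0‖ ^ 2 ≤ 2 * ‖x - p k‖ ^ 2 + 2 * d2 := by
    intro x k
    have h1 := tri (x - p k) (p k - y0)
    rw [sub_add_sub_cancel, norm_sub_rev (p k) y0] at h1
    linarith [hd k]
  set T : ℝ := T0 e N P Y with hT
  have hTe : T = Real.log (e / 2) - N * Real.log (3 + 2 * d2) - 2 * N := rfl
  set f : Eu 2 → ℝ := fun x => T + GG 0 p n x + 2 * N * (1 - ‖x - y0‖ ^ 2) with hf
  set h : Eu 2 → ℝ := fun x => T + GG 0 p n x - N * Real.log (‖x - y0‖ ^ 2) with hh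
  have hfs : ∀ x, ‖x - y0‖ ^ 2 ≤ 1 → f x ≤ Real.log (e / 2) := by
    intro x hx
    have h1 : GG 0 p n x ≤ N * Real.log (3 + 2 * d2) := by
      rw [GG0, hN, Finset.sum_mul]
      refine Finset.sum_le_sum fun k _ => mul_le_mul_of_nonneg_left ?_ (by positivity)
      refine Real.log_le_log (by positivity) ?_
      linarith [hr1 x k]
    have h2 : 2 * N * (1 - ‖x - y0‖ ^ 2) ≤ 2 * N * 1 :=
      mul_le_mul_of_nonneg_left (by linarith [sq_nonneg ‖x - y0‖]) (by positivity)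
    simp only [hf, hTe]
    linarith
  have hhs : ∀ x, 1 ≤ ‖x - y0‖ ^ 2 → h x ≤ Real.log (e / 2) := by
    intro x hx
    have h1 : GG 0 p n x ≤ N * (Real.log (3 + 2 * d2) + Real.log (‖x - y0‖ ^ 2)) := by
      rw [GG0, hN, Finset.sum_mul]
      refine Finset.sum_le_sum fun k _ => mul_le_mul_of_nonneg_left ?_ (by positivity)
      have hx1 : 0 < ‖x - y0‖ ^ 2 := by linarith
      have hx2 : 0 < 3 + 2 * d2 := by linarith
      have e1 : Real.log (3 + 2 * d2) + Real.log (‖x - y0‖ ^ 2) =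
          Real.log ((3 + 2 * d2) * ‖x - y0‖ ^ 2) := (Real.log_mul hx2.ne' hx1.ne').symm
      have hx3 : 0 ≤ ‖x - p k‖ ^ 2 := sq_nonneg _
      rw [e1]
      refine Real.log_le_log (by linarith) ?_
      have := hr1 x k
      nlinarith
    simp only [hh, hTe]
    linarith
  have hfl : ∀ x, ‖x - y0‖ ^ 2 ≤ 1 → T - N * Real.log (2 + 2 * d2) ≤ f x := by
    intro x hx
    have h1 := GG_nonneg 0 p n x
    have h2 : 0 ≤ 2 * N * (1 - ‖x - y0‖ ^ 2) := mul_nonneg (by positivity) (by linarith)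
    have h3 : 0 ≤ N * Real.log (2 + 2 * d2) := mul_nonneg hN0 (Real.log_nonneg (by linarith))
    simp only [hf]
    linarith
  have hhl : ∀ x, 1 ≤ ‖x - y0‖ ^ 2 → T - N * Real.log (2 + 2 * d2) ≤ h x := by
    intro x hx
    have h1 : N * Real.log (‖x - y0‖ ^ 2) ≤ N * Real.log (2 + 2 * d2) + GG 0 p n x := by
      rw [GG0, hN, Finset.sum_mul, Finset.sum_mul, ← Finset.sum_add_distrib]
      refine Finset.sum_le_sum fun k _ => ?_
      rw [← mul_add]
      refine mul_le_mul_of_nonneg_left ?_ (by positivity)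
      have hx1 : 0 < ‖x - y0‖ ^ 2 := by linarith
      have hx2 : 0 < 2 + 2 * d2 := by linarith
      have hx3 : 0 ≤ ‖x - p k‖ ^ 2 := sq_nonneg _
      have hx4 : 0 < 1 + ‖x - p k‖ ^ 2 := by linarith
      have e1 : Real.log (2 + 2 * d2) + Real.log (1 + ‖x - p k‖ ^ 2) =
          Real.log ((2 + 2 * d2) * (1 + ‖x - p k‖ ^ 2)) := (Real.log_mul hx2.ne' hx4.ne').symm
      rw [e1]
      refine Real.log_le_log hx1 ?_
      have := hr2 x k
      nlinarith
    simp only [hh]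
    linarith
  have hsq : ContDiff ℝ 2 (fun x : Eu 2 => ‖x - y0‖ ^ 2) := contDiff_sqd y0
  have hGc : ContDiff ℝ 2 (GG 0 p n) := contDiff_GG 0 p n
  have hfc : ContDiff ℝ 2 f := (contDiff_const.add hGc).add
    (contDiff_const.mul (contDiff_const.sub hsq))
  have hflap : ∀ x, lap f x = qq 0 p n x - 8 * N := by
    intro x
    have e1 : lap (fun x : Eu 2 => ‖x - y0‖ ^ 2) x = 4 := lap_sqd y0 x
    have e2 : lap (fun x : Eu 2 => T + GG 0 p n x) x = qq 0 p n x := by
      rw [lap_add contDiffAt_const hGc.contDiffAt, lap_const, zero_add, lap_GG]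
    have e3 : lap (fun x : Eu 2 => 2 * N * (1 - ‖x - y0‖ ^ 2)) x = - (8 * N) := by
      rw [lap_const_mul _ (contDiff_const.sub hsq).contDiffAt,
        lap_sub contDiffAt_const hsq.contDiffAt, lap_const, e1]
      ring
    simp only [hf]
    rw [lap_add (contDiff_const.add hGc).contDiffAt
      (contDiff_const.mul (contDiff_const.sub hsq)).contDiffAt, e2, e3]
    ring
  have hhsub : ∀ (th : Eu 2 → ℝ), (∀ x, 0 ≤ th x) → ∀ x, 1 ≤ ‖x - y0‖ ^ 2 →
      SubPc (bt th p n a κ e g) h x := by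
    intro th hth x hx
    have hne : x ≠ y0 := by
      rintro rfl
      rw [sub_self, norm_zero] at hx
      norm_num at hx
    obtain ⟨l1, l2⟩ := lap_log0 y0 x hne
    have hA : ContDiffAt ℝ 2 (fun x : Eu 2 => T + GG 0 p n x) x :=
      contDiffAt_const.add hGc.contDiffAt
    refine ⟨hA.sub (contDiffAt_const.mul l1), ?_⟩
    have e2 : lap h x = qq 0 p n x := by
      simp only [hh]
      rw [lap_sub hA (contDiffAt_const.mul l1), lap_const_mul _ l1, l2,
        lap_add contDiffAt_const hGc.contDiffAt, lap_const, zero_add, lap_GG]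
      ring
    rw [e2, bt_eq]
    have h1 : EE 0 p n x * Real.exp (h x) ≤ e := by
      have h2 : Real.exp (h x) ≤ e / 2 := by
        rw [← Real.le_log_iff_exp_le (by positivity)]
        exact hhs x hx
      have h3 := EE_le_one 0 p n x
      have h4 := EE_nonneg 0 p n x
      have h5 := Real.exp_pos (h x)
      nlinarith
    have h2 : 0 ≤ th x * (g * Real.exp (-(a * GG 0 p n x)) *
        (Real.exp (a * h x - κ * (EE 0 p n x * Real.exp (h x))) *
          (e - EE 0 p n x * Real.exp (h x)))) := by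
      have := hth x
      have h3 : 0 ≤ e - EE 0 p n x * Real.exp (h x) := by linarith
      positivity
    have e3 : th x * (g * Real.exp (-(a * GG 0 p n x)) *
        (Real.exp (a * h x - κ * (EE 0 p n x * Real.exp (h x))) *
          (EE 0 p n x * Real.exp (h x) - e))) = - (th x * (g * Real.exp (-(a * GG 0 p n x)) *
        (Real.exp (a * h x - κ * (EE 0 p n x * Real.exp (h x))) *
          (e - EE 0 p n x * Real.exp (h x))))) := by ring
    rw [e3]
    linarith
  have hfsub : ∀ (th : Eu 2 → ℝ), (∀ x, Y - 1 ≤ x 0 → Real.exp (Y - 1) ≤ th x) → ∀ x,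
      ‖x - y0‖ ^ 2 ≤ 1 → SubPc (bt th p n a κ e g) f x := by
    intro th hth x hx
    refine ⟨hfc.contDiffAt, ?_⟩
    rw [hflap, bt_eq]
    have hx0 : Y - 1 ≤ x 0 := by
      have h1 : ‖(x - y0) 0‖ ≤ ‖x - y0‖ := PiLp.norm_apply_le _ _
      have h2 : (x - y0) 0 = x 0 - Y := by rw [← hy0]; rfl
      rw [h2, Real.norm_eq_abs] at h1
      have h3 : ‖x - y0‖ ≤ 1 := by
        by_contra hcon
        push Not at hcon
        nlinarith
      have := abs_le.1 (h1.trans h3)
      linarith [this.1]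
    have hthx := hth x hx0
    have hE0 := EE_nonneg 0 p n x
    have hE1 := EE_le_one 0 p n x
    have hef : Real.exp (f x) ≤ e / 2 := by
      rw [← Real.le_log_iff_exp_le (by positivity)]
      exact hfs x hx
    have hX0 : 0 ≤ EE 0 p n x * Real.exp (f x) := by positivity
    have hX : EE 0 p n x * Real.exp (f x) ≤ e / 2 := by
      have h5 := Real.exp_pos (f x)
      nlinarith
    set X := EE 0 p n x * Real.exp (f x) with hXdef
    have h1 : Real.exp (-(a * GG 0 p n x)) * Real.exp (a * f x - κ * X) =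
        Real.exp (a * (T + 2 * N * (1 - ‖x - y0‖ ^ 2)) - κ * X) := by
      rw [← Real.exp_add]
      congr 1
      simp only [hf]
      ring
    have h2 : Real.exp (a * T - κ * (e / 2)) ≤
        Real.exp (-(a * GG 0 p n x)) * Real.exp (a * f x - κ * X) := by
      rw [h1]
      refine Real.exp_le_exp.2 ?_
      have h3 : 0 ≤ a * (2 * N * (1 - ‖x - y0‖ ^ 2)) :=
        mul_nonneg ha.le (mul_nonneg (by positivity) (by linarith))
      have h4 : κ * X ≤ κ * (e / 2) := mul_le_mul_of_nonneg_left hX hκ.le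
      linarith
    have h3 : Real.exp (Y - 1) * (g * (Real.exp (a * T - κ * (e / 2)) * (e / 2))) ≤
        th x * (g * ((Real.exp (-(a * GG 0 p n x)) * Real.exp (a * f x - κ * X)) * (e - X))) := by
      refine mul_le_mul hthx (mul_le_mul_of_nonneg_left (mul_le_mul h2 (by linarith)
        (by positivity) (by positivity)) hg.le) (by positivity) ((Real.exp_pos _).le.trans hthx)
    have e3 : th x * (g * Real.exp (-(a * GG 0 p n x)) *
        (Real.exp (a * f x - κ * X) * (X - e))) = - (th x * (g * ((Real.exp (-(a * GG 0 p n x)) *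
          Real.exp (a * f x - κ * X)) * (e - X)))) := by ring
    rw [e3]
    linarith
  classical
  refine ⟨fun x => if ‖x - y0‖ ^ 2 < 1 then f x else h x, Y, T - N * Real.log (2 + 2 * d2),
    fun x => ?_, fun x => ?_, fun th hth0 hth x => ?_⟩
  · simp only
    split_ifs with hx
    · exact hfs x hx.le
    · exact hhs x (not_lt.1 hx)
  · simp only
    split_ifs with hx
    · exact hfl x hx.le
    · exact hhl x (not_lt.1 hx)
  · rcases lt_trichotomy (‖x - y0‖ ^ 2) 1 with hx | hx | hx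
    · have hs := hfsub th hth x hx.le
      refine ⟨f, f, f, hs, hs, hs, ?_⟩
      filter_upwards [hsq.continuous.continuousAt.eventually (gt_mem_nhds hx)] with y hy
      rw [if_pos hy, max_self, max_self]
    · have hs := hfsub th hth x hx.le
      have hs2 := hhsub th hth0 x hx.ge
      refine ⟨f, h, h, hs, hs2, hs2, ?_⟩
      have h12 : (1 / 2 : ℝ) < ‖x - y0‖ ^ 2 := by rw [hx]; norm_num
      filter_upwards [hsq.continuous.continuousAt.eventually (lt_mem_nhds h12)] with y hy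
      rw [max_self]
      by_cases hy1 : ‖y - y0‖ ^ 2 < 1
      · rw [if_pos hy1, max_eq_left]
        have hpos : 0 < ‖y - y0‖ ^ 2 := by linarith
        have h1 : - Real.log (‖y - y0‖ ^ 2) ≤ 2 * (1 - ‖y - y0‖ ^ 2) := by
          have h2 := Real.log_le_sub_one_of_pos (inv_pos.2 hpos)
          rw [Real.log_inv] at h2
          refine h2.trans ?_
          have h3 : (‖y - y0‖ ^ 2)⁻¹ - 1 = (1 - ‖y - y0‖ ^ 2) * (‖y - y0‖ ^ 2)⁻¹ := by
            rw [sub_mul, one_mul, mul_inv_cancel₀ hpos.ne']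
          rw [h3, mul_comm]
          refine mul_le_mul_of_nonneg_right ?_ (by linarith)
          rw [inv_le_comm₀ hpos (by norm_num)]
          linarith
        have h2 := mul_le_mul_of_nonneg_left h1 hN0
        simp only [hf, hh]
        linarith
      · rw [if_neg hy1, max_eq_right]
        push Not at hy1
        have hpos : 0 < ‖y - y0‖ ^ 2 := by linarith
        have h1 : Real.log (‖y - y0‖ ^ 2) ≤ 2 * (‖y - y0‖ ^ 2 - 1) := by
          have h2 := Real.log_le_sub_one_of_pos hpos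
          linarith
        have h2 := mul_le_mul_of_nonneg_left h1 hN0
        simp only [hf, hh]
        linarith
    · have hs := hhsub th hth0 x hx.le
      refine ⟨h, h, h, hs, hs, hs, ?_⟩
      filter_upwards [hsq.continuous.continuousAt.eventually (lt_mem_nhds hx)] with y hy
      rw [if_neg (not_lt.2 hy.le), max_self, max_self]

end Pool.Agent.K3h35.GS
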