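import Pool.Agent.K3h35.GS.Lim

set_option autoImplicit false
open MeasureTheory Filter Topology Set Metric

namespace Pool.Agent.K3h35.GS

open Pool.Agent.H314.Dir Pool.Agent.H314.CS Pool.Agent.H172R3.GS

variable {K : ℕ}

/-- the nonlinearity with an additional weight `th` -/
noncomputable def bt (th : Eu 2 → ℝ) (p : Fin K → Eu 2) (n : Fin K → ℕ) (a κ e g : ℝ) (x : Eu 2)
    (t : ℝ) : ℝ := qq 0 p n x + th x * (bb 0 p n a κ e g x t - qq 0 p n x)

theorem bt_eq (th : Eu 2 → ℝ) (p : Fin K → Eu 2) (n : Fin K → ℕ) (a κ e g : ℝ) (x : Eu 2)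
    (t : ℝ) : bt th p n a κ e g x t = qq 0 p n x + th x * (g * Real.exp (-(a * GG 0 p n x)) *
      (Real.exp (a * t - κ * (EE 0 p n x * Real.exp t)) * (EE 0 p n x * Real.exp t - e))) := by
  unfold bt bb; ring

theorem tendsto_EE (p : Fin K → Eu 2) (n : Fin K → ℕ) :
    Tendsto (EE 0 p n) (cocompact (Eu 2)) (𝓝 1) := by
  have h1 : ∀ k : Fin K, Tendsto (fun x : Eu 2 => (‖x - p k‖ ^ 2 *
      Real.exp (-gm 0 (‖x - p k‖ ^ 2))) ^ (n k)) (cocompact (Eu 2)) (𝓝 (1 ^ n k)) := by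
    intro k
    refine Tendsto.pow ?_ _
    have h2 : Tendsto (fun x : Eu 2 => ‖x - p k‖ ^ 2) (cocompact (Eu 2)) atTop := by
      refine (tendsto_pow_atTop (by norm_num)).comp ?_
      have h3 : Tendsto (fun x : Eu 2 => ‖x‖ - ‖p k‖) (cocompact (Eu 2)) atTop :=
        tendsto_atTop_add_const_right _ _ tendsto_norm_cocompact_atTop
      exact tendsto_atTop_mono (fun x => norm_sub_norm_le _ _) h3
    have h4 : Tendsto (fun r : ℝ => r * Real.exp (-gm 0 r)) atTop (𝓝 1) := by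
      have h5 : Tendsto (fun r : ℝ => 1 - (1 + r)⁻¹) atTop (𝓝 (1 - 0)) :=
        tendsto_const_nhds.sub (tendsto_inv_atTop_zero.comp
          (tendsto_atTop_add_const_left _ _ tendsto_id))
      rw [sub_zero] at h5
      refine h5.congr' ?_
      filter_upwards [eventually_ge_atTop (0 : ℝ)] with r hr
      have hpos : 0 < 1 + r := by linarith
      have e1 := exp_gm 0 hr
      simp only [zero_add, pow_one] at e1
      rw [Real.exp_neg, e1]
      field_simp
      ring
    exact h4.comp h2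
  have h2 := tendsto_finsetProd (Finset.univ : Finset (Fin K)) (fun k _ => h1 k)
  simp only [one_pow, Finset.prod_const_one] at h2
  refine h2.congr fun x => ?_
  rw [EE_eq]

theorem compact_EE (p : Fin K → Eu 2) (n : Fin K → ℕ) :
    IsCompact {x : Eu 2 | EE 0 p n x ≤ 1 / 2} := by
  have h1 := (tendsto_EE p n).eventually_const_lt (show (1 / 2 : ℝ) < 1 by norm_num)
  rw [Filter.Eventually, mem_cocompact] at h1
  obtain ⟨t, ht, hts⟩ := h1
  refine ht.of_isClosed_subset ?_ ?_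
  · exact isClosed_le (contDiff_EE (N := 0) 0 p n).continuous continuous_const
  · intro x hx
    by_contra hxt
    have h2 : (1 / 2 : ℝ) < EE 0 p n x := hts hxt
    have h3 : EE 0 p n x ≤ 1 / 2 := hx
    linarith

theorem qq_pos (p : Fin K → Eu 2) (n : Fin K → ℕ) (hn : ∀ k, 1 ≤ n k) {x : Eu 2}
    (hx : EE 0 p n x ≤ 1 / 2) : 0 < qq 0 p n x := by
  have hK : (Finset.univ : Finset (Fin K)).Nonempty := by
    by_contra h
    rw [Finset.not_nonempty_iff_eq_empty] at h
    rw [EE_eq, h, Finset.prod_empty] at hx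
    norm_num at hx
  unfold qq
  refine Finset.sum_pos (fun k _ => ?_) hK
  refine mul_pos (by exact_mod_cast hn k) ?_
  unfold qm
  have := one_add_pow_pos 0 (sq_nonneg ‖x - p k‖)
  positivity

theorem exists_g (p : Fin K → Eu 2) (n : Fin K → ℕ) (hn : ∀ k, 1 ≤ n k) (C : ℝ) :
    ∃ g : ℝ, 0 < g ∧ ∀ x : Eu 2, EE 0 p n x ≤ 1 / 2 → g * Real.exp (x 0) * C ≤ qq 0 p n x := by
  have hx0 : Continuous (fun x : Eu 2 => x 0) := (EuclideanSpace.proj (𝕜 := ℝ) 0).continuous
  have hc : ContinuousOn (fun x : Eu 2 => Real.exp (x 0) * C / qq 0 p n x)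
      {x : Eu 2 | EE 0 p n x ≤ 1 / 2} := by
    refine ContinuousOn.div ?_ ?_ fun x hx => (qq_pos p n hn hx).ne'
    · exact ((Real.continuous_exp.comp hx0).mul continuous_const).continuousOn
    · exact (contDiff_qq (N := 0) 0 p n).continuous.continuousOn
  obtain ⟨B, hB⟩ := (compact_EE p n).exists_bound_of_continuousOn hc
  refine ⟨(|B| + 1)⁻¹, by positivity, fun x hx => ?_⟩
  have hq := qq_pos p n hn hx
  have h1 := (le_abs_self _).trans (hB x hx)
  rw [div_le_iff₀ hq] at h1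
  have h2 : B ≤ |B| + 1 := by linarith [le_abs_self B]
  have h3 : Real.exp (x 0) * C ≤ (|B| + 1) * qq 0 p n x :=
    h1.trans (mul_le_mul_of_nonneg_right h2 hq.le)
  have h4 : 0 < |B| + 1 := by positivity
  rw [mul_assoc, inv_mul_le_iff₀ h4]
  exact h3

theorem sup_const {th : Eu 2 → ℝ} {p : Fin K → Eu 2} {n : Fin K → ℕ} {a κ e g M : ℝ}
    (ha : 0 < a) (hκ : 0 < κ) (he : 0 < e) (hg0 : 0 < g) (hM : Real.exp M = 2 * e)
    (hg : ∀ x : Eu 2, EE 0 p n x ≤ 1 / 2 →
      g * Real.exp (x 0) * (Real.exp (a * M) * e) ≤ qq 0 p n x) {x : Eu 2} (hth0 : 0 ≤ th x)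
    (hth : th x ≤ Real.exp (x 0)) : SupPc (bt th p n a κ e g) (fun _ => M) x := by
  refine ⟨contDiffAt_const, ?_⟩
  rw [lap_const, bt_eq, hM]
  have hq := qq_nonneg 0 p n x
  have hE0 := EE_nonneg 0 p n x
  have hG := GG_nonneg 0 p n x
  rcases le_total (EE 0 p n x) (1 / 2) with hE | hE
  · have h1 := hg x hE
    have e1 : Real.exp (-(a * GG 0 p n x)) ≤ 1 := by
      rw [Real.exp_le_one_iff]
      have := mul_nonneg ha.le hG
      linarith
    have e2 : Real.exp (a * M - κ * (EE 0 p n x * (2 * e))) ≤ Real.exp (a * M) := by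
      refine Real.exp_le_exp.2 ?_
      have : 0 ≤ κ * (EE 0 p n x * (2 * e)) := by positivity
      linarith
    have e3 : 0 ≤ e - EE 0 p n x * (2 * e) := by nlinarith
    have e4 : e - EE 0 p n x * (2 * e) ≤ e := by
      have : 0 ≤ EE 0 p n x * (2 * e) := by positivity
      linarith
    have e5 : th x * (g * Real.exp (-(a * GG 0 p n x)) *
        (Real.exp (a * M - κ * (EE 0 p n x * (2 * e))) * (e - EE 0 p n x * (2 * e)))) ≤
        Real.exp (x 0) * (g * 1 * (Real.exp (a * M) * e)) := by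
      refine mul_le_mul hth ?_ ?_ (Real.exp_pos _).le
      · refine mul_le_mul (mul_le_mul_of_nonneg_left e1 hg0.le) ?_ ?_ (by positivity)
        · exact mul_le_mul e2 e4 e3 (Real.exp_pos _).le
        · have := Real.exp_pos (a * M - κ * (EE 0 p n x * (2 * e)))
          positivity
      · have h5 := Real.exp_pos (a * M - κ * (EE 0 p n x * (2 * e)))
        have h6 := Real.exp_pos (-(a * GG 0 p n x))
        positivity
    have e6 : th x * (g * Real.exp (-(a * GG 0 p n x)) *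
        (Real.exp (a * M - κ * (EE 0 p n x * (2 * e))) * (EE 0 p n x * (2 * e) - e))) =
        -(th x * (g * Real.exp (-(a * GG 0 p n x)) *
        (Real.exp (a * M - κ * (EE 0 p n x * (2 * e))) * (e - EE 0 p n x * (2 * e))))) := by ring
    rw [e6]
    linarith
  · have e3 : 0 ≤ EE 0 p n x * (2 * e) - e := by nlinarith
    have h5 := Real.exp_pos (a * M - κ * (EE 0 p n x * (2 * e)))
    have h6 := Real.exp_pos (-(a * GG 0 p n x))
    have h7 : 0 ≤ th x * (g * Real.exp (-(a * GG 0 p n x)) *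
        (Real.exp (a * M - κ * (EE 0 p n x * (2 * e))) * (EE 0 p n x * (2 * e) - e))) := by
      positivity
    linarith

theorem lap_sum_at {ι : Type*} (s : Finset ι) (f : ι → Eu 2 → ℝ) (x : Eu 2)
    (hf : ∀ i ∈ s, ContDiffAt ℝ 2 (f i) x) :
    ContDiffAt ℝ 2 (fun y => ∑ i ∈ s, f i y) x ∧
      lap (fun y => ∑ i ∈ s, f i y) x = ∑ i ∈ s, lap (f i) x := by
  classical
  induction s using Finset.induction_on with
  | empty => simp [lap_const, contDiffAt_const]
  | insert i s hi ih =>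
    obtain ⟨h1, h2⟩ := ih fun j hj => hf j (Finset.mem_insert_of_mem hj)
    have h3 := hf i (Finset.mem_insert_self i s)
    simp only [Finset.sum_insert hi]
    exact ⟨h3.add h1, by rw [lap_add h3 h1, h2]⟩

theorem lap_log0 (c x : Eu 2) (hx : x ≠ c) :
    ContDiffAt ℝ 2 (fun y : Eu 2 => Real.log (‖y - c‖ ^ 2)) x ∧
      lap (fun y : Eu 2 => Real.log (‖y - c‖ ^ 2)) x = 0 := by
  have hpos : 0 < ‖x - c‖ ^ 2 := by
    have := norm_pos_iff.2 (sub_ne_zero.2 hx)
    positivity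
  have hC : ContDiffAt ℝ 2 (fun y : Eu 2 => Real.log (‖y - c‖ ^ 2)) x := by
    have h1 : ContDiff ℝ 2 (fun y : Eu 2 => ‖y - c‖ ^ 2) :=
      (contDiff_id.sub contDiff_const).norm_sq ℝ
    exact h1.contDiffAt.log hpos.ne'
  refine ⟨hC, ?_⟩
  have hev : ∀ᶠ r in 𝓝 (‖x - c‖ ^ 2), (0 : ℝ) < r := lt_mem_nhds hpos
  rw [lap_radial (g := Real.log) (g' := fun r => r⁻¹) (g'' := fun r => -(r ^ 2)⁻¹) c x
    (hev.mono fun r hr => Real.hasDerivAt_log hr.ne') (hasDerivAt_inv hpos.ne') hC]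
  push_cast
  field_simp
  ring

theorem log_EE {p : Fin K → Eu 2} {n : Fin K → ℕ} {x : Eu 2} (hx : ∀ k, x ≠ p k) :
    Real.log (EE 0 p n x) = ∑ k, (n k : ℝ) * Real.log (‖x - p k‖ ^ 2) - GG 0 p n x := by
  have hpos : ∀ k, 0 < ‖x - p k‖ ^ 2 := by
    intro k
    have := norm_pos_iff.2 (sub_ne_zero.2 (hx k))
    positivity
  unfold EE PP
  rw [Real.log_mul (Finset.prod_ne_zero_iff.2 fun k _ => (pow_pos (hpos k) _).ne')
    (Real.exp_pos _).ne', Real.log_exp, Real.log_prod (fun k _ => (pow_pos (hpos k) _).ne')]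
  rw [← sub_eq_add_neg]
  congr 1
  exact Finset.sum_congr rfl fun k _ => Real.log_pow _ _

theorem ne_of_EE_pos {p : Fin K → Eu 2} {n : Fin K → ℕ} (hn : ∀ k, 1 ≤ n k) {x : Eu 2}
    (hx : 0 < EE 0 p n x) (k : Fin K) : x ≠ p k := by
  rintro rfl
  have : EE 0 p n (p k) = 0 := by
    unfold EE PP
    rw [Finset.prod_eq_zero (Finset.mem_univ k), zero_mul]
    rw [sub_self, norm_zero, zero_pow two_ne_zero, zero_pow]
    have := hn k
    omega
  linarith

theorem sup_vac {th : Eu 2 → ℝ} {p : Fin K → Eu 2} {n : Fin K → ℕ} {a κ e g : ℝ}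
    (hn : ∀ k, 1 ≤ n k) (he : 0 < e) {x : Eu 2} (hx : 0 < EE 0 p n x) :
    SupPc (bt th p n a κ e g) (fun y => Real.log e - Real.log (EE 0 p n y)) x := by
  have hne := ne_of_EE_pos hn hx
  have hc : Continuous (EE 0 p n) := (contDiff_EE (N := 0) 0 p n).continuous
  have hev : (fun y => Real.log e - Real.log (EE 0 p n y)) =ᶠ[𝓝 x]
      fun y => (Real.log e + GG 0 p n y) - ∑ k, (n k : ℝ) * Real.log (‖y - p k‖ ^ 2) := by
    filter_upwards [hc.continuousAt.eventually (lt_mem_nhds hx)] with y hy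
    rw [log_EE (ne_of_EE_pos hn hy)]
    ring
  have h1 : ∀ k : Fin K, ContDiffAt ℝ 2 (fun y : Eu 2 => (n k : ℝ) * Real.log (‖y - p k‖ ^ 2)) x ∧
      lap (fun y : Eu 2 => (n k : ℝ) * Real.log (‖y - p k‖ ^ 2)) x = 0 := by
    intro k
    obtain ⟨h2, h3⟩ := lap_log0 (p k) x (hne k)
    exact ⟨contDiffAt_const.mul h2, by rw [lap_const_mul _ h2, h3, mul_zero]⟩
  obtain ⟨h2, h3⟩ := lap_sum_at Finset.univ (fun (k : Fin K) (y : Eu 2) =>
    (n k : ℝ) * Real.log (‖y - p k‖ ^ 2)) x fun k _ => (h1 k).1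
  have hG : ContDiffAt ℝ 2 (fun y => Real.log e + GG 0 p n y) x :=
    contDiffAt_const.add (contDiff_GG 0 p n).contDiffAt
  refine ⟨(hG.sub h2).congr_of_eventuallyEq hev, ?_⟩
  rw [lap_congr hev, lap_sub hG h2, h3, Finset.sum_congr rfl fun k _ => (h1 k).2,
    Finset.sum_const_zero, sub_zero, lap_add contDiffAt_const (contDiff_GG 0 p n).contDiffAt,
    lap_const, zero_add, lap_GG, bt_eq]
  have e1 : EE 0 p n x * Real.exp (Real.log e - Real.log (EE 0 p n x)) = e := by
    rw [Real.exp_sub, Real.exp_log he, Real.exp_log hx]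
    field_simp
  rw [e1]
  simp

/-- the upper barrier -/
noncomputable def Ub (p : Fin K → Eu 2) (n : Fin K → ℕ) (e M : ℝ) (x : Eu 2) : ℝ :=
  open Classical in
  if e ≤ EE 0 p n x * Real.exp M then Real.log e - Real.log (EE 0 p n x) else M

theorem Ub_sup {th : Eu 2 → ℝ} {p : Fin K → Eu 2} {n : Fin K → ℕ} {a κ e g M : ℝ}
    (hn : ∀ k, 1 ≤ n k)
    (ha : 0 < a) (hκ : 0 < κ) (he : 0 < e) (hg0 : 0 < g) (hM : Real.exp M = 2 * e)
    (hg : ∀ x : Eu 2, EE 0 p n x ≤ 1 / 2 →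
      g * Real.exp (x 0) * (Real.exp (a * M) * e) ≤ qq 0 p n x) (hth0 : ∀ x, 0 ≤ th x)
    (hth : ∀ x, th x ≤ Real.exp (x 0)) (x : Eu 2) : LocSup (bt th p n a κ e g) (Ub p n e M) x := by
  have hc : Continuous (EE 0 p n) := (contDiff_EE (N := 0) 0 p n).continuous
  have hs := sup_const (p := p) (n := n) ha hκ he hg0 hM hg (hth0 x) (hth x)
  rcases lt_or_ge (EE 0 p n x * Real.exp M) e with h | h
  · refine ⟨_, _, hs, hs, ?_⟩
    have h1 : Continuous (fun y => EE 0 p n y * Real.exp M) := hc.mul continuous_const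
    filter_upwards [h1.continuousAt.eventually (gt_mem_nhds h)] with y hy
    unfold Ub
    rw [if_neg (not_le.2 hy), min_self]
  · have hx : 0 < EE 0 p n x := by
      by_contra h2
      push Not at h2
      have := Real.exp_pos M
      nlinarith
    refine ⟨_, _, hs, sup_vac hn he hx, ?_⟩
    filter_upwards [hc.continuousAt.eventually (lt_mem_nhds hx)] with y hy
    have e1 : e ≤ EE 0 p n y * Real.exp M ↔ Real.log e - Real.log (EE 0 p n y) ≤ M := by
      rw [sub_le_iff_le_add, ← Real.log_exp M, ← Real.log_mul (Real.exp_pos _).ne' hy.ne',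
        Real.log_le_log_iff he (mul_pos (Real.exp_pos _) hy), Real.log_exp, mul_comm]
    unfold Ub
    by_cases h3 : e ≤ EE 0 p n y * Real.exp M
    · rw [if_pos h3, min_eq_right (e1.1 h3)]
    · rw [if_neg h3, min_eq_left]
      exact (not_le.1 fun h4 => h3 (e1.2 h4)).le

theorem Ub_le {p : Fin K → Eu 2} {n : Fin K → ℕ} {e M : ℝ} (he : 0 < e) (x : Eu 2) :
    Ub p n e M x ≤ M ∧ EE 0 p n x * Real.exp (Ub p n e M x) ≤ e := by
  unfold Ub
  by_cases h : e ≤ EE 0 p n x * Real.exp M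
  · rw [if_pos h]
    have hx : 0 < EE 0 p n x := by
      by_contra h2
      push Not at h2
      have := Real.exp_pos M
      nlinarith
    constructor
    · rw [sub_le_iff_le_add, ← Real.log_exp M, ← Real.log_mul (Real.exp_pos _).ne' hx.ne',
        Real.log_le_log_iff he (mul_pos (Real.exp_pos _) hx), mul_comm]
      simpa using h
    · rw [Real.exp_sub, Real.exp_log he, Real.exp_log hx]
      field_simp
      exact le_refl _
  · rw [if_neg h]
    exact ⟨le_rfl, (not_le.1 h).le⟩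

theorem le_Ub {p : Fin K → Eu 2} {n : Fin K → ℕ} {e M : ℝ} (he : 0 < e)
    (hM : Real.exp M = 2 * e) {s : ℝ} (hs : s ≤ Real.log e) (x : Eu 2) : s ≤ Ub p n e M x := by
  unfold Ub
  by_cases h : e ≤ EE 0 p n x * Real.exp M
  · rw [if_pos h]
    have h1 : Real.log (EE 0 p n x) ≤ 0 := Real.log_nonpos (EE_nonneg 0 p n x) (EE_le_one 0 p n x)
    linarith
  · rw [if_neg h]
    have h1 : Real.log e ≤ M := by
      rw [← Real.log_exp M, hM]
      exact Real.log_le_log he (by linarith)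
    linarith

end Pool.Agent.K3h35.GS
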